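import Pool.Agent.H26.PM.Afp
import Pool.Agent.H2.GEN.LabT
import Pool.Agent.H63.STAT.CloF

/-!
# Thresholds of the affine labels of one coordinate

`Pool.PM26.Afl F c i w P A`: the coordinate `c i` has, up to `2 ^ (-P)`, an affine label over the
time and the coordinates `c l`, `l < i`, at the rounded point; the label is a function of the point
which is a function of the line and of the window of length `2 ^ (-w)`. No condition on the
coefficients. `AflOf S c i p`: `p w` is the threshold of these labels in the class `S`. `afl_thr`: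
the thresholds exist in a subclass. `AflOf.non`: no affine label with a precision above the
threshold, at a window at which the threshold is continuous.
-/

set_option autoImplicit false

namespace Pool.PM93

open Finset Real MvPolynomial
open Pool.Agent.H49.Ent Pool.Agent.H32.Dense Pool.STK Pool.KA Pool.KSAT Pool.K2S Pool.PB Pool.S6C
open Pool.STAT (PN TriN)
open Pool.M3F (px)
open Pool.GEN (PtT LnT)
open Pool.PM26 (Afl)

variable {m J : ℕ}

/-! ### Affine functions -/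

/-- **The affine function** of the variables `0, …, i`: the constant is `α 0`, the coefficient of
the variable `l` is `α (l + 1)`. -/
noncomputable def afp (i : ℕ) (α : ℕ → ℝ) : PN :=
  C (α 0) + ∑ l ∈ range (i + 1), C (α (l + 1)) * X l

theorem eval_afp (i : ℕ) (α b : ℕ → ℝ) :
    eval b (afp i α) = α 0 + ∑ l ∈ range (i + 1), α (l + 1) * b l := by
  unfold afp
  simp only [map_add, map_mul, eval_C, eval_X, map_sum]

/-- Affine polynomials in the variables `0, …, i`. -/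
def IsAf (i : ℕ) (Q : PN) : Prop := Q.totalDegree ≤ 1 ∧ Q.vars ⊆ range (i + 1)

theorem IsAf.add {i : ℕ} {Q R : PN} (hQ : IsAf i Q) (hR : IsAf i R) : IsAf i (Q + R) :=
  ⟨(totalDegree_add _ _).trans (max_le hQ.1 hR.1),
    (vars_add_subset _ _).trans (union_subset hQ.2 hR.2)⟩

theorem IsAf.smul {i : ℕ} {Q : PN} (a : ℝ) (hQ : IsAf i Q) : IsAf i (C a * Q) := by
  refine ⟨(totalDegree_mul _ _).trans ?_, (vars_mul _ _).trans (union_subset ?_ hQ.2)⟩
  · rw [totalDegree_C, zero_add]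
    exact hQ.1
  · rw [vars_C]
    exact empty_subset _

theorem IsAf.const (i : ℕ) (a : ℝ) : IsAf i (C a) := by
  refine ⟨?_, ?_⟩
  · rw [totalDegree_C]
    exact Nat.zero_le _
  · rw [vars_C]
    exact empty_subset _

theorem IsAf.var {i l : ℕ} (hl : l ≤ i) : IsAf i (X l) := by
  refine ⟨(totalDegree_X _).le, ?_⟩
  rw [vars_X]
  intro j hj
  rw [mem_singleton.1 hj, mem_range]
  omega

theorem IsAf.sub {i : ℕ} {Q R : PN} (hQ : IsAf i Q) (hR : IsAf i R) : IsAf i (Q - R) := by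
  have h := hQ.add (hR.smul (-1))
  have e : Q + C (-1) * R = Q - R := by
    rw [map_neg, C_1]
    ring
  rwa [e] at h

theorem IsAf.sum {i : ℕ} {ι : Type} (s : Finset ι) {Q : ι → PN} (h : ∀ j ∈ s, IsAf i (Q j)) :
    IsAf i (∑ j ∈ s, Q j) := by
  classical
  induction s using Finset.induction_on with
  | empty =>
    rw [sum_empty, ← C_0]
    exact IsAf.const i 0
  | insert a s ha ih =>
    rw [sum_insert ha]
    exact (h a (mem_insert_self a s)).add (ih fun j hj => h j (mem_insert_of_mem hj))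

theorem IsAf.mono {i i' : ℕ} {Q : PN} (h : IsAf i Q) (hi : i ≤ i') : IsAf i' Q :=
  ⟨h.1, h.2.trans fun j hj => mem_range.2 (by have := mem_range.1 hj; omega)⟩

theorem isAf_afp (i : ℕ) (α : ℕ → ℝ) : IsAf i (afp i α) := by
  unfold afp
  refine (IsAf.const i _).add (IsAf.sum _ fun l hl => ?_)
  exact (IsAf.var (by have := mem_range.1 hl; omega)).smul _

/-- Affine polynomials are affine functions. -/
theorem IsAf.eq {i : ℕ} {Q : PN} (h : IsAf i Q) : ∃ α : ℕ → ℝ, Q = afp i α := by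
  classical
  refine ⟨fun j => if j = 0 then coeff 0 Q else coeff (Finsupp.single (j - 1) 1) Q, ?_⟩
  ext d
  unfold afp
  rw [coeff_add, coeff_C, coeff_sum]
  simp only [coeff_C_mul, coeff_X, if_true, Nat.succ_ne_zero, if_false, Nat.add_sub_cancel]
  by_cases h0 : d = 0
  · subst h0
    rw [if_pos rfl]
    have : ∑ x ∈ range (i + 1), coeff (Finsupp.single x 1) Q *
        (if Finsupp.single x 1 = (0 : ℕ →₀ ℕ) then (1 : ℝ) else 0) = 0 := by
      refine Finset.sum_eq_zero fun x _ => ?_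
      rw [if_neg (by simp), mul_zero]
    rw [this, add_zero]
  · rw [if_neg (fun h => h0 h.symm), zero_add]
    by_cases hd : coeff d Q = 0
    · rw [hd]
      symm
      refine Finset.sum_eq_zero fun x _ => ?_
      split_ifs with h
      · rw [h, hd, zero_mul]
      · rw [mul_zero]
    · have hs : d ∈ Q.support := mem_support_iff.2 hd
      have hdeg : d.degree ≤ Q.totalDegree := le_totalDegree hs
      have hd1 : d.degree = 1 := by
        have h3 : d.degree ≠ 0 := fun h => h0 ((Finsupp.degree_eq_zero_iff d).1 h)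
        have h4 := h.1
        omega
      obtain ⟨x, hx⟩ : ∃ x, d = Finsupp.single x 1 := (Finsupp.sum_eq_one_iff d).mp hd1
      have hxi : x ∈ range (i + 1) := by
        refine h.2 ?_
        rw [mem_vars_iff_mem_support]
        exact ⟨d, hs, by rw [hx]; simp⟩
      rw [Finset.sum_eq_single x]
      · rw [if_pos hx.symm, mul_one, hx]
      · intro y _ hy
        rw [if_neg, mul_zero]
        intro h
        rw [hx] at h
        exact hy (Finsupp.single_left_injective one_ne_zero h)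
      · intro h
        exact absurd hxi h

/-! ### Affine labels -/

/-- Affine labels of `c i`, closed at the window `w`, with precision `2 ^ (-P)`. -/
def afs (c : ℕ → Fin m) (i w P : ℕ) : Stat m := fun _ F A => Afl F c i w P A

theorem afl_her (c : ℕ → Fin m) (i w P J : ℕ) (F : Fam m J) : Hered (Afl F c i w P) := by
  rintro A B hB ⟨V, z, z', Q, h1, h2, h3⟩
  exact ⟨V, z, z', Q, h1, fun ω hω => h2 ω (hB ω hω), fun ω hω => h3 ω (hB ω hω)⟩

theorem afl_anti {c : ℕ → Fin m} {i w P P' J : ℕ} {F : Fam m J} {A : F.Ω → Prop} (hP : P' ≤ P)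
    (h : Afl F c i w P A) : Afl F c i w P' A := by
  obtain ⟨V, z, z', Q, h1, h2, h3⟩ := h
  exact ⟨V, z, z', Q, h1, h2, fun ω hω => (h3 ω hω).trans (inv_mono hP)⟩

/-- Shorter windows. -/
theorem afl_win {c : ℕ → Fin m} {i w w' P J : ℕ} {F : Fam m J} {A : F.Ω → Prop} (hw : w ≤ w')
    (hJ : w' ≤ J) (h : Afl F c i w P A) : Afl F c i w' P A := by
  obtain ⟨V, z, z', Q, h1, h2, h3⟩ := h
  refine ⟨V, z, fun s => z' (s.1, s.2.1, s.2.2 / 2 ^ (w' - w)), Q, h1, fun ω hω => ?_, h3⟩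
  rw [h2 ω hω]
  have e : F.T1 w ω = F.T1 w' ω / 2 ^ (w' - w) := by
    have h4 := Pool.KSAT.T1_div F (w := w) (K := w' - w) (by omega) ω
    have h5 : w + (w' - w) = w' := by omega
    rwa [h5] at h4
  show z' (F.l ω, F.Z ω, F.T1 w ω) = z' (F.l ω, F.Z ω, F.T1 w' ω / 2 ^ (w' - w))
  rw [e]

/-- **The trivial labels**: constants, with the precision of the window. -/
theorem afl_tri {F : Fam m J} (A : F.Ω → Prop) (c : ℕ → Fin m) (i : ℕ) {w k : ℕ} (hw : w ≤ J)
    (hk : k + 2 ≤ w) : ∃ B : F.Ω → Prop, Sub B A ∧ Pe F.p A ≤ 2 * Pe F.p B ∧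
      Afl F c i w k B := by
  have pk : (0 : ℝ) < 2 ^ k := by positivity
  have hpx : ∀ ω : F.Ω, |px c (ptr F J ω) (i + 1) - F.x ω (c i)| ≤ 1 / 2 ^ J := by
    intro ω
    have hr0 : (0 : ℝ) < 2 ^ J := by positivity
    have a1 := Int.floor_le ((2 : ℝ) ^ J * F.x ω (c i))
    have a2 := Int.lt_floor_add_one ((2 : ℝ) ^ J * F.x ω (c i))
    have e1 : px c (ptr F J ω) (i + 1) = ((⌊(2 : ℝ) ^ J * F.x ω (c i)⌋ : ℤ) : ℝ) / 2 ^ J := rfl
    have e2 : ((⌊(2 : ℝ) ^ J * F.x ω (c i)⌋ : ℤ) : ℝ) / 2 ^ J - F.x ω (c i) =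
        (((⌊(2 : ℝ) ^ J * F.x ω (c i)⌋ : ℤ) : ℝ) - 2 ^ J * F.x ω (c i)) / 2 ^ J := by
      field_simp
    rw [e1, e2, abs_div, abs_of_pos hr0]
    refine div_le_div_of_nonneg_right ?_ hr0.le
    rw [abs_le]
    constructor <;> linarith
  have hst : ∀ ω : F.Ω, |F.x ω (c i) - (F.u ω (c i) + (F.T1 w ω : ℝ) / 2 ^ w * F.d ω (c i))| ≤
      1 / 2 ^ w := by
    intro ω
    have e1 : F.x ω (c i) - (F.u ω (c i) + (F.T1 w ω : ℝ) / 2 ^ w * F.d ω (c i)) =
        (F.t ω - (F.T1 w ω : ℝ) / 2 ^ w) * F.d ω (c i) := by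
      show F.u ω (c i) + F.t ω * F.d ω (c i) - _ = _
      ring
    rw [e1, abs_mul]
    have h3 : |F.t ω - (F.T1 w ω : ℝ) / 2 ^ w| * |F.d ω (c i)| ≤ 1 / 2 ^ w * 1 :=
      mul_le_mul (Pool.STAT.CLO.t_cell F hw ω) (F.dir ω (c i)) (abs_nonneg _) (by positivity)
    linarith
  obtain ⟨j, hj, hB⟩ := Pool.PM26.rnd_ev F.isLaw.nonneg one_pos A
    (fun ω (_ : Fin 1) => 2 ^ k * px c (ptr F J ω) (i + 1))
    (fun ω (_ : Fin 1) => 2 ^ k * (F.u ω (c i) + (F.T1 w ω : ℝ) / 2 ^ w * F.d ω (c i))) (by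
      intro ω _ _
      rw [← mul_sub, abs_mul, abs_of_pos pk]
      have h1 := hpx ω
      have h2 := hst ω
      have h3 : |px c (ptr F J ω) (i + 1) -
          (F.u ω (c i) + (F.T1 w ω : ℝ) / 2 ^ w * F.d ω (c i))| ≤ 1 / 2 ^ J + 1 / 2 ^ w := by
        have e1 : px c (ptr F J ω) (i + 1) -
          (F.u ω (c i) + (F.T1 w ω : ℝ) / 2 ^ w * F.d ω (c i)) =
          (px c (ptr F J ω) (i + 1) - F.x ω (c i)) + (F.x ω (c i) -
          (F.u ω (c i) + (F.T1 w ω : ℝ) / 2 ^ w * F.d ω (c i))) := by ring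
        rw [e1]
        exact (abs_add_le _ _).trans (add_le_add h1 h2)
      have h4 : (1 : ℝ) / 2 ^ J ≤ 1 / 2 ^ w := inv_mono hw
      have h5 : (1 : ℝ) / 2 ^ w ≤ 1 / 2 ^ (k + 2) := inv_mono hk
      have h6 : (2 : ℝ) ^ k * (1 / 2 ^ (k + 2) + 1 / 2 ^ (k + 2)) = 1 / 2 := by
        rw [pow_add]
        field_simp
        norm_num
      have h7 : ((2 * 1 : ℕ) : ℝ) = 2 := by norm_num
      rw [h7, ← h6]
      exact mul_le_mul_of_nonneg_left (by linarith) pk.le)
  refine ⟨_, fun ω hω => hω.1, hB, ℤ, fun ξ => Pool.PM26.rsh (2 * 1) j (2 ^ k * px c ξ (i + 1)),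
    fun s => Pool.PM26.rsh (2 * 1) j (2 ^ k * (s.1.1 (c i) + (s.2.2 : ℝ) / 2 ^ w * s.1.2 (c i))),
    fun v => C ((v : ℝ) / 2 ^ k), fun v => IsAf.const i _, fun ω hω => hω.2 0, fun ω _ => ?_⟩
  rw [eval_C]
  have h1 := Pool.PM26.rsh_near hj (2 ^ k * px c (ptr F J ω) (i + 1))
  have e1 : px c (ptr F J ω) (i + 1) -
      (Pool.PM26.rsh (2 * 1) j (2 ^ k * px c (ptr F J ω) (i + 1)) : ℝ) / 2 ^ k =
      -((Pool.PM26.rsh (2 * 1) j (2 ^ k * px c (ptr F J ω) (i + 1)) : ℝ) -
        2 ^ k * px c (ptr F J ω) (i + 1)) / 2 ^ k := by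
    field_simp
    ring
  rw [e1, abs_div, abs_neg, abs_of_pos pk]
  exact div_le_div_of_nonneg_right h1 pk.le

/-! ### Thresholds -/

/-- **The thresholds of the affine labels** of the coordinate `c i` in the class `S`. -/
structure AflOf (S : PCl m) (c : ℕ → Fin m) (i : ℕ) (p : ℝ → ℝ) : Prop where
  mono : Monotone p
  low : ∀ w, 0 ≤ p w
  low' : ∀ w, 0 ≤ w → w ≤ 1 → w ≤ p w
  up : ∀ w, p w ≤ 1
  att : ∀ w h : ℝ, 0 < w → w ≤ 1 → 0 < h → h < p w →
    Bas S (fun J F A => Afl F c i ⌊w * J⌋₊ ⌊(p w - h) * J⌋₊ A)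
  no : ∀ w w' h : ℝ, 0 ≤ w → w < w' → w' ≤ 1 → 0 < h → p w' + h ≤ 1 →
    Bas S (fun J F A => ¬ Afl F c i ⌊w * J⌋₊ ⌊(p w' + h) * J⌋₊ A)

theorem AflOf.sub {S S' : PCl m} {c : ℕ → Fin m} {i : ℕ} {p : ℝ → ℝ} (h : AflOf S c i p)
    (hs : ∀ (τ : ℝ) (J : ℕ) (F : Fam m J) (A : F.Ω → Prop), S'.St τ J F A → S.St τ J F A) :
    AflOf S' c i p :=
  ⟨h.mono, h.low, h.low', h.up, fun w h' h1 h2 h3 h4 => (h.att w h' h1 h2 h3 h4).sub hs,
    fun w w' h' h1 h2 h3 h4 h5 => (h.no w w' h' h1 h2 h3 h4 h5).sub hs⟩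

/-- The threshold is continuous at all but countably many windows. -/
theorem AflOf.countable {S : PCl m} {c : ℕ → Fin m} {i : ℕ} {p : ℝ → ℝ} (h : AflOf S c i p) :
    {w | ¬ ContinuousAt p w}.Countable := h.mono.countable_not_continuousAt

/-- The threshold property. -/
noncomputable def afq (c : ℕ → Fin m) (i : ℕ) (w : ℝ) : Thr m where
  Q s J F A := s ≤ 0 ∨ Afl F c i ⌊w * J⌋₊ ⌊s * J⌋₊ A
  her := by
    rintro s J F A B hB (h | h)
    · exact Or.inl h
    · exact Or.inr (afl_her _ _ _ _ J F A B hB h)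
  anti := by
    rintro s s' J F A hs (h | h)
    · exact Or.inl (hs.trans h)
    · exact Or.inr (afl_anti (Nat.floor_le_floor
        (mul_le_mul_of_nonneg_right hs (Nat.cast_nonneg J))) h)
  triv := Or.inl

/-- **The thresholds exist** in a subclass. -/
theorem afl_thr {S : PCl m} (hS : S.Ne) (c : ℕ → Fin m) (i : ℕ) :
    ∃ (S' : PCl m) (p : ℝ → ℝ), S'.Ne ∧
      (∀ (τ : ℝ) (J : ℕ) (F : Fam m J) (A : F.Ω → Prop), S'.St τ J F A → S.St τ J F A) ∧
      AflOf S' c i p := by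
  classical
  obtain ⟨f, hf⟩ := exists_surjective_nat ℚ
  obtain ⟨s, S', h01, hsub, hne, hatt, hno, -⟩ := ext S hS (fun n => afq c i (f n : ℝ))
  obtain ⟨g, hg⟩ : ∃ g : ℚ → ℕ, ∀ a, f (g a) = a :=
    ⟨Function.surjInv hf, Function.surjInv_eq hf⟩
  obtain ⟨th, hth⟩ : ∃ th : ℚ → ℝ, th = fun w => s (g w) := ⟨_, rfl⟩
  have th0 : ∀ w, 0 ≤ th w := fun w => by rw [hth]; exact (h01 _).1
  have th1 : ∀ w, th w ≤ 1 := fun w => by rw [hth]; exact (h01 _).2
  have att : ∀ (w : ℚ), ∀ τ > 0, Bas S' ((afq c i w).Q (th w - τ)) := by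
    intro w τ hτ
    have hg0 : (0 : ℝ) < (g w : ℝ) + 1 := by positivity
    refine ⟨min τ (1 / ((g w : ℝ) + 1)), lt_min hτ (by positivity), 0, fun J _ F A hA => ?_⟩
    have h2 := hatt (g w) (min τ (1 / ((g w : ℝ) + 1))) J F A (by
      calc _ ≤ ((g w : ℝ) + 1) * (1 / ((g w : ℝ) + 1)) :=
            mul_le_mul_of_nonneg_left (min_le_right _ _) hg0.le
        _ = 1 := by field_simp) hA
    have e := hg w
    rw [hth]
    simp only [e] at h2
    exact (afq c i w).anti (by linarith only [min_le_left τ (1 / ((g w : ℝ) + 1))]) h2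
  have no : ∀ (w : ℚ), ∀ h : ℝ, th w < h → h ≤ 1 → ∃ ψ > 0, Clp S' ((afq c i w).No h ψ) := by
    intro w h h1 h2
    rw [hth] at h1
    have h3 := hno (g w) h h1 h2
    have e := hg w
    simp only [e] at h3
    exact h3
  have cmp : ∀ w w' : ℚ, w ≤ w' → w' ≤ 1 → th w ≤ th w' := by
    intro w w' hw hw1
    by_contra hcon
    push Not at hcon
    have h1 : (th w + th w') / 2 ≤ th w' := by
      refine le_of_att hne (no w') (by linarith only [hcon, th1 w]) fun δ hδ => ?_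
      refine Clp.mono (J₂ := 0) (att w ((th w - th w') / 2) (by linarith only [hcon])).clp ?_
      intro J _ F A hQ
      refine ⟨A, fun _ h => h, ?_, ?_⟩
      · have : Real.exp (-(δ * J)) ≤ 1 := by
          rw [Real.exp_le_one_iff]
          have : 0 ≤ δ * (J : ℝ) := by positivity
          linarith
        calc _ ≤ 1 * Pe F.p A := mul_le_mul_of_nonneg_right this (Pe_nonneg F.isLaw A)
          _ = _ := one_mul _
      have e : th w - (th w - th w') / 2 = (th w + th w') / 2 := by ring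
      rw [e] at hQ
      rcases hQ with hQ | hQ
      · exact Or.inl hQ
      · have hJ0 : (0 : ℝ) ≤ J := Nat.cast_nonneg J
        exact Or.inr (afl_win
          (Nat.floor_le_floor (mul_le_mul_of_nonneg_right (by exact_mod_cast hw) hJ0))
          (Nat.floor_le_of_le (by
            have : (w' : ℝ) ≤ 1 := by exact_mod_cast hw1
            nlinarith)) hQ)
    linarith only [hcon, h1]
  have tri : ∀ w : ℚ, 0 ≤ w → w ≤ 1 → (w : ℝ) ≤ th w := by
    intro w hw0 hw1
    have hw0' : (0 : ℝ) ≤ w := by exact_mod_cast hw0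
    have hw1' : (w : ℝ) ≤ 1 := by exact_mod_cast hw1
    refine le_of_forall_sub_le fun τ hτ => ?_
    refine le_of_att hne (no w) (by linarith) fun δ hδ => ?_
    obtain ⟨J₁, hJ₁⟩ := exists_nat_ge (3 / τ)
    obtain ⟨J₂, hJ₂⟩ := exists_nat_ge (1 / δ)
    refine (Bas.clp ⟨1, one_pos, max J₁ J₂, fun J hJ F A _ => ?_⟩)
    have hJ0 : (0 : ℝ) ≤ J := Nat.cast_nonneg J
    have j1 : (3 : ℝ) / τ ≤ J := hJ₁.trans (by exact_mod_cast (le_max_left _ _).trans hJ)
    have j2 : (1 : ℝ) / δ ≤ J := hJ₂.trans (by exact_mod_cast (le_max_right _ _).trans hJ)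
    rw [div_le_iff₀ hτ] at j1
    rw [div_le_iff₀ hδ] at j2
    rcases le_or_gt ((w : ℝ) - τ) 0 with h0 | h0
    · refine ⟨A, fun _ h => h, ?_, Or.inl h0⟩
      have : Real.exp (-(δ * J)) ≤ 1 := by
        rw [Real.exp_le_one_iff]
        have : 0 ≤ δ * (J : ℝ) := by positivity
        linarith
      calc _ ≤ 1 * Pe F.p A := mul_le_mul_of_nonneg_right this (Pe_nonneg F.isLaw A)
        _ = _ := one_mul _
    · have h1 : ⌊((w : ℝ) - τ) * J⌋₊ + 2 ≤ ⌊(w : ℝ) * J⌋₊ := by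
        refine Nat.le_floor ?_
        push_cast
        have h2 := Nat.floor_le (mul_nonneg h0.le hJ0)
        linarith
      obtain ⟨B, hB, hP, hL⟩ := afl_tri A c i (Nat.floor_le_of_le (by nlinarith)) h1
      refine ⟨B, hB, ?_, Or.inr hL⟩
      have h3 : Real.exp (-(δ * J)) ≤ 1 / 2 := by
        have h4 : (2 : ℝ) ≤ Real.exp (δ * J) := by
          have := Real.add_one_le_exp (δ * J)
          linarith
        rw [Real.exp_neg, inv_eq_one_div]
        exact one_div_le_one_div_of_le (by norm_num) h4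
      calc Real.exp (-(δ * J)) * Pe F.p A ≤ 1 / 2 * Pe F.p A :=
            mul_le_mul_of_nonneg_right h3 (Pe_nonneg F.isLaw A)
        _ ≤ Pe F.p B := by linarith
  -- the extension to the real windows
  obtain ⟨st, hst⟩ : ∃ st : ℝ → Set ℝ, st = fun w => {y | y = 0 ∨ ∃ q : ℚ, (q : ℝ) ≤ w ∧ q ≤ 1 ∧
    0 ≤ q ∧ y = th q} := ⟨_, rfl⟩
  have hbd : ∀ w, BddAbove (st w) := by
    intro w
    refine ⟨1, ?_⟩
    rw [hst]
    rintro y (rfl | ⟨q, -, -, -, rfl⟩)
    · exact zero_le_one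
    · exact th1 q
  have h0 : ∀ w, (0 : ℝ) ∈ st w := by
    intro w
    rw [hst]
    exact Or.inl rfl
  refine ⟨S', fun w => sSup (st w), hne, hsub, ?_, fun w => le_csSup (hbd w) (h0 w), ?_,
    fun w => csSup_le ⟨0, h0 w⟩ ?_, ?_, ?_⟩
  · intro w w' hw
    refine csSup_le_csSup (hbd w') ⟨0, h0 w⟩ ?_
    rw [hst]
    rintro y (rfl | ⟨q, h1, h2, h3, rfl⟩)
    · exact Or.inl rfl
    · exact Or.inr ⟨q, h1.trans hw, h2, h3, rfl⟩
  · intro w hw0 hw1
    rcases hw0.eq_or_lt with rfl | hw0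
    · exact le_csSup (hbd _) (h0 _)
    · refine le_of_forall_sub_le fun ε hε => ?_
      obtain ⟨q, hq1, hq2⟩ := exists_rat_btwn (show max 0 (w - ε) < w from
        max_lt hw0 (by linarith))
      have hq0 : (0 : ℚ) ≤ q := by
        have : (0 : ℝ) ≤ q := (le_max_left _ _).trans hq1.le
        exact_mod_cast this
      have hq11 : q ≤ 1 := by
        have : (q : ℝ) ≤ 1 := hq2.le.trans hw1
        exact_mod_cast this
      refine le_trans (b := th q) ?_ (le_csSup (hbd w) ?_)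
      · exact ((le_max_right _ _).trans hq1.le).trans (tri q hq0 hq11)
      · rw [hst]
        exact Or.inr ⟨q, hq2.le, hq11, hq0, rfl⟩
  · rw [hst]
    rintro y (rfl | ⟨q, -, -, -, rfl⟩)
    · exact zero_le_one
    · exact th1 q
  · intro w h hw hw1 hh hhp
    obtain ⟨y, hy, hlt⟩ := exists_lt_of_lt_csSup ⟨0, h0 w⟩
      (show sSup (st w) - h / 2 < sSup (st w) by linarith)
    rw [hst] at hy
    rcases hy with rfl | ⟨q, h1, h2, h3, rfl⟩
    · exfalso
      linarith
    refine (att q (h / 2) (by linarith)).mono 0 ?_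
    rintro J - F A (hQ | hQ)
    · exfalso
      linarith
    · have hJ0 : (0 : ℝ) ≤ J := Nat.cast_nonneg J
      exact afl_anti (Nat.floor_le_floor (mul_le_mul_of_nonneg_right (by linarith) hJ0))
        (afl_win (Nat.floor_le_floor (mul_le_mul_of_nonneg_right h1 hJ0))
          (Nat.floor_le_of_le (by nlinarith)) hQ)
  · intro w w' h hw hww hw1 hh hp1
    obtain ⟨q, hq1, hq2⟩ := exists_rat_btwn hww
    have hq0 : (0 : ℚ) ≤ q := by
      have : (0 : ℝ) ≤ q := hw.trans hq1.le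
      exact_mod_cast this
    have hq11 : q ≤ 1 := by
      have : (q : ℝ) ≤ 1 := hq2.le.trans hw1
      exact_mod_cast this
    have hle : th q ≤ sSup (st w') := by
      refine le_csSup (hbd w') ?_
      rw [hst]
      exact Or.inr ⟨q, hq2.le, hq11, hq0, rfl⟩
    obtain ⟨ψ, hψ, hc⟩ := no q (sSup (st w') + h) (by linarith) hp1
    have hc' : Clp S' (fun J F A => ¬ Afl F c i ⌊(q : ℝ) * J⌋₊ ⌊(sSup (st w') + h) * J⌋₊ A) := by
      refine Clp.mono (J₂ := 0) hc ?_
      intro J _ F A h1 h2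
      refine h1 A (fun _ h => h) ?_ (Or.inr h2)
      have : Real.exp (-(ψ * J)) ≤ 1 := by
        rw [Real.exp_le_one_iff]
        have : 0 ≤ ψ * (J : ℝ) := by positivity
        linarith
      calc _ ≤ 1 * Pe F.p A := mul_le_mul_of_nonneg_right this (Pe_nonneg F.isLaw A)
        _ = _ := one_mul _
    refine (Bas.neg (S := S') (Q := fun J F A =>
      Afl F c i ⌊(q : ℝ) * J⌋₊ ⌊(sSup (st w') + h) * J⌋₊ A) (fun J F => afl_her _ _ _ _ J F)
      hc').mono 0 ?_
    intro J _ F A h1 h2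
    have hJ0 : (0 : ℝ) ≤ J := Nat.cast_nonneg J
    refine h1 (afl_win (Nat.floor_le_floor (mul_le_mul_of_nonneg_right hq1.le hJ0))
      (Nat.floor_le_of_le ?_) h2)
    have : (q : ℝ) ≤ 1 := by exact_mod_cast hq11
    nlinarith

/-- **No affine label above the threshold**, at a window at which the threshold is continuous. -/
theorem AflOf.non {S : PCl m} {c : ℕ → Fin m} {i : ℕ} {p : ℝ → ℝ} (h : AflOf S c i p) {w : ℝ}
    (hc : ContinuousAt p w) (hw0 : 0 ≤ w) (hw1 : w < 1) (h₀ : ℝ) (hh : 0 < h₀) :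
    Bas S (fun J F A => ∀ P : ℕ, (p w + h₀) * J ≤ P → P ≤ J → ¬ Afl F c i ⌊w * J⌋₊ P A) := by
  rcases le_or_gt (p w + h₀) 1 with h1 | h1
  · obtain ⟨w', hw', hw'1, hpw⟩ : ∃ w', w < w' ∧ w' ≤ 1 ∧ p w' ≤ p w + h₀ / 2 := by
      obtain ⟨δ, hδ, hd⟩ := Metric.continuousAt_iff.1 hc (h₀ / 2) (by linarith)
      refine ⟨min 1 (w + δ / 2), lt_min hw1 (by linarith), min_le_left _ _, ?_⟩
      have h2 := hd (x := min 1 (w + δ / 2)) (by
        rw [Real.dist_eq, abs_lt]
        have h3 := min_le_right 1 (w + δ / 2)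
        have h4 : w < min 1 (w + δ / 2) := lt_min hw1 (by linarith)
        constructor <;> linarith)
      rw [Real.dist_eq, abs_lt] at h2
      linarith [h2.2]
    refine (h.no w w' (h₀ / 2) hw0 hw' hw'1 (by linarith) (by linarith)).mono 0 ?_
    intro J _ F A h2 P hP _ h3
    refine h2 (afl_anti (Nat.floor_le_of_le ?_) h3)
    refine le_trans ?_ hP
    exact mul_le_mul_of_nonneg_right (by linarith) (Nat.cast_nonneg J)
  · refine ⟨1, one_pos, 1, fun J hJ F A _ P hP hPJ _ => ?_⟩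
    have h2 : (P : ℝ) ≤ J := by exact_mod_cast hPJ
    have h3 : (1 : ℝ) ≤ J := by exact_mod_cast hJ
    nlinarith

end Pool.PM93
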