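import Pool.Agent.H96.R1.End

/-!
# The labels of the last coordinate over the coordinates which are not full

`lb_of_lbr`: a stable closed label of precision `Q` is, on a large event, a label with gradients at
most `2 ^ (e J)` on the balls of radius `2 ^ (-J)`, if `1 - Q < e`. `lab_ext`: if in no subclass the
stable labels of all precisions `Q < 1` are absent, then in a subclass all members have the labels
of precision `1 - e` with gradients `2 ^ (e J)`, for all `e`.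
`row_base`: the last rows are not full, so they are not full over the coordinates before the first
one with the number `1`: the stable labels over these coordinates are not absent.
`lab_lst`: the labels of the last coordinate over these coordinates.
-/

set_option autoImplicit false

namespace Pool.PM93

open Finset Real MvPolynomial
open Pool.Agent.H49.Ent Pool.Agent.H32.Dense Pool.STK Pool.KA Pool.KSAT Pool.K2S Pool.PB Pool.S6C
open Pool.GEN
open Pool.ONE (lst)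
open Pool.TOP (LbR LbROK RW rowH ub row_rate)
open Pool.PKG Pool.R1 Pool.GRW

section gen

variable {m : ℕ}

theorem lbr_hered {J : ℕ} (R : ℝ) (F : Fam m J) (I : Finset (Fin m)) (k : Fin m) (K w P : ℕ) :
    Hered (LbR R F I k K w P) := by
  rintro A B hB ⟨V, z, z', G, h⟩
  exact ⟨V, z, z', G, h.deg, h.dep, fun ω hω => h.cls ω (hB ω hω),
    fun ω hω => h.pos ω (hB ω hω)⟩

/-- **Stable labels are labels with small gradients**, on a large event. -/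
theorem lb_of_lbr {S : PCl m} {C₀ : ℝ} (hC₀ : 0 ≤ C₀) (htm : TmC S C₀) {w : ℝ} (hw0 : 0 ≤ w)
    (hw : w < 1) (I : Finset (Fin m)) (k : Fin m) (K : ℕ) {e h Q : ℝ} (hQe : 1 - Q < e)
    (hh0 : 0 ≤ h) (hhQ : h < Q) (hQ1 : Q ≤ 1) :
    Bas S (fun J F A => LbR 2 F I k K ⌊w * J⌋₊ ⌊Q * J⌋₊ A → ∃ B : F.Ω → Prop, Sub B A ∧
      1 / 2 * Pe F.p A ≤ Pe F.p B ∧
        Lb F I k K ⌊e * J⌋₊ J ⌊w * J⌋₊ ⌊1 * (J : ℝ)⌋₊ ⌊h * J⌋₊ B) := by
  obtain ⟨Cv, hCv, hvel⟩ := Pool.GRD.vel_one m K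
  obtain ⟨Cm, hCm, hmk⟩ := Pool.GRD.dir_markov (m := m) K
  have hl2 : 0 < Real.log 2 := Real.log_pos one_lt_two
  have hl2' : 1 / 2 ≤ Real.log 2 := by
    have := Real.log_two_gt_d9
    linarith
  have hCv0 : 0 < Cv := by linarith
  obtain ⟨δ', hδ'⟩ : ∃ δ' : ℝ, δ' = min ((Q - h) / 4) ((1 - w) * Real.log 2) := ⟨_, rfl⟩
  have hδ'0 : 0 < δ' := by
    rw [hδ']
    exact lt_min (by linarith) (mul_pos (by linarith) hl2)
  have hd1 : δ' ≤ (Q - h) / 4 := by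
    rw [hδ']
    exact min_le_left _ _
  have hd2 : δ' ≤ (1 - w) * Real.log 2 := by
    rw [hδ']
    exact min_le_right _ _
  obtain ⟨τ, hτ⟩ : ∃ τ : ℝ, τ = δ' / (2 * Cv * (C₀ + 1)) := ⟨_, rfl⟩
  have hτ0 : 0 < τ := by
    rw [hτ]
    positivity
  have hτ1 : Cv * (C₀ * τ) ≤ δ' / 2 := by
    have e1 : Cv * ((C₀ + 1) * τ) = δ' / 2 := by
      rw [hτ]
      field_simp
    rw [← e1]
    refine mul_le_mul_of_nonneg_left (mul_le_mul_of_nonneg_right (by linarith) hτ0.le) hCv0.le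
  obtain ⟨J₁, hJ₁⟩ := exists_nat_ge (Cv / (δ' / 2))
  obtain ⟨J₂, hJ₂⟩ := exists_nat_ge (4 / (Q - h))
  obtain ⟨J₃, hJ₃⟩ := exists_nat_ge ((3 + Real.log Cm / Real.log 2) / (e - (1 - Q)))
  refine ⟨τ, hτ0, J₁ + J₂ + J₃, ?_⟩
  rintro J hJ F A hA ⟨V, z, z', G, hG⟩
  have hJ0 : (0 : ℝ) ≤ J := Nat.cast_nonneg J
  have hJ' : (J₁ : ℝ) + J₂ + J₃ ≤ J := by exact_mod_cast hJ
  have n1 : (0 : ℝ) ≤ J₁ := Nat.cast_nonneg _
  have n2 : (0 : ℝ) ≤ J₂ := Nat.cast_nonneg _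
  have n3 : (0 : ℝ) ≤ J₃ := Nat.cast_nonneg _
  have k1 : Cv ≤ δ' / 2 * J := by
    have e1 : Cv / (δ' / 2) ≤ J := by linarith
    rw [div_le_iff₀ (by positivity)] at e1
    linarith
  have k2 : 4 ≤ (Q - h) * J := by
    have e1 : 4 / (Q - h) ≤ J := by linarith
    rw [div_le_iff₀ (by linarith)] at e1
    linarith
  have k3 : 3 + Real.log Cm / Real.log 2 ≤ (e - (1 - Q)) * J := by
    have e1 : (3 + Real.log Cm / Real.log 2) / (e - (1 - Q)) ≤ J := by linarith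
    rw [div_le_iff₀ (by linarith)] at e1
    linarith
  have hpA := Pool.TOP.tmc_pos htm hτ0 hA
  have hTm := Pool.TOP.tmc_sub htm hτ0 hA hpA
  have h1 : Cv * (C₀ * τ * J + 1) ≤ δ' * J := by
    have e1 := mul_le_mul_of_nonneg_right hτ1 hJ0
    have e2 : Cv * (C₀ * τ * J + 1) = Cv * (C₀ * τ) * J + Cv := by ring
    rw [e2]
    linarith
  have hwJ : ⌊w * (J : ℝ)⌋₊ ≤ J := fl_le hw.le J
  have hwf : ((⌊w * (J : ℝ)⌋₊ : ℕ) : ℝ) ≤ w * J := Nat.floor_le (by positivity)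
  have h2 : Cv * (C₀ * τ * J + 1) ≤ ((J : ℝ) - (⌊w * (J : ℝ)⌋₊ : ℕ)) * Real.log 2 := by
    refine h1.trans ?_
    calc δ' * J ≤ (1 - w) * Real.log 2 * J := mul_le_mul_of_nonneg_right hd2 hJ0
      _ = (J - w * J) * Real.log 2 := by ring
      _ ≤ _ := mul_le_mul_of_nonneg_right (by linarith) hl2.le
  have hself : ∀ ω, A ω → |F.x ω k - eval (bt F ω) (G (z' (slam F ⌊w * (J : ℝ)⌋₊ ω)))| ≤
      1 / 2 ^ ⌊Q * (J : ℝ)⌋₊ := fun ω hω => hG.pos ω hω (bt F ω) fun o => by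
    rw [sub_self, abs_zero]
    positivity
  obtain ⟨B, hBA, hPB, hB⟩ := hvel J F A hpA ⌊w * (J : ℝ)⌋₊ (fun s => G (z' s)) k
    (1 / 2 ^ ⌊Q * (J : ℝ)⌋₊) (C₀ * τ * J) hwJ (fun s => hG.deg _) (by positivity)
    (by positivity) hTm h2 hself
  have f1 := Nat.lt_floor_add_one (Q * (J : ℝ))
  have f2 := Nat.floor_le (show 0 ≤ h * (J : ℝ) by positivity)
  have hle : ⌊h * (J : ℝ)⌋₊ ≤ ⌊Q * (J : ℝ)⌋₊ :=
    Nat.floor_le_floor (mul_le_mul_of_nonneg_right hhQ.le hJ0)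
  refine ⟨B, hBA, by linarith, V, z, z', G, hG.deg, hG.dep, fun ω hω => hG.cls ω (hBA ω hω),
    fun ω hω => (hself ω (hBA ω hω)).trans (inv_mono hle), fun ω hω => (hB ω hω).trans ?_,
    fun ω hω b hb o => ?_⟩
  · -- the velocity
    have g1 : Real.exp (Cv * (C₀ * τ * J + 1)) * (1 / 2 ^ ⌊Q * (J : ℝ)⌋₊) ≤
        1 / 2 ^ ⌊h * (J : ℝ)⌋₊ := by
      rw [mul_one_div, div_le_div_iff₀ (by positivity) (by positivity), one_mul,
        Pool.TOP.two_pow_exp, Pool.TOP.two_pow_exp, ← Real.exp_add]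
      refine Real.exp_le_exp.2 ?_
      have e1 : δ' * J ≤ (Q - h) / 4 * J := mul_le_mul_of_nonneg_right hd1 hJ0
      have e2 : (Q - h) / 4 * (J : ℝ) + 1 / 2 * (⌊h * (J : ℝ)⌋₊ : ℝ) ≤
          1 / 2 * (⌊Q * (J : ℝ)⌋₊ : ℝ) := by linarith
      have e3 : ((⌊Q * (J : ℝ)⌋₊ : ℝ) - (⌊h * (J : ℝ)⌋₊ : ℝ)) * (1 / 2) ≤
          ((⌊Q * (J : ℝ)⌋₊ : ℝ) - (⌊h * (J : ℝ)⌋₊ : ℝ)) * Real.log 2 := by
        refine mul_le_mul_of_nonneg_left hl2' ?_
        have : (⌊h * (J : ℝ)⌋₊ : ℝ) ≤ (⌊Q * (J : ℝ)⌋₊ : ℝ) := by exact_mod_cast hle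
        linarith
      linarith
    calc Real.exp (Cv * (C₀ * τ * J + 1)) * 2 ^ ⌊w * (J : ℝ)⌋₊ * (1 / 2 ^ ⌊Q * (J : ℝ)⌋₊) =
        2 ^ ⌊w * (J : ℝ)⌋₊ * (Real.exp (Cv * (C₀ * τ * J + 1)) * (1 / 2 ^ ⌊Q * (J : ℝ)⌋₊)) := by
          ring
      _ ≤ 2 ^ ⌊w * (J : ℝ)⌋₊ * (1 / 2 ^ ⌊h * (J : ℝ)⌋₊) :=
          mul_le_mul_of_nonneg_left g1 (by positivity)
      _ = _ := by rw [mul_one_div]
  · -- the gradient
    rw [one_mul, Nat.floor_natCast] at hb
    obtain ⟨v, hv⟩ : ∃ v, v = z' (slam F ⌊w * (J : ℝ)⌋₊ ω) := ⟨_, rfl⟩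
    rw [← hv]
    have g1 := hmk (G v - C (F.x ω k)) b o (1 / 2 ^ J) (1 / 2 ^ ⌊Q * (J : ℝ)⌋₊) (by
        refine (totalDegree_sub _ _).trans (max_le (hG.deg v) ?_)
        rw [totalDegree_C]
        exact Nat.zero_le _) (by positivity) (fun s hs => by
        rw [map_sub, eval_C, abs_sub_comm, hv]
        refine hG.pos ω (hBA ω hω) _ fun o' => ?_
        have p1 := hb o'
        have p2 : (2 : ℝ) / 2 ^ J = 1 / 2 ^ J + 1 / 2 ^ J := by ring
        by_cases ho : o' = o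
        · rw [ho, Function.update_self]
          rw [ho] at p1
          rw [abs_le] at p1 hs ⊢
          constructor <;> linarith [p1.1, p1.2, hs.1, hs.2]
        · rw [Function.update_of_ne ho]
          have : (0 : ℝ) < 1 / 2 ^ J := by positivity
          linarith)
    have g2 : pderiv o (G v - C (F.x ω k)) = pderiv o (G v) := by
      rw [map_sub, pderiv_C, sub_zero]
    rw [g2] at g1
    refine g1.trans ?_
    have g3 : Cm * (1 / 2 ^ ⌊Q * (J : ℝ)⌋₊) / (1 / 2 ^ J) = Cm * 2 ^ J / 2 ^ ⌊Q * (J : ℝ)⌋₊ := by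
      field_simp
    rw [g3, div_le_iff₀ (by positivity)]
    have hCm0 : 0 < Cm := by linarith
    have hlC : 0 ≤ Real.log Cm / Real.log 2 := div_nonneg (Real.log_nonneg hCm) hl2.le
    have g4 : Cm = Real.exp (Real.log Cm / Real.log 2 * Real.log 2) := by
      rw [div_mul_cancel₀ _ hl2.ne', Real.exp_log hCm0]
    have f3 := Nat.lt_floor_add_one (e * (J : ℝ))
    calc Cm * 2 ^ J = Real.exp (Real.log Cm / Real.log 2 * Real.log 2) *
          Real.exp (J * Real.log 2) := by rw [← g4, Pool.TOP.two_pow_exp]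
      _ = Real.exp ((Real.log Cm / Real.log 2 + J) * Real.log 2) := by
          rw [← Real.exp_add]
          ring_nf
      _ ≤ Real.exp (((⌊e * (J : ℝ)⌋₊ : ℝ) + (⌊Q * (J : ℝ)⌋₊ : ℝ)) * Real.log 2) := by
          refine Real.exp_le_exp.2 (mul_le_mul_of_nonneg_right ?_ hl2.le)
          linarith
      _ = 2 ^ ⌊e * (J : ℝ)⌋₊ * 2 ^ ⌊Q * (J : ℝ)⌋₊ := by
          rw [Pool.TOP.two_pow_exp, Pool.TOP.two_pow_exp, ← Real.exp_add]
          ring_nf

/-- **The labels of all small defects in one subclass**, at one window, on the balls of radius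
`2 ^ (-J)`. -/
theorem lab_ext {S : PCl m} (hS : S.Ne) {C₀ : ℝ} (hC₀ : 0 ≤ C₀) (htm : TmC S C₀) {w : ℝ}
    (hw0 : 0 ≤ w) (hw : w < 1) (I : Finset (Fin m)) (k : Fin m)
    (hno : ∀ S₁ : PCl m, S₁.Ne → (∀ (τ : ℝ) (J : ℕ) (F : Fam m J) (A : F.Ω → Prop),
      S₁.St τ J F A → S.St τ J F A) → ∀ Q : ℝ, w ≤ Q → Q < 1 →
      ¬ ∀ K : ℕ, Bas S₁ (fun J F A => ¬ LbR 2 F I k K ⌊w * J⌋₊ ⌊Q * J⌋₊ A)) :
    ∃ S' : PCl m, S'.Ne ∧ (∀ (τ : ℝ) (J : ℕ) (F : Fam m J) (A : F.Ω → Prop),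
      S'.St τ J F A → S.St τ J F A) ∧ ∀ e : ℝ, 0 < e → ∃ K : ℕ, Bas S' (fun J F A =>
        Lb F I k K ⌊e * J⌋₊ J ⌊w * J⌋₊ ⌊min (1 + e) 1 * J⌋₊ ⌊(1 - e) * J⌋₊ A) := by
  obtain ⟨s, S', h01, hsub, hne, hatt, habs, -⟩ := ext S hS
    (fun i => tqe m I k (Nat.unpair i).1 (1 / (((Nat.unpair i).2 : ℝ) + 1)) w 1)
  refine ⟨S', hne, hsub, ?_⟩
  -- small defects
  have key : ∀ e : ℝ, 0 < e → e ≤ 1 → ∃ K : ℕ, Bas S' (fun J F A =>
        Lb F I k K ⌊e * J⌋₊ J ⌊w * J⌋₊ ⌊min (1 + e) 1 * J⌋₊ ⌊(1 - e) * J⌋₊ A) := by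
    intro e he he1
    obtain ⟨l, hl⟩ := exists_nat_one_div_lt he
    obtain ⟨e', he'⟩ : ∃ e' : ℝ, e' = 1 / ((l : ℝ) + 1) := ⟨_, rfl⟩
    have he'0 : 0 < e' := by rw [he']; positivity
    have he'e : e' < e := by rw [he']; exact hl
    have hclaim : ∃ K, 1 - e / 2 ≤ s (Nat.pair K l) := by
      by_contra hcon
      push Not at hcon
      obtain ⟨h, hh⟩ : ∃ h : ℝ, h = 1 - e / 2 := ⟨_, rfl⟩
      obtain ⟨Q, hQ⟩ : ∃ Q : ℝ, Q = max w (max (1 - e' / 2) (1 - e / 4)) := ⟨_, rfl⟩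
      have q1 : w ≤ Q := by rw [hQ]; exact le_max_left _ _
      have q2 : 1 - e' / 2 ≤ Q := by
        rw [hQ]; exact (le_max_left _ _).trans (le_max_right _ _)
      have q3 : 1 - e / 4 ≤ Q := by
        rw [hQ]; exact (le_max_right _ _).trans (le_max_right _ _)
      have q4 : Q < 1 := by
        rw [hQ]; exact max_lt hw (max_lt (by linarith) (by linarith))
      obtain ⟨S'', hne'', hsub'', hor⟩ := Pool.TOP.dich_fin hne (ι := Unit)
        (fun _ K J F A => LbR 2 F I k K ⌊w * J⌋₊ ⌊Q * J⌋₊ A)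
        (fun _ K J F => lbr_hered 2 F I k K _ _)
      have hss : ∀ (τ : ℝ) (J : ℕ) (F : Fam m J) (A : F.Ω → Prop), S''.St τ J F A →
          S.St τ J F A := fun τ J F A h => hsub τ J F A (hsub'' τ J F A h)
      rcases hor () with h1 | ⟨K, h1⟩
      · exact hno S'' hne'' hss Q q1 q4 h1
      · have h2 := lb_of_lbr (S := S'') hC₀ (fun τ J F A hτ h => htm τ J F A hτ (hss τ J F A h)) hw0 hw I k K (e := e') (h := h)
          (Q := Q) (by linarith) (by rw [hh]; linarith) (by rw [hh]; linarith) q4.le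
        obtain ⟨ψ, hψ, h3⟩ := habs (Nat.pair K l) h (by rw [hh]; exact hcon K)
          (by rw [hh]; linarith)
        have h3' := Clp.le (S' := S'') (S := S')
          ⟨1, one_pos, fun _ _ _ _ _ _ h => hsub'' _ _ _ _ h⟩ h3
        obtain ⟨J₁, hJ₁⟩ := exists_nat_ge (1 / ψ)
        refine Clp.not_false hne'' (Clp.mono (J₂ := J₁) (h3'.and (h1.and h2).clp) ?_)
        rintro J hJ F A ⟨h4, h5, h6⟩
        obtain ⟨B, hBA, hPB, hB⟩ := h6 h5
        refine h4 B hBA (le_trans ?_ hPB) ?_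
        · refine mul_le_mul_of_nonneg_right ?_ (Pe_nonneg F.isLaw A)
          have h7 : 1 ≤ ψ * J := by
            have h8 : (J₁ : ℝ) ≤ J := by exact_mod_cast hJ
            have h9 := hJ₁.trans h8
            rw [div_le_iff₀ hψ] at h9
            linarith
          have h8 : Real.exp (-(ψ * J)) ≤ Real.exp (-1) := Real.exp_le_exp.2 (by linarith)
          have h9 := Real.exp_neg_one_lt_d9
          linarith
        · right
          rw [Nat.unpair_pair]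
          rw [he'] at hB
          exact hB
    obtain ⟨K, hK⟩ := hclaim
    obtain ⟨i, hi⟩ : ∃ i, i = Nat.pair K l := ⟨_, rfl⟩
    rw [← hi] at hK
    refine ⟨K, min (e / 4) (1 / ((i : ℝ) + 1)), lt_min (by linarith) (by positivity), 0,
      fun J _ F A hA => ?_⟩
    have hJ : (0 : ℝ) ≤ J := Nat.cast_nonneg J
    have hi0 : (0 : ℝ) < (i : ℝ) + 1 := by positivity
    have h2 := hatt i (min (e / 4) (1 / ((i : ℝ) + 1))) J F A (by
      calc _ ≤ ((i : ℝ) + 1) * (1 / ((i : ℝ) + 1)) :=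
            mul_le_mul_of_nonneg_left (min_le_right _ _) hi0.le
        _ = 1 := by field_simp) hA
    have h3 := min_le_left (e / 4) (1 / ((i : ℝ) + 1))
    rw [hi, Nat.unpair_pair, ← hi] at h2
    rcases h2 with h2 | h2
    · exfalso
      linarith
    · refine h2.mono (Finset.Subset.refl _) le_rfl ?_ le_rfl le_rfl (fl_le hw.le J) ?_ ?_
      · rw [← he']
        exact Nat.floor_le_floor (mul_le_mul_of_nonneg_right he'e.le hJ)
      · rw [min_eq_right (by linarith : (1 : ℝ) ≤ 1 + e)]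
      · exact Nat.floor_le_floor (mul_le_mul_of_nonneg_right (by linarith) hJ)
  intro e he
  rcases le_total e 1 with h1 | h1
  · exact key e he h1
  · obtain ⟨K, hK⟩ := key 1 one_pos le_rfl
    refine ⟨K, hK.mono 0 fun J _ F A h => ?_⟩
    have hJ : (0 : ℝ) ≤ J := Nat.cast_nonneg J
    refine h.mono (Finset.Subset.refl _) le_rfl ?_ le_rfl le_rfl (fl_le hw.le J) ?_ ?_
    · exact Nat.floor_le_floor (mul_le_mul_of_nonneg_right h1 hJ)
    · rw [min_eq_right (by linarith : (1 : ℝ) ≤ 1 + e), min_eq_right (by norm_num)]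
    · exact Nat.floor_le_floor (mul_le_mul_of_nonneg_right (by linarith) hJ)

end gen

section base

variable {n : ℕ}

/-- **The row over the base and the row over all other coordinates.** -/
theorem row_fam {J : ℕ} {F : Fam n J} {A : F.Ω → Prop} (hA : 0 < Pe F.p A) {N : Fin n} {k : ℕ}
    {ε : Fin (n - 1) → Fin n} (hcov : ∀ l, l ≠ N → ∃ i, ε i = l) {I : Finset (Fin n)}
    (hI : ∀ i : Fin (n - 1), (i : ℕ) < k → ε i ∈ I) {Kf : Fin (n - 1) → ℕ} {e w ρ P : ℕ}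
    (hlb : ∀ i : Fin (n - 1), k ≤ (i : ℕ) → Lb F I (ε i) (Kf i) e J w ρ P A) (hρ : ρ ≤ J)
    (hP : P ≤ J) {Q : ℕ} {E : ℝ}
    (hex : ∀ (V : Type) (z : PtT F → V) (z' : LnT F → V),
      (∀ ω, A ω → z (ptr F J ω) = z' (slam F w ω)) →
      E ≤ rowH F A N I Q (fun ω => z' (slam F w ω))) :
    E ≤ (n - 1 : ℕ) * (((J : ℝ) - P + e) * Real.log 2 + Real.log (2 * n + 9)) +
      rowH F A N (univ.erase N) Q (fun _ => ()) := by
  classical
  have hq := isLaw_cond F.isLaw hA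
  have h0 := hq.nonneg
  have hqA : ∀ ω, 0 < Pool.Agent.H49.Ent.cond F.p A True ω → A ω := fun ω hω =>
    of_eq_true ((cond_pos_iff F.isLaw.nonneg A True ω).1 hω).2
  have hlab : ∀ i : Fin (n - 1), ∃ (V : Type) (z : PtT F → V) (z' : LnT F → V),
      (∀ ω, A ω → z (ptr F J ω) = z' (slam F w ω)) ∧
      (k ≤ (i : ℕ) → ∃ G, LbOK F I (ε i) (Kf i) e J w ρ P A z z' G) := by
    intro i
    rcases Nat.lt_or_ge (i : ℕ) k with h | h
    · exact ⟨Unit, fun _ => (), fun _ => (), fun _ _ => rfl, fun h' => by omega⟩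
    · obtain ⟨V, z, z', G, hG⟩ := hlb i h
      exact ⟨V, z, z', hG.cls, fun _ => ⟨G, hG⟩⟩
  choose V z z' hz hG using hlab
  obtain ⟨Y, hY⟩ : ∃ Y : F.Ω → ℤ × ((Fin n → ℤ) × ((∀ i, V i) × (ℕ × F.ζ))), Y = fun ω =>
    (F.X Q ω N, (ub I (F.X J ω), ((fun i => z' i (slam F w ω)), F.W ω))) := ⟨_, rfl⟩
  have hE := hex (∀ i, V i) (fun y i => z i y) (fun s i => z' i s)
    (fun ω hω => funext fun i => hz i ω hω)
  have hE' : E ≤ CH (Pool.Agent.H49.Ent.cond F.p A True) (fun ω => F.X J ω N) Y := by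
    rw [hY]
    exact hE
  have h1 := CH_le_add h0 (fun ω => F.X J ω N) (fun ω (j : Fin (n - 1)) => F.X J ω (ε j)) Y
  have hlog : 0 ≤ Real.log (2 * (n : ℝ) + 9) := Real.log_nonneg (by
    have : (0 : ℝ) ≤ n := Nat.cast_nonneg n
    linarith)
  have hl2 : 0 < Real.log 2 := Real.log_pos one_lt_two
  have hPJ : (P : ℝ) ≤ J := by exact_mod_cast hP
  have h2 := Pool.EXW.chain_le hq (fun (j : Fin (n - 1)) ω => F.X J ω (ε j)) Y
    (fun _ => ((J : ℝ) - P + e) * Real.log 2 + Real.log (2 * n + 9)) (fun j => by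
      rcases Nat.lt_or_ge (j : ℕ) k with h | h
      · rw [CH_eq_zero h0 (fun ω ω' _ _ hh => ?_)]
        · have : 0 ≤ ((J : ℝ) - P + e) := by
            have : (0 : ℝ) ≤ e := Nat.cast_nonneg e
            linarith
          positivity
        · have h3 := (Prod.ext_iff.mp hh).2
          rw [hY] at h3
          have h4 := (Prod.ext_iff.mp (Prod.ext_iff.mp h3).2).1
          have h5 := congrFun h4 (ε j)
          simp only [ub, if_pos (hI j h)] at h5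
          exact h5
      · obtain ⟨G, hG'⟩ := hG j h
        refine Pool.EXW.one_cell hG' hρ hP hq hqA fun ω ω' _ _ hh => ?_
        have h3 := (Prod.ext_iff.mp hh).2
        rw [hY] at h3
        have h4 := (Prod.ext_iff.mp (Prod.ext_iff.mp h3).2).1
        have h5 := (Prod.ext_iff.mp (Prod.ext_iff.mp h3).2).2
        refine ⟨fun i hi => ?_, congrFun (Prod.ext_iff.mp h5).1 j,
          congrArg Prod.fst (Prod.ext_iff.mp h5).2⟩
        have h6 := congrFun h4 i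
        simp only [ub, if_pos hi] at h6
        exact h6)
  rw [Finset.sum_const, Finset.card_univ, Fintype.card_fin, nsmul_eq_mul] at h2
  have h3 : CH (Pool.Agent.H49.Ent.cond F.p A True) (fun ω => F.X J ω N)
      (fun ω => ((fun j : Fin (n - 1) => F.X J ω (ε j)), Y ω)) ≤
      rowH F A N (univ.erase N) Q (fun _ => ()) := by
    unfold rowH
    refine CH_mono_cond h0 fun ω ω' _ _ hh => ?_
    obtain ⟨h4, h5⟩ := Prod.ext_iff.mp hh
    rw [hY] at h5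
    refine Prod.ext (Prod.ext_iff.mp h5).1 (Prod.ext (funext fun l => ?_)
      (Prod.ext rfl (Prod.ext_iff.mp (Prod.ext_iff.mp (Prod.ext_iff.mp h5).2).2).2))
    simp only [ub]
    by_cases hl : l ∈ univ.erase N
    · rw [if_pos hl, if_pos hl]
      obtain ⟨i, hi⟩ := hcov l (Finset.ne_of_mem_erase hl)
      have h6 : F.X J ω (ε i) = F.X J ω' (ε i) := congrFun h4 i
      rwa [hi] at h6
    · rw [if_neg hl, if_neg hl]
  linarith

variable {hn : 2 ≤ n} {S : PCl n} {P : ℝ → ℝ → ℝ} {r : ℝ → ℝ}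
  {P' : ℕ → List (Fin n) × Fin n → ℝ → ℝ → ℝ} {Λ : Finset (Fin n) → Fin n → ℝ → ℝ → ℝ}

/-- The package of a subclass. -/
theorem pk_le (H : Pk hn S P r P' Λ) {S' : PCl n} (hne : S'.Ne)
    (hs : ∀ (τ : ℝ) (J : ℕ) (F : Fam n J) (A : F.Ω → Prop), S'.St τ J F A → S.St τ J F A) :
    Pk hn S' P r P' Λ := by
  obtain ⟨al, g₀, s, d, e, K₀, N, hal, hg₀, hC⟩ := H.cl
  exact ⟨⟨al, g₀, s, d, e, K₀, N, hal, hg₀, hC.sub hne hs⟩, H.tgs.sub hs, H.rate.sub hs,
    fun j => (H.cht j).sub hs, H.reg, H.lam.sub hs⟩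

/-- **The stable labels of the last coordinate over the base are not absent.** -/
theorem no_absent (H : Pk hn S P r P' Λ) (hRW : ∀ k, 2 ≤ k → k < n → RW k) {w : ℝ}
    (hg : Gwd P P' Λ w) {k : ℕ} (hk1 : 1 ≤ k) (hk : k < n - 1)
    (hlt : ∀ i < k, vs Λ (fun i => bse (ow Λ w i)) w (i + 1) < 1)
    (hone : vs Λ (fun i => bse (ow Λ w i)) w (k + 1) = 1) {Q : ℝ} (hwQ : w ≤ Q) (hQ1 : Q < 1)
    (hbad : r 1 - r Q < 1 - Q) :
    ¬ ∀ K : ℕ, Bas S (fun J F A => ¬ LbR 2 F ((range k).image (cc hn (ow Λ w))) (lst hn) K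
      ⌊w * J⌋₊ ⌊Q * J⌋₊ A) := by
  classical
  intro hno
  obtain ⟨al, g₀, s, d, e, K₀, N, hal, hg₀, hC⟩ := H.cl
  have htm := Pool.GEN.N83.clx_tmc hC
  have hw0 := hg.pos
  have hw1 := hg.lt
  obtain ⟨ε, hε⟩ : ∃ ε : Fin (n - 1) → Fin n, ε = fun i => bse (ow Λ w i) := ⟨_, rfl⟩
  obtain ⟨c, hc⟩ : ∃ c, c = cc hn (ow Λ w) := ⟨_, rfl⟩
  rw [← hε] at hlt hone
  rw [← hc] at hno
  obtain ⟨hog, -, -, hgr, hct⟩ := hg.ow
  rw [← hε] at hgr hct
  have hcε : ∀ i : Fin (n - 1), c i = ε i := fun i => by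
    rw [hc, hε, cc_lt hn _ i.2]
  obtain ⟨I, hI⟩ : ∃ I, I = (range k).image c := ⟨_, rfl⟩
  rw [← hI] at hno
  have hIε : (Iio (⟨k, hk⟩ : Fin (n - 1))).image ε = I := by
    rw [img_eq hcε, hI]
  -- the numbers
  obtain ⟨κ, hκ⟩ : ∃ κ : Fin n, κ = ⟨0, by omega⟩ := ⟨_, rfl⟩
  have hc0 : c 0 = κ := by
    rw [hκ]
    refine Fin.ext ?_
    rw [hc, cc_lt hn _ (show 0 < n - 1 by omega)]
    show ((ow Λ w ⟨0, _⟩ : Fin (n - 1)) : ℕ) = 0
    exact hog _ rfl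
  have hκI : κ ∈ I := by
    rw [hI, ← hc0]
    exact Finset.mem_image_of_mem _ (Finset.mem_range.2 hk1)
  have hNI : lst hn ∉ I := by
    rw [hI]
    intro h
    obtain ⟨i, hi, h1⟩ := Finset.mem_image.1 h
    rw [hc] at h1
    exact cc_ne hn _ (by
      have := Finset.mem_range.1 hi
      omega) h1
  have hcard : I.card + 1 = k + 1 := by
    rw [hI, Finset.card_image_of_injOn, Finset.card_range]
    intro x hx y hy hxy
    have hx' := Finset.mem_range.1 hx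
    have hy' := Finset.mem_range.1 hy
    rw [hc] at hxy
    exact cc_inj' hn _ (by omega) (by omega) hxy
  obtain ⟨gap, hgap⟩ : ∃ gap : ℝ, gap = (1 - Q) - (r 1 - r Q) := ⟨_, rfl⟩
  have hgap0 : 0 < gap := by rw [hgap]; linarith
  have hvk : vs Λ ε w k < 1 := by
    have := hlt (k - 1) (by omega)
    rwa [show k - 1 + 1 = k by omega] at this
  obtain ⟨η, hη⟩ : ∃ η : ℝ, η = min (gap / (32 * n)) ((1 - vs Λ ε w k) / 2) := ⟨_, rfl⟩
  have hn0 : (2 : ℝ) ≤ n := by exact_mod_cast hn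
  have hη0 : 0 < η := by
    rw [hη]
    exact lt_min (by positivity) (by linarith)
  have hη1 : 32 * n * η ≤ gap := by
    have h1 : η ≤ gap / (32 * n) := by
      rw [hη]
      exact min_le_left _ _
    rw [le_div_iff₀ (by positivity)] at h1
    linarith
  have hη2 : η ≤ (1 - vs Λ ε w k) / 2 := by
    rw [hη]
    exact min_le_right _ _
  -- the window before
  have hev : ∀ᶠ v in nhds w, ∀ i : Fin (n - 1), k ≤ (i : ℕ) →
      1 - η < vn Λ ε ⟨k, hk⟩ (ε i) v := by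
    rw [Filter.eventually_all]
    intro i
    by_cases hi : k ≤ (i : ℕ)
    · have h1 : 1 ≤ vn Λ ε ⟨k, hk⟩ (ε i) w := by
        have h2 := hgr ⟨k, hk⟩ i (by rw [Fin.le_def]; exact hi)
        simp only at h2
        rw [hone] at h2
        exact h2
      filter_upwards [(hct ⟨k, hk⟩ (ε i)).eventually (lt_mem_nhds (show 1 - η <
        vn Λ ε ⟨k, hk⟩ (ε i) w by linarith))] with v hv _
      exact hv
    · exact Filter.Eventually.of_forall fun v h => absurd h hi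
  rw [Metric.eventually_nhds_iff] at hev
  obtain ⟨δ, hδ, hev⟩ := hev
  obtain ⟨δ', hδ'⟩ : ∃ δ' : ℝ, δ' = min δ w := ⟨_, rfl⟩
  have hδ'0 : 0 < δ' := by rw [hδ']; exact lt_min hδ hw0
  have hδ'1 : δ' ≤ δ := by rw [hδ']; exact min_le_left _ _
  have hδ'2 : δ' ≤ w := by rw [hδ']; exact min_le_right _ _
  obtain ⟨w', hw'⟩ : ∃ w', w' = w - δ' / 4 := ⟨_, rfl⟩
  obtain ⟨w'', hw''⟩ : ∃ w'', w'' = w - δ' / 2 := ⟨_, rfl⟩
  have hev' := @hev w'' (by
    rw [Real.dist_eq, hw'', abs_lt]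
    constructor <;> linarith)
  have hw'0 : 0 < w' := by rw [hw']; linarith
  have hw'w : w' < w := by rw [hw']; linarith
  have hw''w : w'' < w' := by rw [hw', hw'']; linarith
  -- the labels
  have hlab : ∀ i : Fin (n - 1), ∃ K : ℕ, k ≤ (i : ℕ) → Bas S (fun J F A =>
      Lb F I (ε i) K ⌊η * J⌋₊ J ⌊w' * J⌋₊ ⌊(vs Λ ε w'' k + η) * J⌋₊ ⌊(1 - 2 * η) * J⌋₊ A) := by
    intro i
    by_cases hi : k ≤ (i : ℕ)
    · obtain ⟨K, hK⟩ := H.lam.att I (ε i) w'' w' (vs Λ ε w'' k) η hw'0 (by linarith) hw''w hη0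
      refine ⟨K, fun _ => hK.mono 0 fun J _ F A h => ?_⟩
      refine h.mono (Finset.Subset.refl _) le_rfl le_rfl le_rfl le_rfl
        (fl_le (by linarith) J) le_rfl ?_
      refine Nat.floor_le_floor (mul_le_mul_of_nonneg_right ?_ (Nat.cast_nonneg J))
      have h1 := hev' i hi
      unfold vn at h1
      rw [hIε] at h1
      simp only at h1
      linarith
    · exact ⟨0, fun h => absurd h hi⟩
  choose Kf hKf using hlab
  have hall : Bas S (fun J F A => ∀ i : Fin (n - 1), k ≤ (i : ℕ) → Lb F I (ε i) (Kf i) ⌊η * J⌋₊ J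
      ⌊w' * J⌋₊ ⌊(vs Λ ε w'' k + η) * J⌋₊ ⌊(1 - 2 * η) * J⌋₊ A) := by
    refine Bas.fin fun i => ?_
    by_cases hi : k ≤ (i : ℕ)
    · exact (hKf i hi).mono 0 fun J _ F A h _ => h
    · exact ⟨1, one_pos, 0, fun J _ F A _ h => absurd h hi⟩
  -- the rows
  have hrow := hRW (k + 1) (by omega) (by omega) al g₀ hal hg₀ N hC.actm n 6 S (by norm_num) htm I
    (lst hn) κ hNI hκI hcard (hC.actb κ (by rw [hκ])) 2 w' Q (w - w') (gap / 4) (by norm_num)
    hw'0 (by linarith) hQ1.le (by linarith) (by linarith) (by linarith) (fun K => by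
      have e1 : w' + (w - w') = w := by ring
      rw [e1]
      exact hno K)
  have hl2 : 0 < Real.log 2 := Real.log_pos one_lt_two
  have hrate := row_rate H.rate H.pos (hw0.le.trans hwQ) hQ1.le
    (h := gap / 8 * Real.log 2) (by positivity)
  obtain ⟨J₁, hJ₁⟩ := exists_nat_ge ((n : ℝ) * (Real.log 2 + Real.log (2 * n + 9)) /
    (gap / 8 * Real.log 2))
  have hvw : vs Λ ε w'' k ≤ vs Λ ε w k := vs_mono H.lam ε k (by linarith)
  refine Pool.TOP.bas_no hC.ne (((hrow.and hrate).and (hall.and H.pos)).mono (max J₁ 1) ?_)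
  rintro J hJ F A ⟨⟨h1, h2⟩, h3, hA⟩
  have hJ0 : (0 : ℝ) < J := by exact_mod_cast (le_max_right J₁ 1).trans hJ
  have hJ1 : (J₁ : ℝ) ≤ J := by exact_mod_cast (le_max_left J₁ 1).trans hJ
  have h4 := row_fam hA (N := lst hn) (k := k) (ε := ε) (fun l hl => by
      obtain ⟨j, hj, h5⟩ := cc_all hn (ow Λ w) hl
      exact ⟨⟨j, hj⟩, by rw [← hcε ⟨j, hj⟩, hc]; exact h5⟩) (I := I) (fun i hi => by
      rw [hI, ← hcε i]
      exact Finset.mem_image_of_mem _ (Finset.mem_range.2 hi)) (Kf := Kf) h3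
    (fl_le (by linarith) J) (fl_le (by linarith) J) h1
  have h5 := (abs_le.1 h2).2
  have hlog : 0 ≤ Real.log (2 * (n : ℝ) + 9) := Real.log_nonneg (by linarith)
  have h6 : ((J : ℝ) - (⌊(1 - 2 * η) * (J : ℝ)⌋₊ : ℕ) + (⌊η * (J : ℝ)⌋₊ : ℕ)) ≤ 3 * η * J + 1 := by
    have k1 := Nat.lt_floor_add_one ((1 - 2 * η) * (J : ℝ))
    have k2 := Nat.floor_le (show 0 ≤ η * (J : ℝ) by positivity)
    linarith
  have h7 : ((n - 1 : ℕ) : ℝ) ≤ n := by exact_mod_cast Nat.sub_le n 1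
  have h8 : ((n - 1 : ℕ) : ℝ) * (((J : ℝ) - (⌊(1 - 2 * η) * (J : ℝ)⌋₊ : ℕ) +
      (⌊η * (J : ℝ)⌋₊ : ℕ)) * Real.log 2 + Real.log (2 * n + 9)) ≤
      n * ((3 * η * J + 1) * Real.log 2 + Real.log (2 * n + 9)) := by
    have k1 := mul_le_mul_of_nonneg_right h6 hl2.le
    have k2 : 0 ≤ (3 * η * J + 1) * Real.log 2 + Real.log (2 * n + 9) := by positivity
    calc _ ≤ ((n - 1 : ℕ) : ℝ) * ((3 * η * J + 1) * Real.log 2 + Real.log (2 * n + 9)) :=
          mul_le_mul_of_nonneg_left (by linarith) (Nat.cast_nonneg _)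
      _ ≤ _ := mul_le_mul_of_nonneg_right h7 k2
  have h9 : (n : ℝ) * (Real.log 2 + Real.log (2 * n + 9)) ≤ gap / 8 * Real.log 2 * J := by
    have k1 := hJ₁.trans hJ1
    rw [div_le_iff₀ (by positivity)] at k1
    linarith
  have h10 : 32 * n * η * (Real.log 2 * J) ≤ gap * (Real.log 2 * J) :=
    mul_le_mul_of_nonneg_right hη1 (by positivity)
  have h11 : (1 - Q - gap / 4) * Real.log 2 * J = (r 1 - r Q) * Real.log 2 * J +
      3 * (gap / 4) * Real.log 2 * J := by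
    rw [hgap]
    ring
  have h12 : (n : ℝ) * ((3 * η * J + 1) * Real.log 2 + Real.log (2 * n + 9)) =
      3 / 32 * (32 * n * η * (Real.log 2 * J)) + n * (Real.log 2 + Real.log (2 * n + 9)) := by
    ring
  have h13 : 0 < gap * Real.log 2 * J := by positivity
  linarith

/-- **The labels of the last coordinate** over the coordinates before the first one with the
number `1`, in a subclass. -/
theorem lab_lst (H : Pk hn S P r P' Λ) (hRW : ∀ k, 2 ≤ k → k < n → RW k) {w : ℝ}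
    (hg : Gwd P P' Λ w) {k : ℕ} (hk1 : 1 ≤ k) (hk : k < n - 1)
    (hlt : ∀ i < k, vs Λ (fun i => bse (ow Λ w i)) w (i + 1) < 1)
    (hone : vs Λ (fun i => bse (ow Λ w i)) w (k + 1) = 1)
    (hbad : ∀ Q : ℝ, 0 ≤ Q → Q < 1 → r 1 - r Q < 1 - Q) :
    ∃ S' : PCl n, S'.Ne ∧ (∀ (τ : ℝ) (J : ℕ) (F : Fam n J) (A : F.Ω → Prop),
      S'.St τ J F A → S.St τ J F A) ∧ ∀ e : ℝ, 0 < e → ∃ K : ℕ, Bas S' (fun J F A =>
        Lb F ((range k).image (cc hn (ow Λ w))) (lst hn) K ⌊e * J⌋₊ J ⌊w * J⌋₊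
          ⌊min (1 + e) 1 * J⌋₊ ⌊(1 - e) * J⌋₊ A) := by
  obtain ⟨al, g₀, s, d, e, K₀, N, hal, hg₀, hC⟩ := H.cl
  exact lab_ext hC.ne (by norm_num) (Pool.GEN.N83.clx_tmc hC) hg.pos.le hg.lt _ _
    fun S₁ hne hs Q hwQ hQ1 => no_absent (pk_le H hne hs) hRW hg hk1 hk hlt hone hwQ hQ1
      (hbad Q (hg.pos.le.trans hwQ) hQ1)

end base

end Pool.PM93
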