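import Pool.Agent.H93.PM.Anu
import Pool.Agent.H77.S6.Seq

/-!
# The affine labels of the base: their thresholds are at most the numbers

`px_ent`: labels on the rounded points bound the entropy of the coordinates. `pa_le`: in a class in
which the coordinates `c 0, …, c (r - 1)` are exact with the numbers `β l`, the threshold of the
affine labels of `c i`, `i < r`, is at most `β i`.
-/

set_option autoImplicit false

namespace Pool.PM93

open Finset Real MvPolynomial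
open Pool.Agent.H49.Ent Pool.Agent.H32.Dense Pool.STK Pool.KA Pool.KSAT Pool.K2S Pool.PB Pool.GEN
open Pool.STAT Pool.STAT.CLO Pool.M3F Pool.S6C

variable {m J : ℕ}

/-- **Labels on the rounded points bound the entropy.** -/
theorem px_ent {F : Fam m J} {B : F.Ω → Prop} {q : F.Ω → ℝ} (hq : IsLaw q)
    (hqB : ∀ ω, 0 < q ω → B ω) {c : ℕ → Fin m} {r : ℕ} {V : Type} {z : PtT F → V}
    {P : V → ℕ → PN} {a : ℕ → ℕ} (ha : ∀ l < r, a l ≤ J) (hP : ∀ v, TriN (P v))
    (h : ∀ ω, B ω → ∀ l < r, |px c (ptr F J ω) (l + 1) -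
      eval (px c (ptr F J ω)) (P (z (ptr F J ω)) (l + 1))| ≤ 1 / 2 ^ a l) {T : Type}
    (Z : F.Ω → T) (hZ : ∀ ω ω', B ω → B ω' → Z ω = Z ω' →
      z (ptr F J ω) = z (ptr F J ω') ∧ F.T ω = F.T ω') :
    CH q (fun ω (i : Fin r) => F.X J ω (c i)) Z ≤
      (∑ l ∈ range r, ((J - a l : ℕ) : ℝ)) * Real.log 2 + r * Real.log 5 := by
  have pJ : (0 : ℝ) < 2 ^ J := by positivity
  have h1 := Pool.KS6.CH_le_pow hq Z (fun ω (i : Fin r) => F.X J ω (c i)) (fun _ => 2)
    (fun i _ => J - a i) (fun _ => by norm_num) (fun i ω ω' hω hω' hz hj => by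
      obtain ⟨z1, z2⟩ := hZ ω ω' (hqB ω hω) (hqB ω' hω') hz
      have e1 := h ω (hqB ω hω) i i.2
      have e2 := h ω' (hqB ω' hω') i i.2
      rw [← z1] at e2
      have e3 : eval (px c (ptr F J ω)) (P (z (ptr F J ω)) (i + 1)) =
          eval (px c (ptr F J ω')) (P (z (ptr F J ω)) (i + 1)) := by
        refine MvPolynomial.eval₂Hom_congr' rfl (fun l hl _ => ?_) rfl
        have hl' := mem_range.1 (hP _ _ hl)
        rcases Nat.eq_zero_or_pos l with rfl | hl0
        · rw [px_zero, px_zero]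
          show (F.T ω : ℝ) / 2 ^ J = (F.T ω' : ℝ) / 2 ^ J
          rw [z2]
        · obtain ⟨l, rfl⟩ : ∃ l', l = l' + 1 := ⟨l - 1, by omega⟩
          rw [px_succ, px_succ]
          have h3 := hj ⟨l, by omega⟩ (Fin.lt_def.2 (by
            show l < (i : ℕ)
            omega))
          have h4 : F.X J ω (c l) = F.X J ω' (c l) := h3
          show ((F.X J ω (c l) : ℤ) : ℝ) / 2 ^ J = ((F.X J ω' (c l) : ℤ) : ℝ) / 2 ^ J
          rw [h4]
      rw [e3] at e1
      have e4 : |px c (ptr F J ω) (i + 1) - px c (ptr F J ω') (i + 1)| ≤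
          2 * (1 / 2 ^ a i) := by
        have e5 : px c (ptr F J ω) (i + 1) - px c (ptr F J ω') (i + 1) =
            (px c (ptr F J ω) (i + 1) -
              eval (px c (ptr F J ω')) (P (z (ptr F J ω)) (i + 1))) -
            (px c (ptr F J ω') (i + 1) -
              eval (px c (ptr F J ω')) (P (z (ptr F J ω)) (i + 1))) := by ring
        rw [e5]
        refine (abs_sub _ _).trans ?_
        linarith
      have e6 : ((F.X J ω (c i) - F.X J ω' (c i) : ℤ) : ℝ) =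
          2 ^ J * (px c (ptr F J ω) (i + 1) - px c (ptr F J ω') (i + 1)) := by
        rw [px_succ, px_succ]
        show _ = (2 : ℝ) ^ J * (((F.X J ω (c i) : ℤ) : ℝ) / 2 ^ J -
          ((F.X J ω' (c i) : ℤ) : ℝ) / 2 ^ J)
        push_cast
        field_simp
      rw [e6, abs_mul, abs_of_pos pJ]
      have e7 : (2 : ℝ) ^ J = 2 ^ (J - a i) * 2 ^ a i := by
        rw [← pow_add, Nat.sub_add_cancel (ha i i.2)]
      calc (2 : ℝ) ^ J * |px c (ptr F J ω) (i + 1) - px c (ptr F J ω') (i + 1)| ≤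
            2 ^ J * (2 * (1 / 2 ^ a i)) := mul_le_mul_of_nonneg_left e4 pJ.le
        _ = 2 * 2 ^ (J - a i) := by
            rw [e7]
            field_simp)
  refine h1.trans (le_of_eq ?_)
  have h2 : Ex q (fun _ => ((∑ i : Fin r, (J - a i) : ℕ) : ℝ)) =
      ∑ l ∈ range r, ((J - a l : ℕ) : ℝ) := by
    rw [Ex_const hq.sum_one]
    push_cast
    exact Fin.sum_univ_eq_sum_range (fun l => ((J - a l : ℕ) : ℝ)) r
  rw [h2]
  congr 1
  rw [sum_const, card_univ, Fintype.card_fin, nsmul_eq_mul]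
  norm_num

/-- **The thresholds of the affine labels of the base** are at most the numbers. -/
theorem pa_le {S : PCl m} (hS : S.Ne) (hpos : Bas S (fun _ F A => 0 < Pe F.p A))
    {c : ℕ → Fin m} {r i : ℕ} {p : ℝ → ℝ} (hp : AflOf S c i p) (hi : i < r) {w : ℝ} (hw : 0 < w)
    (hw1 : w ≤ 1) {β : ℕ → ℝ} (hβ0 : 0 ≤ β i) (hβ : ∀ l < r, β l ≤ 1)
    (hlab : ∀ δ : ℝ, 0 < δ → ∃ K₁ : ℝ, 0 < K₁ ∧ Bas S (fun J F A => ∃ (B : F.Ω → Prop)
      (g : ℕ → ℕ) (V : Type) (z : PtT F → V) (z' : LnT F → V) (P : V → ℕ → PN),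
      Sub B A ∧ Pe F.p A ≤ K₁ * Pe F.p B ∧ (∀ l < r, (β l - δ) * J ≤ g l) ∧
      (∀ ω, B ω → z (ptr F J ω) = z' (slam F ⌊w * J⌋₊ ω)) ∧ (∀ v, TriN (P v)) ∧
      ∀ ω, B ω → ∀ l < r, |px c (ptr F J ω) (l + 1) -
        eval (px c (ptr F J ω)) (P (z (ptr F J ω)) (l + 1))| ≤ 1 / 2 ^ g l))
    (hex : ∀ ρ : ℝ, 0 < ρ → ExvY S w (fun J F ω (i : Fin r) => F.X J ω (c i))
      ((∑ l ∈ range r, (1 - β l)) - ρ)) : p w ≤ β i := by
  classical
  by_contra hcon
  push Not at hcon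
  obtain ⟨h, hh⟩ : ∃ h, h = (p w - β i) / 4 := ⟨_, rfl⟩
  have hh0 : 0 < h := by
    rw [hh]
    linarith
  have hr0 : (0 : ℝ) < r := by exact_mod_cast (by omega : 0 < r)
  obtain ⟨δ, hδ⟩ : ∃ δ : ℝ, δ = h / r := ⟨_, rfl⟩
  have hδ0 : 0 < δ := by
    rw [hδ]
    positivity
  have hrδ : r * δ = h := by
    rw [hδ]
    field_simp
  obtain ⟨K₁, hK₁, hlab⟩ := hlab δ hδ0
  obtain ⟨k₂, hk₂, hfull⟩ := Ful.bas_events (hpos.and (hex h hh0))
  have hatt := hp.att w h hw hw1 hh0 (by linarith)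
  obtain ⟨J₁, hJ₁⟩ := exists_nat_ge ((2 + r * 3) / h)
  obtain ⟨J₂, hJ₂⟩ := exists_nat_ge (Real.log K₁ / k₂)
  refine Clp.not_false hS (Clp.mono (J₂ := max (max J₁ J₂) 1)
    ((hlab.and (hfull.and hatt)).clp) ?_)
  rintro J hJ F A ⟨⟨B, g, V, z, z', P, b1, b2, b3, b4, b5, b6⟩, ⟨hfull, V₂, z₂, z₂', Q, q1, q2, q3⟩⟩
  have j1 : (2 + r * 3) / h ≤ J := hJ₁.trans (by
    exact_mod_cast (le_max_left _ _).trans ((le_max_left _ _).trans hJ))
  have j2 : Real.log K₁ / k₂ ≤ J := hJ₂.trans (by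
    exact_mod_cast (le_max_right _ _).trans ((le_max_left _ _).trans hJ))
  have j3 : (1 : ℝ) ≤ J := by exact_mod_cast (le_max_right _ _).trans hJ
  rw [div_le_iff₀ hh0] at j1
  rw [div_le_iff₀ hk₂] at j2
  have hJ0 : (0 : ℝ) ≤ J := Nat.cast_nonneg J
  have hexp : Real.exp (-(k₂ * J)) * Pe F.p A ≤ Pe F.p B := by
    have h1 : K₁ * Real.exp (-(k₂ * J)) ≤ 1 := by
      have h2 : K₁ = Real.exp (Real.log K₁) := (Real.exp_log hK₁).symm
      rw [h2, ← Real.exp_add, Real.exp_le_one_iff]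
      linarith
    have h3 := mul_le_mul_of_nonneg_left b2 (Real.exp_pos (-(k₂ * J))).le
    have h4 : Real.exp (-(k₂ * J)) * (K₁ * Pe F.p B) ≤ 1 * Pe F.p B := by
      rw [← mul_assoc, mul_comm (Real.exp _) K₁]
      exact mul_le_mul_of_nonneg_right h1 (Pe_nonneg F.isLaw B)
    linarith
  obtain ⟨hB, hV⟩ := hfull B b1 hexp
  have hq := isLaw_cond F.isLaw hB
  have hsupp : ∀ ω, 0 < Pool.Agent.H49.Ent.cond F.p B True ω → B ω := fun ω hω => cond_supp hω
  obtain ⟨l2, hl2⟩ : ∃ l2, l2 = Real.log 2 := ⟨_, rfl⟩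
  have l2a : 1 / 2 ≤ l2 := by
    rw [hl2]
    have := Real.log_two_gt_d9
    linarith
  have l5 : Real.log 5 ≤ 3 * l2 := by
    have h1 : Real.log 5 ≤ Real.log ((2 : ℝ) ^ 3) := Real.log_le_log (by norm_num) (by norm_num)
    rw [Real.log_pow, ← hl2] at h1
    exact_mod_cast h1
  obtain ⟨Pq, hPq⟩ : ∃ Pq, Pq = ⌊(p w - h) * (J : ℝ)⌋₊ := ⟨_, rfl⟩
  rw [← hPq] at q3
  have hp1 := hp.up w
  have hPq1 : (p w - h) * (J : ℝ) - 1 ≤ Pq := by
    rw [hPq]
    exact (Nat.sub_one_lt_floor _).le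
  have hPqJ : Pq ≤ J := by
    rw [hPq]
    exact Nat.floor_le_of_le (by nlinarith)
  obtain ⟨a, ha⟩ : ∃ a : ℕ → ℕ, a = fun l => if l = i then Pq else min (g l) J := ⟨_, rfl⟩
  have hcls : ∀ ω, B ω → (z (ptr F J ω), z₂ (ptr F J ω)) =
      (z' (slam F ⌊w * J⌋₊ ω), z₂' (slam F ⌊w * J⌋₊ ω)) := fun ω hω => by
    rw [b4 ω hω, q2 ω (b1 ω hω)]
  have h1 := hV (V × V₂) (fun ξ => (z ξ, z₂ ξ)) (fun s => (z' s, z₂' s)) hcls
  have h2 := px_ent hq hsupp (c := c) (r := r) (V := V × V₂) (z := fun ξ => (z ξ, z₂ ξ))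
    (P := fun v l => if l = i + 1 then Q v.2 else P v.1 l) (a := a) (fun l _ => by
      rw [ha]
      dsimp only
      split_ifs
      · exact hPqJ
      · exact min_le_right _ _) (fun v l => by
      dsimp only
      split_ifs with hl
      · rw [hl]
        exact (q1 v.2).2
      · exact b5 v.1 l) (fun ω hω l hl => by
      rw [ha]
      dsimp only
      by_cases hli : l = i
      · rw [if_pos hli, if_pos (by omega), hli]
        exact q3 ω (b1 ω hω)
      · rw [if_neg hli, if_neg (by omega)]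
        refine (b6 ω hω l hl).trans ?_
        exact one_div_le_one_div_of_le (by positivity)
          (pow_le_pow_right₀ (by norm_num) (min_le_left _ _)))
    (fun ω => ((z' (slam F ⌊w * J⌋₊ ω), z₂' (slam F ⌊w * J⌋₊ ω)), F.W ω))
    (fun ω ω' hω hω' hZ => by
      have h3 := Prod.ext_iff.mp hZ
      refine ⟨?_, congrArg Prod.fst h3.2⟩
      show (z (ptr F J ω), z₂ (ptr F J ω)) = (z (ptr F J ω'), z₂ (ptr F J ω'))
      rw [hcls ω hω, hcls ω' hω']
      exact h3.1)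
  have h3 : ∑ l ∈ range r, ((J - a l : ℕ) : ℝ) ≤
      (∑ l ∈ range r, (1 - β l)) * J + β i * J - (p w - h) * J + 1 + h * J := by
    have h4 : ∀ l ∈ range r, ((J - a l : ℕ) : ℝ) ≤ (1 - β l) * J + δ * J +
        (if l = i then β i * J - (p w - h) * J + 1 else 0) := by
      intro l hl
      rw [ha]
      dsimp only
      have hδJ : 0 ≤ δ * (J : ℝ) := by positivity
      by_cases hli : l = i
      · rw [if_pos hli, if_pos hli, Nat.cast_sub hPqJ, hli]
        linarith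
      · rw [if_neg hli, if_neg hli, Nat.cast_sub (min_le_right _ _)]
        have h5 := b3 l (mem_range.1 hl)
        have h6 := hβ l (mem_range.1 hl)
        have h7 : 0 ≤ (1 - β l) * J := mul_nonneg (by linarith) hJ0
        push_cast
        rcases min_choice (g l : ℝ) (J : ℝ) with h8 | h8
        · rw [h8]
          linarith
        · rw [h8]
          linarith
    refine (sum_le_sum h4).trans (le_of_eq ?_)
    rw [sum_add_distrib, sum_add_distrib, sum_ite_eq' (range r) i, if_pos (mem_range.2 hi),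
      ← Finset.sum_mul, sum_const, card_range, nsmul_eq_mul, ← mul_assoc, hrδ]
    ring
  have h4 : ((∑ l ∈ range r, (1 - β l)) - h) * l2 * J ≤
      ((∑ l ∈ range r, (1 - β l)) * J + β i * J - (p w - h) * J + 1 + h * J) * l2 +
        r * (3 * l2) := by
    have h5 : (∑ l ∈ range r, ((J - a l : ℕ) : ℝ)) * l2 ≤ _ :=
      mul_le_mul_of_nonneg_right h3 (by linarith)
    have h6 : (r : ℝ) * Real.log 5 ≤ r * (3 * l2) := mul_le_mul_of_nonneg_left l5 hr0.le
    have h7 := h1.trans h2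
    rw [← hl2] at h7
    linarith
  have h5 : ((∑ l ∈ range r, (1 - β l)) - h) * J ≤
      (∑ l ∈ range r, (1 - β l)) * J + β i * J - (p w - h) * J + 1 + h * J + r * 3 := by
    have h6 : (((∑ l ∈ range r, (1 - β l)) - h) * J) * l2 ≤
      ((∑ l ∈ range r, (1 - β l)) * J + β i * J - (p w - h) * J + 1 + h * J + r * 3) * l2 := by
      linarith
    exact le_of_mul_le_mul_right h6 (by linarith)
  have h6 : p w - β i = 4 * h := by
    rw [hh]
    ring
  have h7 : (p w - β i) * J = 4 * h * J := by rw [h6]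
  linarith

end Pool.PM93
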