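import Pool.Agent.H93.PM.Alx
import Pool.Agent.H93.PM.Abe
import Pool.Agent.H96.R1.Lbt

/-!
# The threshold of the affine labels of the height, from `TwoW`

`afl_two`: the threshold of the affine labels of the last coordinate at the window `w₀` is at most
`P w₀ w₀`. `pa_two`, `pa_two'`: the thresholds of the affine labels of the base at the windows `w₀`,
`w₁` are at most the numbers.
-/

set_option autoImplicit false

namespace Pool.PM93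

open Finset Real MvPolynomial
open Pool.Agent.H49.Ent Pool.Agent.H32.Dense Pool.STK Pool.KA Pool.KSAT Pool.K2S Pool.PB Pool.GEN
open Pool.STAT Pool.STAT.CLO Pool.M3F Pool.S6C Pool.PKG
open Pool.LBT (ThrOf)
open Pool.ONE (tgs lst)
open Pool.GRW (TmWn)
open Pool.CHT (TmH bet tmH_of_reg)
open Pool.FLF (Fam.sub)
open Pool.R1 (TwoW lab2_two)
open Pool.JPN (LbX)

/-- Classes of regular families: the times. -/
theorem tmWn_mem {m : ℕ} {S : PCl m}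
    (hmem : ∀ (τ : ℝ) (J : ℕ) (F : Fam m J) (A : F.Ω → Prop), S.St τ J F A →
      F.Tr ∧ F.Tm (τ * J) ∧ F.Rb (τ * J) ∧ Real.exp (-(τ * J)) ≤ Pe F.p A) (w : ℝ) :
    TmWn S w := by
  have hpos : ∀ (τ : ℝ) (J : ℕ) (F : Fam m J) (A : F.Ω → Prop), S.St τ J F A →
      0 < Pe F.p A := fun τ J F A hS => lt_of_lt_of_le (Real.exp_pos _) (hmem τ J F A hS).2.2.2
  intro ψ hψ
  obtain ⟨τ, hτ, J₁, H⟩ := (tmH_of_reg hmem).2 ψ hψ
  refine ⟨τ, hτ, J₁, fun J hJ F A hS => ⟨hpos τ J F A hS, fun L hL => ?_⟩⟩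
  have h1 := H J hJ F A hS (hpos τ J F A hS)
  have h2 : (F.res A True (isLaw_cond F.isLaw (hpos τ J F A hS))).Tm (ψ * J) := by
    unfold Fam.Tm at h1 ⊢
    refine h1.trans (le_of_eq ?_)
    exact Pool.FLF.sub_CH F.T (fun ω => (F.l ω, F.Z ω))
  have h3 : (J : ℝ) * Real.log 2 - ψ * J ≤ CH (Pool.Agent.H49.Ent.cond F.p A True) F.T
      (fun ω => (F.l ω, F.Z ω)) := h2
  have k1 := Pool.Agent.H25.M5.time_full h3 (isLaw_cond F.isLaw (hpos τ J F A hS))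
    (Nat.le_add_right ⌊w * J⌋₊ L) hL
  rwa [Nat.add_sub_cancel_left] at k1

variable {n : ℕ} {hn : 2 ≤ n} {S : PCl n} {P : ℝ → ℝ → ℝ} {ρ : ℝ → ℝ} {θ : ℝ}
  {PP : List (Fin n) × Fin n → ℝ → ℝ → ℝ} {w₀ w₁ α : ℝ} {c₀ c₁ : ℕ → Fin n} {P1 cD : ℝ}

/-- **The threshold of the affine labels of the height** at the window `w₀`. -/
theorem afl_two (H : TwoW hn S P ρ θ PP w₀ w₁ α c₀ c₁ P1 cD) {p : ℝ → ℝ}
    (hp : AflOf S c₀ (n - 1) p) : p w₀ ≤ P w₀ w₀ := by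
  obtain ⟨D, D', sh, sh₂, K', Dq, sh', sh₂', K'', Dq', S₀, E₀, S₀', E₀', -, hK', -, -, -, -, -, -,
    hlab⟩ := lab2_two H
  obtain ⟨al, g₀, s, d, e, K₀, N, hal, hg₀, hnum, he, hC⟩ := H.cl
  have hmem := fun (τ : ℝ) (J : ℕ) (F : Fam n J) (A : F.Ω → Prop) (h : S.St τ J F A) =>
    (let q := hC.mem τ J F A h
     (⟨q.1, q.2.1, q.2.2.1, q.2.2.2.1⟩ : F.Tr ∧ F.Tm (τ * J) ∧ F.Rb (τ * J) ∧
      Real.exp (-(τ * J)) ≤ Pe F.p A))
  have hS : TmH S := tmH_of_reg hmem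
  have h0 := H.w0
  have h01 := H.w01
  have h1α := H.w1α
  have hα1 := H.α1
  have hP0 := H.αP
  have hc0 := H.cD0
  have hθ1 := H.θ1
  have hθ0 := H.θ0
  have hP01 := H.P01
  have hPcD := H.PcD
  have hq := Pool.TOP.q_le H.rate H.cD0 H.cD1
  have hb : ∀ l < n - 1, bet PP c₀ l w₀ w₀ ≤ 1 - 3 / 4 * cD :=
    H.gdy0.bd hC.ne H.cht H.θ0 hS H.t1 hα1.le (by linarith) (by linarith) h0 le_rfl
      (by linarith)
  have hw1 : w₀ < 1 := by linarith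
  have hinj : Set.InjOn c₀ (Set.Iio (n - 1 + 1)) := by
    intro i hi j hj hij
    rw [Set.mem_Iio] at hi hj
    rcases Nat.lt_or_ge i (n - 1) with k1 | k1 <;> rcases Nat.lt_or_ge j (n - 1) with k2 | k2
    · exact H.gdy0.inj k1 k2 hij
    · have e1 : j = n - 1 := by omega
      rw [e1, H.gdy0.top] at hij
      exact absurd hij (H.gdy0.ne i k1)
    · have e1 : i = n - 1 := by omega
      rw [e1, H.gdy0.top] at hij
      exact absurd hij.symm (H.gdy0.ne j k2)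
    · omega
  refine afl_lbx hC.ne hp (Pt := P) (by rw [H.gdy0.top]; exact H.tgs) hinj (cD := cD)
    (bt := fun l => bet PP c₀ l w₀ w₀)
    (EE := 1 - cD / 2 - max (P w₀ w₀) (bet PP c₀ (n - 2) w₀ w₀)) (D := D) (sh := sh)
    (sh₂ := sh₂) (K' := K') (Dq := Dq) (S₀ := S₀) (E₀ := E₀) hK' h0 hc0 (by linarith)
    (fun l hl => by linarith [hb l hl]) (by linarith) (fun ε hε => ?_) (fun δ hδ => ?_)
    (tmWn_mem hmem w₀) H.ex0
  · obtain ⟨o, ho, ho1, h⟩ := H.up0.rc hw1 ε hε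
    exact ⟨w₀ + o, by linarith, ho1, h⟩
  · obtain ⟨K₁, hK₁, h⟩ := hlab δ δ hδ hδ
    refine ⟨K₁, hK₁, h.mono 0 ?_⟩
    rintro J - F A ⟨B, b1, b2, b3, -⟩
    exact ⟨B, b1, b2, b3⟩

/-- The labels of the base, from the labels of one window. -/
theorem lbx_bse {m J : ℕ} {F : Fam m J} {c : ℕ → Fin m} {r W sg D sh sh₂ K' Dq : ℕ} {S₀ E₀ : ℝ}
    {β : ℕ → ℝ} {pN sr EE δ : ℝ} {B : F.Ω → Prop}
    (h : LbX F c r W sg D sh sh₂ K' Dq S₀ E₀ β pN sr EE δ B) :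
    ∃ (g : ℕ → ℕ) (V : Type) (z : PtT F → V) (z' : LnT F → V) (P : V → ℕ → PN),
      (∀ l < r, (β l - δ) * J - sh ≤ g l) ∧ (∀ ω, B ω → z (ptr F J ω) = z' (slam F W ω)) ∧
      (∀ v, TriN (P v)) ∧ ∀ ω, B ω → ∀ l < r, |px c (ptr F J ω) (l + 1) -
        eval (px c (ptr F J ω)) (P (z (ptr F J ω)) (l + 1))| ≤ 1 / 2 ^ g l := by
  obtain ⟨e, EN, kk, g, g₁, g₂, L, G, H, V, z, z', Pv, Qv, T, kf, n, l⟩ := h
  refine ⟨g₂, V, z, z', Pv, fun i hi => ?_, l.nlab.cls, l.nlab.tri, l.nlab.pos⟩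
  have h1 := abs_le.1 (n.gV i hi)
  have h2 : (g₂ i : ℝ) + sh = g i := by exact_mod_cast n.g2 i hi
  linarith [h1.1]

/-- **The thresholds of the affine labels of the base** at the window `w₀`. -/
theorem pa_two (H : TwoW hn S P ρ θ PP w₀ w₁ α c₀ c₁ P1 cD) {i : ℕ} (hi : i < n - 1) {p : ℝ → ℝ}
    (hp : AflOf S c₀ i p) : p w₀ ≤ bet PP c₀ i w₀ w₀ := by
  obtain ⟨D, D', sh, sh₂, K', Dq, sh', sh₂', K'', Dq', S₀, E₀, S₀', E₀', -, hK', -, -, -, -, -, -,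
    hlab⟩ := lab2_two H
  obtain ⟨al, g₀, s, d, e, K₀, N, hal, hg₀, hnum, he, hC⟩ := H.cl
  have hmem := fun (τ : ℝ) (J : ℕ) (F : Fam n J) (A : F.Ω → Prop) (h : S.St τ J F A) =>
    (let q := hC.mem τ J F A h
     (⟨q.1, q.2.1, q.2.2.1, q.2.2.2.1⟩ : F.Tr ∧ F.Tm (τ * J) ∧ F.Rb (τ * J) ∧
      Real.exp (-(τ * J)) ≤ Pe F.p A))
  have h0 := H.w0
  have h01 := H.w01
  have h1α := H.w1α
  have hα1 := H.α1
  refine pa_le hC.ne ?_ hp hi h0 (by linarith) (h0.le.trans (H.cht.low _ w₀ w₀ h0.le le_rfl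
    (by linarith))) (fun l _ => ?_) (fun δ hδ => ?_) H.ex0
  · exact ⟨1, one_pos, 0, fun J _ F A hA =>
      lt_of_lt_of_le (Real.exp_pos _) (hmem 1 J F A hA).2.2.2⟩
  · exact H.cht.up _ w₀ w₀ h0.le le_rfl (by linarith)
  · obtain ⟨K₁, hK₁, h⟩ := hlab (δ / 2) 1 (by linarith) one_pos
    obtain ⟨J₁, hJ₁⟩ := exists_nat_ge (2 * (sh : ℝ) / δ)
    refine ⟨K₁, hK₁, h.mono J₁ ?_⟩
    rintro J hJ F A ⟨B, b1, b2, b3, -⟩
    have j1 : 2 * (sh : ℝ) / δ ≤ J := hJ₁.trans (by exact_mod_cast hJ)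
    rw [div_le_iff₀ hδ] at j1
    obtain ⟨g, V, z, z', P', a1, a2, a3, a4⟩ := lbx_bse b3
    exact ⟨B, g, V, z, z', P', b1, b2, fun l hl => by linarith [a1 l hl], a2, a3, a4⟩

/-- **The thresholds of the affine labels of the base** at the window `w₁`. -/
theorem pa_two' (H : TwoW hn S P ρ θ PP w₀ w₁ α c₀ c₁ P1 cD) {i : ℕ} (hi : i < n - 1) {p : ℝ → ℝ}
    (hp : AflOf S c₁ i p) : p w₁ ≤ bet PP c₁ i w₁ w₁ := by
  obtain ⟨D, D', sh, sh₂, K', Dq, sh', sh₂', K'', Dq', S₀, E₀, S₀', E₀', -, hK', -, -, -, -, -, -,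
    hlab⟩ := lab2_two H
  obtain ⟨al, g₀, s, d, e, K₀, N, hal, hg₀, hnum, he, hC⟩ := H.cl
  have hmem := fun (τ : ℝ) (J : ℕ) (F : Fam n J) (A : F.Ω → Prop) (h : S.St τ J F A) =>
    (let q := hC.mem τ J F A h
     (⟨q.1, q.2.1, q.2.2.1, q.2.2.2.1⟩ : F.Tr ∧ F.Tm (τ * J) ∧ F.Rb (τ * J) ∧
      Real.exp (-(τ * J)) ≤ Pe F.p A))
  have h0 := H.w0
  have h01 := H.w01
  have h1α := H.w1α
  have hα1 := H.α1
  refine pa_le hC.ne ?_ hp hi (by linarith) (by linarith) ((h0.trans h01).le.trans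
    (H.cht.low _ w₁ w₁ (by linarith) le_rfl (by linarith))) (fun l _ => ?_) (fun δ hδ => ?_) H.ex1
  · exact ⟨1, one_pos, 0, fun J _ F A hA =>
      lt_of_lt_of_le (Real.exp_pos _) (hmem 1 J F A hA).2.2.2⟩
  · exact H.cht.up _ w₁ w₁ (by linarith) le_rfl (by linarith)
  · obtain ⟨K₁, hK₁, h⟩ := hlab 1 (δ / 2) one_pos (by linarith)
    obtain ⟨J₁, hJ₁⟩ := exists_nat_ge (2 * (sh' : ℝ) / δ)
    refine ⟨K₁, hK₁, h.mono J₁ ?_⟩
    rintro J hJ F A ⟨B, b1, b2, -, b3⟩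
    have j1 : 2 * (sh' : ℝ) / δ ≤ J := hJ₁.trans (by exact_mod_cast hJ)
    rw [div_le_iff₀ hδ] at j1
    obtain ⟨g, V, z, z', P', a1, a2, a3, a4⟩ := lbx_bse b3
    exact ⟨B, g, V, z, z', P', b1, b2, fun l hl => by linarith [a1 l hl], a2, a3, a4⟩

end Pool.PM93
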