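import Pool.Agent.H22.M.TopM
import Pool.Agent.H93.GEN.TopW
import Pool.Agent.H69.NJ.Pk
import Pool.Agent.H96.R1.End

/-!
# The last rows from one falling level and calm levels

`topW_of_calm`: the last rows of a class which is steep at the window `u` at which the last row is
reached, from the statement `R1D` for one falling level and the calmness of the volume: below `u`, if
the threshold is continuous at `u`; the volume has no jump at `u`, if the threshold has one.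
`topW_two`, `topW_three`: the last rows in dimension two and three.
-/

set_option autoImplicit false

namespace Pool.PM93

open Set Pool.STR
open Pool.PM (nfr LastW BadR ConT CalmB NoJ)

section gen

variable {P : ℝ → ℝ → ℝ} {r V : ℝ → ℝ} {W : Set ℝ}

/-- **The last rows from the calmness of the volume.** -/
theorem topW_of_calm (hm : Monotone r) (hW : Dense W)
    (h0 : ∀ w, 0 < w → w ≤ 1 → 0 ≤ P w w ∧ P w w ≤ 1)
    (hP : ∀ w w', 0 < w → w ≤ w' → w' ≤ 1 → P w w ≤ P w' w') (hD : R1D P r V W)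
    (hc : ∀ u, LastW P u → BadR r → ConT P u → CalmB V W u)
    (hj : ∀ u, LastW P u → BadR r → ¬ ConT P u → NoJ V W u) : TopW P r := by
  intro u hu hu1 hlt htop hst
  have hL : LastW P u := ⟨hu, hu1, hlt, htop⟩
  by_cases hbad : BadR r
  · intro ε₀ hε₀
    obtain ⟨ε, hε⟩ : ∃ ε : ℝ, ε = min ε₀ 1 := ⟨_, rfl⟩
    have hε0 : 0 < ε := by rw [hε]; exact lt_min hε₀ one_pos
    have hε1 : ε ≤ 1 := by rw [hε]; exact min_le_right _ _
    have hεε : ε ≤ ε₀ := by rw [hε]; exact min_le_left _ _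
    obtain ⟨δ, hδ, hD⟩ := hD (ε / 3) (by linarith)
    by_cases hcon : ConT P u
    · -- the threshold is continuous
      obtain ⟨M₀, η, hη, hcalm⟩ := hc u hL hbad hcon
      obtain ⟨M, hMd⟩ : ∃ M, M = max M₀ 0 := ⟨_, rfl⟩
      have hM0 : 0 ≤ M := by rw [hMd]; exact le_max_right _ _
      have hM1 : M₀ ≤ M := by rw [hMd]; exact le_max_left _ _
      obtain ⟨η', hη', hst⟩ := hst (δ / (2 * (1 + M))) (by positivity)
      obtain ⟨w₀, b0, g1, g2⟩ := hW.exists_between (show max 0 (max (u - η) (u - η')) < u from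
        max_lt hu (max_lt (by linarith) (by linarith)))
      have e0 := (le_max_left 0 (max (u - η) (u - η'))).trans_lt g1
      have e1 := ((le_max_left (u - η) (u - η')).trans (le_max_right 0 _)).trans_lt g1
      have e2 := ((le_max_right (u - η) (u - η')).trans (le_max_right 0 _)).trans_lt g1
      have e3 := hlt w₀ e0 g2
      obtain ⟨q0, q1⟩ := h0 w₀ e0 (by linarith)
      obtain ⟨μ, hμ⟩ : ∃ μ, μ = 1 - P w₀ w₀ := ⟨_, rfl⟩
      have μ0 : 0 < μ := by rw [hμ]; linarith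
      obtain ⟨z, z0, z1, z2⟩ := hcon (ε / 3 * μ) (by positivity)
      obtain ⟨w₁, b1, g3, g4⟩ := hW.exists_between (max_lt g2 z1)
      have f0 := (le_max_left w₀ z).trans_lt g3
      have f1 := (le_max_right w₀ z).trans_lt g3
      have f2 := hP z w₁ z0 f1.le (by linarith)
      have f3 := (h0 w₁ (by linarith) (by linarith)).2
      have hcal := hcalm w₀ b0 w₁ b1 e0 e1 f0 g4
      have hste := hst w₀ e0 e2 g2
      rw [← hμ] at hste
      have k1 : (1 + M) * (u - w₀) ≤ δ / 2 * μ := by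
        have h1 : (1 + M) * (u - w₀) ≤ (1 + M) * (δ / (2 * (1 + M)) * μ) :=
          mul_le_mul_of_nonneg_left hste (by linarith)
        have h2 : (1 + M) * (δ / (2 * (1 + M)) * μ) = δ / 2 * μ := by
          have : (1 + M) ≠ 0 := by positivity
          field_simp
        linarith
      have k2 : M₀ * (u - w₀) ≤ M * (u - w₀) := mul_le_mul_of_nonneg_right hM1 (by linarith)
      have k3 : (1 - ε / 3) * μ ≤ P w₁ w₁ - P w₀ w₀ := by
        rw [hμ] at z2 ⊢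
        linarith
      have k4 : δ / 2 * μ ≤ δ * (P w₁ w₁ - P w₀ w₀) := by
        have h1 : μ / 2 ≤ P w₁ w₁ - P w₀ w₀ := by
          have : ε * μ ≤ 1 * μ := mul_le_mul_of_nonneg_right hε1 μ0.le
          linarith
        have h2 := mul_le_mul_of_nonneg_left h1 hδ.le
        linarith
      have k5 := hD w₀ b0 w₁ b1 e0 f0 (by linarith) (by linarith)
      have k6 : (1 - ε / 3) * ((1 - ε / 3) * μ) ≤ (1 - ε / 3) * (P w₁ w₁ - P w₀ w₀) :=
        mul_le_mul_of_nonneg_left k3 (by linarith)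
      have k7 := hm f3
      refine ⟨μ, μ0, by rw [hμ]; linarith, ?_⟩
      have k8 : 1 - μ = P w₀ w₀ := by rw [hμ]; ring
      rw [k8]
      have k9 : (1 - ε₀) * μ ≤ (1 - ε) * μ := mul_le_mul_of_nonneg_right (by linarith) μ0.le
      have k10 : (1 - ε) * μ ≤ (1 - ε / 3) * ((1 - ε / 3) * μ) := by
        have : 0 ≤ ε * μ := by positivity
        nlinarith [mul_nonneg (mul_nonneg hε0.le hε0.le) μ0.le]
      linarith
    · -- the threshold has a jump
      have hjmp := hj u hL hbad hcon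
      unfold ConT at hcon
      push Not at hcon
      obtain ⟨t, ht, hcon⟩ := hcon
      obtain ⟨η, hη, hjmp⟩ := hjmp (δ * t / 2) (by positivity)
      obtain ⟨κ, hκ⟩ : ∃ κ, κ = min η (δ * t / 4) := ⟨_, rfl⟩
      have hκ0 : 0 < κ := by rw [hκ]; exact lt_min hη (by positivity)
      have hκ1 : κ ≤ η := by rw [hκ]; exact min_le_left _ _
      have hκ2 : κ ≤ δ * t / 4 := by rw [hκ]; exact min_le_right _ _
      obtain ⟨w₀, b0, g1, g2⟩ := hW.exists_between (show max 0 (u - κ) < u from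
        max_lt hu (by linarith))
      have e0 := (le_max_left 0 (u - κ)).trans_lt g1
      have e1 := (le_max_right 0 (u - κ)).trans_lt g1
      obtain ⟨w₁, b1, g3, g4⟩ := hW.exists_between (show u < min 1 (u + κ) from
        lt_min hu1 (by linarith))
      have f0 := g4.trans_le (min_le_left _ _)
      have f1 := g4.trans_le (min_le_right _ _)
      have k1 := hjmp w₀ b0 w₁ b1 e0 (by linarith) g2 g3 (by linarith) f0.le
      have k2 := htop w₁ g3 f0.le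
      have k3 := hcon w₀ e0 g2
      obtain ⟨q0, q1⟩ := h0 w₀ e0 (by linarith)
      have k4 : δ * t ≤ δ * (P w₁ w₁ - P w₀ w₀) :=
        mul_le_mul_of_nonneg_left (by rw [k2]; exact k3) hδ.le
      have k5 := hD w₀ b0 w₁ b1 e0 (by linarith) f0.le (by linarith)
      rw [k2] at k5
      refine ⟨1 - P w₀ w₀, by linarith, by linarith, ?_⟩
      rw [sub_sub_cancel]
      refine le_trans (mul_le_mul_of_nonneg_right ?_ (by linarith)) k5
      linarith
  · -- a row without defect above it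
    unfold BadR at hbad
    push Not at hbad
    obtain ⟨Q, hQ0, hQ1, hQ⟩ := hbad
    intro ε hε
    refine ⟨1 - Q, by linarith, by linarith, ?_⟩
    rw [sub_sub_cancel]
    unfold nfr at hQ
    have : 0 ≤ ε * (1 - Q) := by
      have : 0 < 1 - Q := by linarith
      positivity
    linarith

end gen

section pk

open Finset Real
open Pool.Agent.H49.Ent Pool.Agent.H32.Dense Pool.STK Pool.KA Pool.KSAT Pool.K2S Pool.PB
open Pool.GEN Pool.S6C Pool.GRW Pool.PKG Pool.R1 Pool.NJ69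
open Pool.ONE (lst LocN Mic Sta Jmp)

/-- The volume in dimension two. -/
theorem vx_two {hn : 2 ≤ 2} {S : PCl 2} {P : ℝ → ℝ → ℝ} {r : ℝ → ℝ}
    {P' : ℕ → List (Fin 2) × Fin 2 → ℝ → ℝ → ℝ} {Λ : Finset (Fin 2) → Fin 2 → ℝ → ℝ → ℝ}
    (H : Pk hn S P r P' Λ) (hF : FZX (2 - 1)) {w : ℝ} (hw : Gwd P P' Λ w) :
    vx P P' Λ w = w := by
  rw [vx_eq H hF hw]
  obtain ⟨al, g₀, s, d, e, K₀, N, hal, hg₀, hC⟩ := H.cl
  have e0 : vol Λ w = vs Λ (fun i => bse (ow Λ w i)) w 1 := by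
    unfold vol
    show ∑ j : Fin 1, _ = _
    rw [Fin.sum_univ_one]
    rfl
  rw [e0, vs_one (show 0 < 2 - 1 by norm_num)]
  have h3 := hw.ow.1
  have e1 : bse (n := 2) (ow Λ w ⟨0, by omega⟩) = ⟨0, by omega⟩ := by
    refine Fin.ext ?_
    show ((ow Λ w ⟨0, by omega⟩ : Fin (2 - 1)) : ℕ) = 0
    exact h3 _ rfl
  rw [e1]
  exact H.lam.act hC.ne hal (hC.actm.q hg₀) (hC.actb _ rfl) H.pos hw.pos.le hw.lt

/-- The volume in dimension three. -/
theorem vx_three {hn : 2 ≤ 3} {S : PCl 3} {P : ℝ → ℝ → ℝ} {r : ℝ → ℝ}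
    {P' : ℕ → List (Fin 3) × Fin 3 → ℝ → ℝ → ℝ} {Λ : Finset (Fin 3) → Fin 3 → ℝ → ℝ → ℝ}
    (H : Pk hn S P r P' Λ) (hF : FZX (3 - 1)) {w : ℝ} (hw : Gwd P P' Λ w) :
    vx P P' Λ w = w + Λ {0} 1 w w := by
  rw [vx_eq H hF hw]
  obtain ⟨al, g₀, s, d, e, K₀, N, hal, hg₀, hC⟩ := H.cl
  have e0 : vol Λ w = vs Λ (fun i => bse (ow Λ w i)) w 1 +
      vs Λ (fun i => bse (ow Λ w i)) w 2 := by
    unfold vol
    show ∑ j : Fin 2, _ = _
    rw [Fin.sum_univ_two]
    rfl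
  have h3 := hw.ow.1
  have e1 : bse (n := 3) (ow Λ w ⟨0, by omega⟩) = 0 := by
    refine Fin.ext ?_
    show ((ow Λ w ⟨0, by omega⟩ : Fin (3 - 1)) : ℕ) = 0
    exact h3 _ rfl
  have e2 : bse (n := 3) (ow Λ w ⟨1, by omega⟩) = 1 := by
    refine Fin.ext ?_
    show ((ow Λ w ⟨1, by omega⟩ : Fin (3 - 1)) : ℕ) = 1
    have h4 : ((ow Λ w ⟨0, by omega⟩ : Fin (3 - 1)) : ℕ) = 0 := h3 _ rfl
    have h5 : ow Λ w ⟨1, by omega⟩ ≠ ow Λ w ⟨0, by omega⟩ := fun h => by
      have := (ow Λ w).injective h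
      simp at this
    have h6 : ((ow Λ w ⟨1, by omega⟩ : Fin (3 - 1)) : ℕ) < 2 := (ow Λ w ⟨1, by omega⟩).2
    have h7 : ((ow Λ w ⟨1, by omega⟩ : Fin (3 - 1)) : ℕ) ≠
        ((ow Λ w ⟨0, by omega⟩ : Fin (3 - 1)) : ℕ) := fun h => h5 (Fin.ext h)
    omega
  have hact : Λ ∅ (0 : Fin 3) w w = w :=
    H.lam.act hC.ne hal (hC.actm.q hg₀) (hC.actb _ rfl) H.pos hw.pos.le hw.lt
  rw [e0, vs_two (show 1 < 3 - 1 by norm_num), vs_one (show 0 < 3 - 1 by norm_num), e1, e2, hact]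

variable {n : ℕ} {hn : 2 ≤ n} {S : PCl n} {P : ℝ → ℝ → ℝ} {r : ℝ → ℝ}
  {P' : ℕ → List (Fin n) × Fin n → ℝ → ℝ → ℝ} {Λ : Finset (Fin n) → Fin n → ℝ → ℝ → ℝ}

/-- **The last rows of a package** from one falling level and the calmness of the volume. -/
theorem topW_vx (H : Pk hn S P r P' Λ) (hD : R1D P r (vx P P' Λ) (Wd P P' Λ))
    (hc : ∀ u, LastW P u → BadR r → ConT P u → CalmB (vx P P' Λ) (Wr P P' Λ) u)
    (hj : ∀ u, LastW P u → BadR r → ¬ ConT P u → NoJ (vx P P' Λ) (Wr P P' Λ) u) :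
    TopW P r := by
  have hlaw := H.tgs.law ()
  refine topW_of_calm H.rate.mono (wd_dense H) (fun w h0 h1 =>
      ⟨h0.le.trans (H.tgs.low () w w h0.le le_rfl h1), H.tgs.up () w w h0.le le_rfl h1⟩)
    (fun w w' h0 h1 h2 => hlaw.mono h0.le le_rfl h1 h1 le_rfl h2) hD
    (fun u a0 a1 a2 => ?_) fun u a0 a1 a2 t ht => ?_
  · obtain ⟨M, η, hη, h⟩ := hc u a0 a1 a2
    have hu := a0.2.1
    exact ⟨M, η, hη, fun w₀ b0 w₁ b1 c0 c1 c2 c3 =>
      h w₀ (wd_in b0 c0 (by linarith)) w₁ (wd_in b1 (by linarith) (by linarith)) c0 c1 c2 c3⟩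
  · obtain ⟨η, hη, h⟩ := hj u a0 a1 a2 t ht
    exact ⟨η, hη, fun w₀ b0 w₁ b1 c0 c1 c2 c3 c4 c5 =>
      h w₀ (wd_in b0 c0 (by linarith)) w₁ (wd_in b1 (by linarith) c5) c0 c1 c2 c3 c4 c5⟩

/-- **The last rows in dimension two.** -/
theorem topW_two (hG : GeoN 2) : LocN 2 TopW := by
  intro hn hZ al g₀ s d hal hg₀ hnum e K₀ N S₀ he hC P r hT hr
  obtain ⟨S, P', Λ, hs, hC', H⟩ := pk_ex hn hal hg₀ hC hT hr
  have hF : FZX (2 - 1) := hZ _ (by omega) (by omega)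
  refine topW_vx H (r1d_pk hG (fun k h1 h2 => by omega) hZ H
    ⟨al, g₀, s, d, e, K₀, N, hal, hg₀, hnum, he, hC'⟩) (fun u a0 a1 a2 => ?_)
    fun u a0 a1 a2 t ht => ?_
  · refine ⟨1, 1, one_pos, fun w₀ b0 w₁ b1 c0 c1 c2 c3 => ?_⟩
    rw [vx_two H hF b0.1, vx_two H hF b1.1]
    linarith
  · refine ⟨t / 2, by linarith, fun w₀ b0 w₁ b1 c0 c1 c2 c3 c4 c5 => ?_⟩
    rw [vx_two H hF b0.1, vx_two H hF b1.1]
    linarith

/-- **The last rows in dimension three**, from the calmness of the second coordinate. -/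
theorem topW_three (hG : GeoN 3) (hM : Mic 2 ∧ Sta 2 ∧ Jmp 2)
    (hin : ∀ {hn : 2 ≤ 3} {S : PCl 3} {P : ℝ → ℝ → ℝ} {r : ℝ → ℝ}
      {P' : ℕ → List (Fin 3) × Fin 3 → ℝ → ℝ → ℝ} {Λ : Finset (Fin 3) → Fin 3 → ℝ → ℝ → ℝ},
      (∀ k, 1 ≤ k → k < 3 → FZX k) → Pk hn S P r P' Λ → ∀ u, LastW P u → BadR r →
      (ConT P u → CalmB (fun w => Λ {0} 1 w w) (Wr P P' Λ) u) ∧
      (¬ ConT P u → NoJ (fun w => Λ {0} 1 w w) (Wr P P' Λ) u)) :
    LocN 3 TopW := by
  intro hn hZ al g₀ s d hal hg₀ hnum e K₀ N S₀ he hC P r hT hr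
  obtain ⟨S, P', Λ, hs, hC', H⟩ := pk_ex hn hal hg₀ hC hT hr
  have hF : FZX (3 - 1) := hZ _ (by omega) (by omega)
  refine topW_vx H (r1d_pk hG (fun k h1 h2 => by
      have h3 : k = 2 := by omega
      rw [h3]
      exact hM) hZ H
    ⟨al, g₀, s, d, e, K₀, N, hal, hg₀, hnum, he, hC'⟩) (fun u a0 a1 a2 => ?_)
    fun u a0 a1 a2 t ht => ?_
  · obtain ⟨M, η, hη, h⟩ := (hin hZ H u a0 a1).1 a2
    refine ⟨1 + M, η, hη, fun w₀ b0 w₁ b1 c0 c1 c2 c3 => ?_⟩
    rw [vx_three H hF b0.1, vx_three H hF b1.1]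
    have := h w₀ b0 w₁ b1 c0 c1 c2 c3
    simp only at this
    linarith
  · obtain ⟨η, hη, h⟩ := (hin hZ H u a0 a1).2 a2 (t / 2) (by linarith)
    refine ⟨min η (t / 4), lt_min hη (by linarith), fun w₀ b0 w₁ b1 c0 c1 c2 c3 c4 c5 => ?_⟩
    have e1 := min_le_left η (t / 4)
    have e2 := min_le_right η (t / 4)
    rw [vx_three H hF b0.1, vx_three H hF b1.1]
    have := h w₀ b0 w₁ b1 c0 (by linarith) c2 c3 (by linarith) c5
    simp only at this
    linarith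

end pk

end Pool.PM93
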