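import Pool.Agent.H5.M3F.Tim

/-!
# Closed polynomials which are small at the points

`rem_px`: finitely many polynomials of bounded degree, functions of the closed label, which are small
at the rounded points of an event, are small on the natural boxes, on half of the event, if the times
and the base are full given the label (entropic Remez inequality).
-/

set_option autoImplicit false

namespace Pool.PM93

open Finset Real MvPolynomial
open Pool.Agent.H49.Ent Pool.Agent.H32.Dense Pool.STK Pool.KA Pool.KSAT Pool.K2S Pool.PB Pool.GEN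
open Pool.STAT Pool.STAT.CLO Pool.M3F
open Pool.BFL (Pb Pl)

variable {m J : ℕ}

/-- **Closed polynomials which are small at the points are small on the natural boxes.** The
variables are `0, …, r`; `D j v`, `j < k`, are functions of the label. -/
theorem rem_px (r K k : ℕ) (ρ : ℝ) (hρ : 1 ≤ ρ) : ∃ C₀ : ℝ, 1 ≤ C₀ ∧
    ∀ (m J : ℕ) (F : Fam m J) (c : ℕ → Fin m)
    (W lam : ℕ) (g : ℕ → ℕ) (B : F.Ω → Prop) (V : Type) (z : PtT F → V)
    (P : V → ℕ → PN) (D : ℕ → V → PN) (τ : ℕ → V → ℝ) (e₁ e₂ : ℝ), 0 ≤ e₁ → 0 ≤ e₂ → W ≤ J →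
    (∀ v i, (P v i).totalDegree ≤ K) → (∀ v, TriN (P v)) →
    (∀ ω, B ω → P (z (ptr F J ω)) 0 = MvPolynomial.C ((F.T1 W ω : ℝ) / 2 ^ W)) →
    (∀ ω, B ω → ∀ i < r, |px c (ptr F J ω) (i + 1) -
      eval (px c (ptr F J ω)) (P (z (ptr F J ω)) (i + 1))| ≤ 1 / 2 ^ g i) →
    0 < Pe F.p B → W + lam ≤ J → (∀ i < r, g i + lam ≤ J) →
    ((J - W : ℕ) : ℝ) * Real.log 2 - e₁ ≤
      CH (Pool.Agent.H49.Ent.cond F.p B True) F.T (fun ω => z (ptr F J ω)) →
    (∑ i ∈ range r, ((J - g i : ℕ) : ℝ)) * Real.log 2 - e₂ ≤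
      CH (Pool.Agent.H49.Ent.cond F.p B True) (fun ω (i : Fin r) => F.X J ω (c i))
        (fun ω => (z (ptr F J ω), F.W ω)) →
    C₀ * (e₁ + e₂ + 1) ≤ lam * Real.log 2 →
    (∀ j v, (D j v).totalDegree ≤ K) → (∀ j v, (D j v).vars ⊆ range (r + 1)) →
    (∀ j v, 0 < τ j v) →
    (∀ ω, B ω → ∀ j < k, |eval (px c (ptr F J ω)) (D j (z (ptr F J ω)))| ≤
      τ j (z (ptr F J ω))) →
    ∃ B' : F.Ω → Prop, (∀ ω, B' ω → B ω) ∧ Pe F.p B ≤ 2 * Pe F.p B' ∧
      ∀ ω, B' ω → ∀ j < k, ∀ b : ℕ → ℝ, Bxr ρ (wid W g) (P (z (ptr F J ω))) (r + 1) b →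
        |eval b (D j (z (ptr F J ω)))| ≤
          Real.exp (C₀ * (e₁ + e₂ + 1)) * τ j (z (ptr F J ω)) := by
  classical
  obtain ⟨n, hn⟩ : ∃ n, n = r + 1 := ⟨_, rfl⟩
  obtain ⟨K₁, hK₁⟩ : ∃ K₁, K₁ = K * (K + 1) ^ (n + 1) := ⟨_, rfl⟩
  obtain ⟨C₁, hC₁, huni⟩ := Pool.UNJ.uni_core n K₁ (ρ + 1) (by linarith)
  have hl3 : 0 ≤ Real.log 3 := Real.log_nonneg (by norm_num)
  have hl5 : 0 ≤ Real.log 5 := Real.log_nonneg (by norm_num)
  obtain ⟨a, ha⟩ : ∃ a : ℝ, a = n * (Real.log 3 + Real.log 5) + 1 := ⟨_, rfl⟩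
  have ha1 : 1 ≤ a := by
    rw [ha]
    have : 0 ≤ n * (Real.log 3 + Real.log 5) := by positivity
    linarith
  obtain ⟨η, hη⟩ : ∃ η : ℝ, η = 1 / (2 * (k + 1)) := ⟨_, rfl⟩
  have hη0 : 0 < η := by
    rw [hη]
    positivity
  have hη1 : η ≤ 1 := by
    rw [hη, div_le_one (by positivity)]
    have := Nat.cast_nonneg (α := ℝ) k
    linarith
  have hCa : 1 ≤ C₁ * a / η := by
    rw [le_div_iff₀ hη0]
    nlinarith
  refine ⟨C₁ * a / η, hCa, ?_⟩
  intro m J F c W lam g B V z P D τ e₁ e₂ he₁ he₂ hW hdeg htri hzero hpos hB hlW hlg hT hY hlam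
    hDd₀ hDv hτ0 hsm
  have hq := isLaw_cond F.isLaw hB
  obtain ⟨p, hp⟩ : ∃ p, p = Pool.Agent.H49.Ent.cond F.p B True := ⟨_, rfl⟩
  rw [← hp] at hq hT hY
  have hq0 := hq.nonneg
  have hsupp : ∀ ω, 0 < p ω → B ω := fun ω hω => by
    rw [hp] at hω
    exact cond_supp hω
  obtain ⟨v, hv⟩ : ∃ v : F.Ω → V, v = fun ω => z (ptr F J ω) := ⟨_, rfl⟩
  have hv' : ∀ ω, v ω = z (ptr F J ω) := fun ω => by rw [hv]
  rw [← hv] at hT
  have hY' : (∑ i ∈ range r, ((J - g i : ℕ) : ℝ)) * Real.log 2 - e₂ ≤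
      CH p (fun ω (i : Fin r) => F.X J ω (c i)) (fun ω => (v ω, F.W ω)) := by
    rw [hv]
    exact hY
  -- the natural coordinates
  obtain ⟨Bn, hBn⟩ : ∃ Bn : F.Ω → Fin n → ℝ, Bn = fun ω (j : Fin n) =>
    nc (wid W g) (P (v ω)) (px c (ptr F J ω)) j := ⟨_, rfl⟩
  have hnc : ∀ ω, B ω → ∀ j < n, |nc (wid W g) (P (v ω)) (px c (ptr F J ω)) j| ≤ 1 := by
    intro ω hω j hj
    rw [nc_le]
    rcases Nat.eq_zero_or_pos j with rfl | hj0
    · rw [hv', hzero ω hω, eval_C, px_zero]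
      have : wid W g 0 = W := if_pos rfl
      rw [this]
      exact t_cell F hW ω
    · obtain ⟨j, rfl⟩ : ∃ j', j = j' + 1 := ⟨j - 1, by omega⟩
      have : wid W g (j + 1) = g j := if_neg (by omega)
      rw [this, hv']
      exact hpos ω hω j (by omega)
  -- the entropy
  obtain ⟨θ, hθ⟩ : ∃ θ, θ = e₁ + e₂ + n * (Real.log 3 + Real.log 5) := ⟨_, rfl⟩
  have hθ0 : 0 ≤ θ := by
    rw [hθ]
    positivity
  have hcel : ∀ (L' : ℕ) ω, Pool.UNJ.cel (fun i => (fun _ => 0 : Fin n → ℕ) i + L') (Bn ω) =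
      fun i : Fin n => ⌊(2 : ℝ) ^ (wid W g i + L') * (px c (ptr F J ω) i -
        eval (px c (ptr F J ω)) (P (v ω) i))⌋ := by
    intro L' ω
    funext i
    unfold Pool.UNJ.cel
    rw [hBn]
    show ⌊(2 : ℝ) ^ (0 + L') * nc (wid W g) (P (v ω)) (px c (ptr F J ω)) i⌋ = _
    unfold nc
    rw [zero_add, ← mul_assoc, ← pow_add, add_comm L']
  have hent : n * (lam * Real.log 2) - θ ≤ CH p
      (fun ω => Pool.UNJ.cel (fun i => (fun _ => 0 : Fin n → ℕ) i + lam) (Bn ω))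
      (fun ω => (Pool.UNJ.cel (fun _ => 0) (Bn ω), v ω)) := by
    subst hn
    have h1 := nd_ge (F := F) hq c (r := r) (W := W) id v P v (fun i => wid W g i + lam)
      (fun i hi => by
        show wid W g i + lam ≤ J
        rcases Nat.eq_zero_or_pos i with rfl | hi0
        · have : wid W g 0 = W := if_pos rfl
          rw [this]
          exact hlW
        · obtain ⟨i, rfl⟩ : ∃ j', i = j' + 1 := ⟨i - 1, by omega⟩
          have : wid W g (i + 1) = g i := if_neg (by omega)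
          rw [this]
          exact hlg i (by omega)) (fun _ _ _ _ h => h) htri (e₁ := e₁) hT hY'
    have h2 : (fun ω => Pool.UNJ.cel (fun i => (fun _ => 0 : Fin (r + 1) → ℕ) i + lam) (Bn ω)) =
        fun ω (i : Fin (r + 1)) => ⌊(2 : ℝ) ^ (wid W g i + lam) *
          (px c (ptr F J (id ω)) i - eval (px c (ptr F J (id ω))) (P (v ω) i))⌋ := by
      funext ω
      exact hcel lam ω
    rw [← h2] at h1
    have h3 := CH_le_add hq0
      (fun ω => Pool.UNJ.cel (fun i => (fun _ => 0 : Fin (r + 1) → ℕ) i + lam) (Bn ω))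
      (fun ω => Pool.UNJ.cel (fun _ => 0) (Bn ω)) v
    have h4 : CH p (fun ω => Pool.UNJ.cel (fun _ => 0) (Bn ω)) v ≤
        ∑ i ∈ range (r + 1), Real.log (2 * 2 + 1) := by
      refine Ful.ch_vec hq (fun ω => Pool.UNJ.cel (fun _ => 0) (Bn ω)) v (fun _ => 2) ?_
      intro i ω ω' hω hω' _ _
      have h5 := hnc ω (hsupp ω hω) i i.2
      have h6 := hnc ω' (hsupp ω' hω') i i.2
      have e5 : ∀ ω, Pool.UNJ.cel (fun _ => 0) (Bn ω) i =
          ⌊nc (wid W g) (P (v ω)) (px c (ptr F J ω)) i⌋ := by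
        intro ω
        unfold Pool.UNJ.cel
        rw [hBn]
        simp only [pow_zero, one_mul]
      rw [e5, e5]
      rw [abs_le] at h5 h6
      have g1 : (-1 : ℤ) ≤ ⌊nc (wid W g) (P (v ω)) (px c (ptr F J ω)) i⌋ := by
        rw [Int.le_floor]
        push_cast
        exact h5.1
      have g2 : ⌊nc (wid W g) (P (v ω)) (px c (ptr F J ω)) i⌋ ≤ 1 := by
        have := Int.floor_le (nc (wid W g) (P (v ω)) (px c (ptr F J ω)) i)
        have h7 : ((⌊nc (wid W g) (P (v ω)) (px c (ptr F J ω)) i⌋ : ℤ) : ℝ) ≤ ((1 : ℤ) : ℝ) := by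
          push_cast
          linarith [h5.2]
        exact_mod_cast h7
      have g3 : (-1 : ℤ) ≤ ⌊nc (wid W g) (P (v ω')) (px c (ptr F J ω')) i⌋ := by
        rw [Int.le_floor]
        push_cast
        exact h6.1
      have g4 : ⌊nc (wid W g) (P (v ω')) (px c (ptr F J ω')) i⌋ ≤ 1 := by
        have := Int.floor_le (nc (wid W g) (P (v ω')) (px c (ptr F J ω')) i)
        have h7 : ((⌊nc (wid W g) (P (v ω')) (px c (ptr F J ω')) i⌋ : ℤ) : ℝ) ≤
            ((1 : ℤ) : ℝ) := by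
          push_cast
          linarith [h6.2]
        exact_mod_cast h7
      have g5 : |⌊nc (wid W g) (P (v ω)) (px c (ptr F J ω)) i⌋ -
          ⌊nc (wid W g) (P (v ω')) (px c (ptr F J ω')) i⌋| ≤ 2 := by
        rw [abs_le]
        omega
      exact_mod_cast g5
    rw [Finset.sum_const, card_range, nsmul_eq_mul] at h4
    have e6 : (2 : ℝ) * 2 + 1 = 5 := by norm_num
    rw [e6] at h4
    -- the sum
    have h5 : ∑ i ∈ range (r + 1), (((J - (wid W g i + lam) : ℕ) : ℝ) * Real.log 2 +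
        Real.log 3) = ((J - W : ℕ) : ℝ) * Real.log 2 +
        (∑ i ∈ range r, ((J - g i : ℕ) : ℝ)) * Real.log 2 -
        (r + 1) * (lam * Real.log 2) + (r + 1) * Real.log 3 := by
      rw [Finset.sum_range_succ']
      have e7 : ((J - (wid W g 0 + lam) : ℕ) : ℝ) = ((J - W : ℕ) : ℝ) - lam := by
        have : wid W g 0 = W := if_pos rfl
        rw [this, ← Nat.sub_sub, Nat.cast_sub (by omega)]
      have e8 : ∀ i ∈ range r, (((J - (wid W g (i + 1) + lam) : ℕ) : ℝ) * Real.log 2 +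
          Real.log 3) = ((J - g i : ℕ) : ℝ) * Real.log 2 + (Real.log 3 - lam * Real.log 2) := by
        intro i hi
        have h9 := hlg i (mem_range.1 hi)
        have : wid W g (i + 1) = g i := if_neg (by omega)
        rw [this, ← Nat.sub_sub, Nat.cast_sub (by omega)]
        ring
      rw [Finset.sum_congr rfl e8, e7, Finset.sum_add_distrib, ← Finset.sum_mul,
        Finset.sum_const, card_range, nsmul_eq_mul]
      ring
    rw [h5] at h1
    have e9 : ((r + 1 : ℕ) : ℝ) = r + 1 := by push_cast; ring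
    rw [hθ, e9]
    rw [e9] at h4
    have e10 : ((r : ℝ) + 1) * (Real.log 3 + Real.log 5) =
        (r + 1) * Real.log 3 + (r + 1) * Real.log 5 := by ring
    rw [e10]
    linarith
  -- the polynomials
  obtain ⟨Dp, hDp⟩ : ∃ Dp : ℕ → V → MvPolynomial (Fin n) ℝ, Dp = fun j x =>
    rsn n (bind₁ (nuc (wid W g) (P x)) (D j x)) := ⟨_, rfl⟩
  have hvF : ∀ j x, (D j x).vars ⊆ range n := fun j x => by
    rw [hn]
    exact hDv j x
  have hDd : ∀ j x, (Dp j x).totalDegree ≤ K₁ := by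
    intro j x
    rw [hDp]
    refine (deg_rsn _ _).trans ?_
    have := (nat_deg (htri x) (hdeg x) (wid W g) le_rfl (hvF j x) (hDd₀ j x)).2
    rw [hK₁]
    exact this
  have hev : ∀ j x, ∀ y : ℕ → ℝ, eval (fun j : Fin n => y j) (Dp j x) =
      eval y (bind₁ (nuc (wid W g) (P x)) (D j x)) := by
    intro j x y
    rw [hDp]
    simp only
    rw [eval_rsn]
    refine eval_cg ((nat_deg (htri x) (hdeg x) (wid W g) le_rfl (hvF j x) (hDd₀ j x)).1) ?_
    intro i hi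
    rw [dif_pos hi]
  have hsmall : ∀ j < k, ∀ ω, B ω → |eval (Bn ω) (Dp j (v ω))| ≤ τ j (v ω) := by
    intro j hj ω hω
    have h1 : Bn ω = fun i : Fin n => nc (wid W g) (P (v ω)) (px c (ptr F J ω)) i := by
      rw [hBn]
    rw [h1, hev j (v ω), ← eval_nat (htri _), hv']
    exact hsm ω hω j hj
  have hle : C₁ * (θ + 1) / η ≤ C₁ * a / η * (e₁ + e₂ + 1) := by
    have h1 : θ + 1 ≤ a * (e₁ + e₂ + 1) := by
      rw [hθ, ha]
      have h2 : 0 ≤ n * (Real.log 3 + Real.log 5) := by positivity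
      nlinarith
    have h2 : C₁ * (θ + 1) / η ≤ C₁ * (a * (e₁ + e₂ + 1)) / η :=
      div_le_div_of_nonneg_right (mul_le_mul_of_nonneg_left h1 (by linarith)) hη0.le
    have h3 : C₁ * (a * (e₁ + e₂ + 1)) / η = C₁ * a / η * (e₁ + e₂ + 1) := by ring
    rwa [h3] at h2
  have hL1 : C₁ * (θ + 1) / η ≤ lam * Real.log 2 := hle.trans hlam
  have hgood : ∀ j < k, Pb p (fun ω => ¬ ∀ b : Fin n → ℝ,
      (∀ i, |b i - Bn ω i| ≤ (ρ + 1) / 2 ^ 0) →
      |eval b (Dp j (v ω))| ≤ Real.exp (C₁ * (θ + 1) / η) * τ j (v ω)) ≤ η := by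
    intro j hj
    have h1 := huni F.Ω V p lam (fun _ => 0) Bn v (Dp j) B (τ j) θ η hq (hDd j) hθ0 hη0
      hη1 (hτ0 j) hent (by
        rw [Pool.Agent.H25.BFL.Pb_eq_Pe]
        have h2 : Pe p (fun ω => ¬ B ω) = 0 := by
          rw [Pe_eq]
          refine Finset.sum_eq_zero fun ω _ => ?_
          by_cases h3 : B ω
          · exact if_neg (not_not.2 h3)
          · rw [if_pos h3]
            by_contra h4
            exact h3 (hsupp ω (lt_of_le_of_ne (hq0 ω) (Ne.symm h4)))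
        rw [h2]
        positivity) hL1 (hsmall j hj)
    exact h1
  -- the good event
  obtain ⟨Gd, hGd⟩ : ∃ Gd : F.Ω → Prop, Gd = fun ω => ∀ j < k, ∀ b : Fin n → ℝ,
      (∀ i, |b i - Bn ω i| ≤ (ρ + 1) / 2 ^ 0) →
      |eval b (Dp j (v ω))| ≤ Real.exp (C₁ * (θ + 1) / η) * τ j (v ω) := ⟨_, rfl⟩
  have hPbad : Pe p (fun ω => ¬ Gd ω) ≤ 1 / 2 := by
    have h1 : Pe p (fun ω => ¬ Gd ω) ≤ ∑ j ∈ range k, Pe p (fun ω => ¬ ∀ b : Fin n → ℝ,
      (∀ i, |b i - Bn ω i| ≤ (ρ + 1) / 2 ^ 0) →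
      |eval b (Dp j (v ω))| ≤ Real.exp (C₁ * (θ + 1) / η) * τ j (v ω)) := by
      refine Pe_union hq0 k (fun j ω => ¬ ∀ b : Fin n → ℝ,
        (∀ i, |b i - Bn ω i| ≤ (ρ + 1) / 2 ^ 0) →
        |eval b (Dp j (v ω))| ≤ Real.exp (C₁ * (θ + 1) / η) * τ j (v ω)) _ fun ω hω => ?_
      by_contra hcon
      push Not at hcon
      apply hω
      rw [hGd]
      intro j hj
      exact hcon j hj
    refine h1.trans ?_
    have h2 : ∀ j ∈ range k, Pe p (fun ω => ¬ ∀ b : Fin n → ℝ,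
        (∀ i, |b i - Bn ω i| ≤ (ρ + 1) / 2 ^ 0) →
        |eval b (Dp j (v ω))| ≤ Real.exp (C₁ * (θ + 1) / η) * τ j (v ω)) ≤ η := by
      intro j hj
      have h3 := hgood j (mem_range.1 hj)
      rwa [Pool.Agent.H25.BFL.Pb_eq_Pe] at h3
    refine (Finset.sum_le_sum h2).trans ?_
    rw [Finset.sum_const, card_range, nsmul_eq_mul, hη]
    have hk0 : (0 : ℝ) ≤ k := Nat.cast_nonneg k
    rw [mul_one_div, div_le_div_iff₀ (by positivity) (by norm_num)]
    linarith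
  have hPgood : 1 / 2 ≤ Pe p Gd := by
    have h1 : Pe p Gd + Pe p (fun ω => ¬ Gd ω) = 1 := by
      rw [Pe_eq, Pe_eq, ← Finset.sum_add_distrib, ← hq.sum_one]
      refine Finset.sum_congr rfl fun ω _ => ?_
      by_cases h2 : Gd ω
      · rw [if_pos h2, if_neg (not_not.2 h2), add_zero]
      · rw [if_neg h2, if_pos h2, zero_add]
    linarith
  refine ⟨fun ω => B ω ∧ Gd ω, fun ω hω => hω.1, ?_, ?_⟩
  · have h1 : Pe p Gd = Pe F.p (fun ω => B ω ∧ Gd ω) / Pe F.p B := by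
      rw [hp]
      exact Pool.K2S.Pe_cond Gd
    rw [h1, le_div_iff₀ hB] at hPgood
    linarith
  · intro ω hω j hj b hb
    have h2 := hω.2
    rw [hGd] at h2
    obtain ⟨y, hy⟩ : ∃ y : ℕ → ℝ, y = nc (wid W g) (P (v ω)) b := ⟨_, rfl⟩
    have h3 := h2 j hj (fun i : Fin n => y i) (fun i => by
      rw [hBn]
      simp only
      have h4 := hnc ω hω.1 i i.2
      have h5 : |y i| ≤ ρ := by
        rw [hy, hv', nc_le]
        exact hb i (by have := i.2; omega)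
      have e1 : (ρ + 1) / 2 ^ 0 = ρ + 1 := by norm_num
      rw [e1]
      rw [abs_le] at h4 h5 ⊢
      constructor <;> linarith [h4.1, h4.2, h5.1, h5.2])
    rw [hev, hy, ← eval_nat (htri _), hv'] at h3
    refine h3.trans (mul_le_mul_of_nonneg_right (Real.exp_le_exp.2 hle) (hτ0 j _).le)

end Pool.PM93
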