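import Pool.Agent.H93.PM.Afl
import Pool.Agent.H93.PM.Rem
import Pool.Agent.H5.M3F.Wgt
import Pool.Agent.H26.PM.Lab

/-!
# The coefficients of affine labels on rounded points

`slo_px`: if the base is full given the labels, the coefficients of an affine label of `c r` on the
rounded points are bounded by the derivatives of a closed label with derivatives, up to the
precisions. `rea_px`: so the affine label is an affine label at the exact points.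
-/

set_option autoImplicit false

namespace Pool.PM93

open Finset Real MvPolynomial
open Pool.Agent.H49.Ent Pool.Agent.H32.Dense Pool.STK Pool.KA Pool.KSAT Pool.K2S Pool.PB Pool.GEN
open Pool.STAT Pool.STAT.CLO Pool.M3F

variable {m J : ℕ}

theorem pd_afp {i l : ℕ} (hl : l ≤ i) (α : ℕ → ℝ) : pderiv l (afp i α) = C (α (l + 1)) := by
  classical
  unfold afp
  simp only [map_add, map_sum, pderiv_C_mul, pderiv_C, zero_add]
  rw [Finset.sum_eq_single l]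
  · rw [pderiv_X_self, mul_one]
  · intro j _ hj
    rw [pderiv_X_of_ne hj, mul_zero]
  · intro h
    exact absurd (mem_range.2 (by omega)) h

/-- **The coefficients of an affine label on the rounded points.** -/
theorem slo_px (r K : ℕ) (hK : 1 ≤ K) : ∃ C₀ : ℝ, 1 ≤ C₀ ∧
    ∀ (m J : ℕ) (F : Fam m J) (c : ℕ → Fin m) (W lam sg N Pq : ℕ) (g : ℕ → ℕ) (L : ℝ)
    (B : F.Ω → Prop) (V : Type) (z : PtT F → V) (z' : LnT F → V) (P : V → ℕ → PN) (V₂ : Type)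
    (z₂ : PtT F → V₂) (Q : V₂ → PN) (e₁ e₂ : ℝ), 0 ≤ e₁ → 0 ≤ e₂ → W ≤ J →
    NLabW F c r W sg g K L B z z' P → 0 ≤ L → (∀ v, IsAf r (Q v)) →
    (∀ ω, B ω → |px c (ptr F J ω) (r + 1) -
      eval (px c (ptr F J ω)) (Q (z₂ (ptr F J ω)))| ≤ 1 / 2 ^ Pq) →
    0 < Pe F.p B → W + lam ≤ J → (∀ i < r, g i + lam ≤ J) →
    ((J - W : ℕ) : ℝ) * Real.log 2 - e₁ ≤
      CH (Pool.Agent.H49.Ent.cond F.p B True) F.T
        (fun ω => (z (ptr F J ω), z₂ (ptr F J ω))) →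
    (∑ i ∈ range r, ((J - g i : ℕ) : ℝ)) * Real.log 2 - e₂ ≤
      CH (Pool.Agent.H49.Ent.cond F.p B True) (fun ω (i : Fin r) => F.X J ω (c i))
        (fun ω => ((z (ptr F J ω), z₂ (ptr F J ω)), F.W ω)) →
    C₀ * (e₁ + e₂ + 1) ≤ lam * Real.log 2 → W ≤ N → (∀ i < r, g i ≤ N) →
    ∃ B' : F.Ω → Prop, (∀ ω, B' ω → B ω) ∧ Pe F.p B ≤ 2 * Pe F.p B' ∧
      ∀ ω, B' ω → ∀ α : ℕ → ℝ, Q (z₂ (ptr F J ω)) = afp r α → ∀ l < r,
        |α (l + 2)| ≤ 2 ^ sg * (L + C₀ * (Real.exp (C₀ * (e₁ + e₂ + 1)) *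
          (1 / 2 ^ g r + 1 / 2 ^ J + 1 / 2 ^ (sg + Pq))) * 2 ^ N * (1 + L)) := by
  classical
  obtain ⟨C₁, hC₁, hrem⟩ := rem_px r K 1 1 le_rfl
  obtain ⟨C₂, hC₂, hpd⟩ := pd_nat (r + 1) K
  refine ⟨max C₁ C₂, hC₁.trans (le_max_left _ _), ?_⟩
  intro m J F c W lam sg N Pq g L B V z z' P V₂ z₂ Q e₁ e₂ he₁ he₂ hW hP hL hQ hown hB hlW hlg
    hT hY hlam hWN hgN
  obtain ⟨τ, hτ⟩ : ∃ τ : ℝ, τ = 1 / 2 ^ g r + 1 / 2 ^ J + 1 / 2 ^ (sg + Pq) := ⟨_, rfl⟩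
  have hτ0 : 0 < τ := by
    rw [hτ]
    positivity
  rw [← hτ]
  have psg : (0 : ℝ) < 2 ^ sg := by positivity
  obtain ⟨D, hD⟩ : ∃ D : ℕ → V × V₂ → PN, D = fun _ v =>
    P v.1 (r + 1) - C (1 / 2 ^ sg : ℝ) * Q v.2 := ⟨_, rfl⟩
  have hCQ : ∀ v, IsAf r (C (1 / 2 ^ sg : ℝ) * Q v) := fun v => (hQ v).smul _
  have hDd : ∀ j v, (D j v).totalDegree ≤ K := by
    intro j v
    rw [hD]
    exact (totalDegree_sub _ _).trans (max_le (hP.deg _ _) ((hCQ v.2).1.trans hK))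
  have hDv : ∀ j v, (D j v).vars ⊆ range (r + 1) := by
    intro j v
    rw [hD]
    exact AdxRow.vars_sub_le (hP.tri _ _) (hCQ v.2).2
  have hsm : ∀ ω, B ω → ∀ j < 1, |eval (px c (ptr F J ω))
      (D j (z (ptr F J ω), z₂ (ptr F J ω)))| ≤ τ := by
    intro ω hω j _
    rw [hD]
    dsimp only
    rw [map_sub, map_mul, eval_C]
    have h1 := hP.posN ω hω
    have h2 := hown ω hω
    obtain ⟨x, hx⟩ : ∃ x, x = px c (ptr F J ω) (r + 1) := ⟨_, rfl⟩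
    obtain ⟨y, hy⟩ : ∃ y, y = eval (px c (ptr F J ω)) (P (z (ptr F J ω)) (r + 1)) := ⟨_, rfl⟩
    obtain ⟨q, hq⟩ : ∃ q, q = eval (px c (ptr F J ω)) (Q (z₂ (ptr F J ω))) := ⟨_, rfl⟩
    rw [← hx, ← hy] at h1
    rw [← hx, ← hq] at h2
    rw [← hy, ← hq, hτ]
    have h3 : |(x - q) / 2 ^ sg| ≤ 1 / 2 ^ (sg + Pq) := by
      rw [abs_div, abs_of_pos psg, div_le_iff₀ psg]
      refine h2.trans (le_of_eq ?_)
      rw [pow_add]
      field_simp
    have e1 : y - 1 / 2 ^ sg * q = -(x / 2 ^ sg - y) + (x - q) / 2 ^ sg := by ring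
    rw [e1]
    refine (abs_add_le _ _).trans ?_
    rw [abs_neg]
    exact add_le_add h1 h3
  obtain ⟨B', b1, b2, b3⟩ := hrem m J F c W lam g B (V × V₂)
    (fun ξ => (z ξ, z₂ ξ)) (fun v => P v.1) D (fun _ _ => τ) e₁ e₂ he₁ he₂ hW
    (fun v => hP.deg v.1) (fun v => hP.tri v.1) hP.zero hP.pos hB hlW hlg hT hY
    ((mul_le_mul_of_nonneg_right (le_max_left _ _) (by positivity)).trans hlam) hDd hDv
    (fun _ _ => hτ0) hsm
  refine ⟨B', b1, b2, fun ω hω α hα l hl => ?_⟩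
  obtain ⟨S, hS⟩ : ∃ S : ℝ, S = Real.exp (max C₁ C₂ * (e₁ + e₂ + 1)) * τ := ⟨_, rfl⟩
  have hS0 : 0 ≤ S := by
    rw [hS]
    positivity
  rw [← hS]
  have hSle : Real.exp (C₁ * (e₁ + e₂ + 1)) * τ ≤ S := by
    rw [hS]
    refine mul_le_mul_of_nonneg_right (Real.exp_le_exp.2 ?_) hτ0.le
    exact mul_le_mul_of_nonneg_right (le_max_left _ _) (by positivity)
  have hbx : Bxr 1 (wid W g) (P (z (ptr F J ω))) (r + 1) (px c (ptr F J ω)) := by
    intro j hj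
    rcases Nat.eq_zero_or_pos j with rfl | hj0
    · rw [hP.zero ω (b1 ω hω), eval_C, px_zero]
      have : wid W g 0 = W := if_pos rfl
      rw [this]
      exact t_cell F hW ω
    · obtain ⟨j, rfl⟩ : ∃ j', j = j' + 1 := ⟨j - 1, by omega⟩
      have : wid W g (j + 1) = g j := if_neg (by omega)
      rw [this]
      exact hP.pos ω (b1 ω hω) j (by omega)
  have hbx4 : Bxr 4 (wid W g) (P (z (ptr F J ω))) (r + 1) (px c (ptr F J ω)) := by
    intro j hj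
    refine (hbx j hj).trans ?_
    exact div_le_div_of_nonneg_right (by norm_num) (by positivity)
  have h1 := hpd (P (z (ptr F J ω))) (wid W g) (D 0 (z (ptr F J ω), z₂ (ptr F J ω))) (r + 1) S L 1
    N (l + 1) (px c (ptr F J ω)) (hP.tri _) (hP.deg _) le_rfl (hDv _ _) (hDd _ _)
    (fun b hb => (b3 ω hω 0 one_pos b hb).trans hSle) le_rfl hbx hL
    (fun j hj1 hj2 => hP.grad ω (b1 ω hω) _ hbx4 j (by omega) (l + 1) hj1)
    (fun j hj1 hj2 => by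
      rcases Nat.eq_zero_or_pos j with rfl | hj0
      · omega
      · obtain ⟨j, rfl⟩ : ∃ j', j = j' + 1 := ⟨j - 1, by omega⟩
        have : wid W g (j + 1) = g j := if_neg (by omega)
        rw [this]
        exact hgN j (by omega))
  rw [one_pow, mul_one] at h1
  have h2 : eval (px c (ptr F J ω)) (pderiv (l + 1) (D 0 (z (ptr F J ω), z₂ (ptr F J ω)))) =
      eval (px c (ptr F J ω)) (pderiv (l + 1) (P (z (ptr F J ω)) (r + 1))) -
        1 / 2 ^ sg * α (l + 2) := by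
    rw [hD]
    dsimp only
    rw [hα, map_sub, pderiv_C_mul, pd_afp (by omega), map_sub, map_mul, eval_C, eval_C]
  have h3 := hP.grad ω (b1 ω hω) _ hbx4 (r + 1) le_rfl (l + 1) (by omega)
  rw [h2] at h1
  have h4 : |1 / 2 ^ sg * α (l + 2)| ≤ L + max C₁ C₂ * S * 2 ^ N * (1 + L) := by
    obtain ⟨x, hx⟩ : ∃ x, x = eval (px c (ptr F J ω))
      (pderiv (l + 1) (P (z (ptr F J ω)) (r + 1))) := ⟨_, rfl⟩
    rw [← hx] at h1 h3
    have e1 : (1 / 2 ^ sg * α (l + 2) : ℝ) = x - (x - 1 / 2 ^ sg * α (l + 2)) := by ring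
    rw [e1]
    refine (abs_sub _ _).trans (add_le_add h3 (h1.trans ?_))
    have h5 : C₂ * S ≤ max C₁ C₂ * S := mul_le_mul_of_nonneg_right (le_max_right _ _) hS0
    have h6 : (0 : ℝ) ≤ 2 ^ N := by positivity
    exact mul_le_mul_of_nonneg_right (mul_le_mul_of_nonneg_right h5 h6) (by linarith)
  rw [abs_mul, abs_of_pos (by positivity : (0 : ℝ) < 1 / 2 ^ sg)] at h4
  calc |α (l + 2)| = 2 ^ sg * (1 / 2 ^ sg * |α (l + 2)|) := by field_simp
    _ ≤ _ := mul_le_mul_of_nonneg_left h4 psg.le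

theorem px_near (F : Fam m J) (c : ℕ → Fin m) (l : ℕ) (ω : F.Ω) :
    |px c (ptr F J ω) (l + 1) - F.x ω (c l)| ≤ 1 / 2 ^ J := by
  have hr0 : (0 : ℝ) < 2 ^ J := by positivity
  have a1 := Int.floor_le ((2 : ℝ) ^ J * F.x ω (c l))
  have a2 := Int.lt_floor_add_one ((2 : ℝ) ^ J * F.x ω (c l))
  have e1 : px c (ptr F J ω) (l + 1) = ((⌊(2 : ℝ) ^ J * F.x ω (c l)⌋ : ℤ) : ℝ) / 2 ^ J :=
    px_succ c (ptr F J ω) l
  have e2 : ((⌊(2 : ℝ) ^ J * F.x ω (c l)⌋ : ℤ) : ℝ) / 2 ^ J - F.x ω (c l) =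
      (((⌊(2 : ℝ) ^ J * F.x ω (c l)⌋ : ℤ) : ℝ) - 2 ^ J * F.x ω (c l)) / 2 ^ J := by
    field_simp
  rw [e1, e2, abs_div, abs_of_pos hr0]
  refine div_le_div_of_nonneg_right ?_ hr0.le
  rw [abs_le]
  constructor <;> linarith

/-- **An affine label on the rounded points is near the exact points**, if its coefficients are
bounded. -/
theorem rea_px {F : Fam m J} {c : ℕ → Fin m} {r Pq Q' : ℕ} {α : ℕ → ℝ} {ω : F.Ω} {M : ℝ}
    (hM : 0 ≤ M) (hown : |px c (ptr F J ω) (r + 1) - eval (px c (ptr F J ω)) (afp r α)| ≤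
      1 / 2 ^ Pq) (hα : ∀ l < r, |α (l + 2)| ≤ M)
    (hQ : 1 / 2 ^ Pq + 1 / 2 ^ J + r * M / 2 ^ J ≤ (1 / 2 ^ Q' : ℝ)) :
    |F.x ω (c r) - eval (bt F ω) (Pool.PM26.aff c r α)| ≤ 1 / 2 ^ Q' := by
  have hx : ∀ l, |px c (ptr F J ω) (l + 1) - F.x ω (c l)| ≤ 1 / 2 ^ J := fun l =>
    px_near F c l ω
  rw [eval_afp, sum_range_succ', px_zero] at hown
  rw [Pool.PM26.eval_aff]
  have e1 : F.x ω (c r) - (α 0 + α 1 * bt F ω none + ∑ l ∈ range r, α (l + 2) *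
      bt F ω (some (c l))) = (px c (ptr F J ω) (r + 1) - (α 0 + (∑ k ∈ range r, α (k + 1 + 1) *
        px c (ptr F J ω) (k + 1) + α (0 + 1) * F.t ω))) -
      (px c (ptr F J ω) (r + 1) - F.x ω (c r)) +
      ∑ l ∈ range r, α (l + 2) * (px c (ptr F J ω) (l + 1) - F.x ω (c l)) := by
    have e2 : ∑ l ∈ range r, α (l + 2) * (px c (ptr F J ω) (l + 1) - F.x ω (c l)) =
        ∑ l ∈ range r, α (l + 1 + 1) * px c (ptr F J ω) (l + 1) -
          ∑ l ∈ range r, α (l + 2) * F.x ω (c l) := by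
      rw [← sum_sub_distrib]
      refine sum_congr rfl fun l _ => ?_
      ring
    rw [e2]
    show F.x ω (c r) - (α 0 + α 1 * F.t ω + ∑ l ∈ range r, α (l + 2) * F.x ω (c l)) = _
    ring
  rw [e1]
  have h3 : |∑ l ∈ range r, α (l + 2) * (px c (ptr F J ω) (l + 1) - F.x ω (c l))| ≤
      r * M / 2 ^ J := by
    refine (abs_sum_le_sum_abs _ _).trans ?_
    refine (sum_le_sum (g := fun _ => M * (1 / 2 ^ J)) fun l hl => ?_).trans (le_of_eq ?_)
    · rw [abs_mul]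
      exact mul_le_mul (hα l (mem_range.1 hl)) (hx l) (abs_nonneg _) hM
    · rw [sum_const, card_range, nsmul_eq_mul]
      ring
  refine ((abs_add_le _ _).trans (add_le_add ((abs_sub _ _).trans (add_le_add hown (hx r)))
    h3)).trans hQ

end Pool.PM93
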