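import Pool.Agent.H93.PM.Anu

/-!
# The threshold of the affine labels is at most the threshold of the labels

`afl_le`: in a class with closed labels with derivatives and a full base at the window `w`, the
threshold of the affine labels of `c r` on the rounded points at `w` is at most the threshold of all
labels of `c r` at `w`.
-/

set_option autoImplicit false

namespace Pool.PM93

open Finset Real MvPolynomial
open Pool.Agent.H49.Ent Pool.Agent.H32.Dense Pool.STK Pool.KA Pool.KSAT Pool.K2S Pool.PB Pool.GEN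
open Pool.STAT Pool.STAT.CLO Pool.M3F Pool.S6C
open Pool.LBT (ThrOf)
open Pool.ONE (tgs)
open Pool.GRW (TmWn)

variable {m J : ℕ}

/-- **The threshold of the affine labels is at most the threshold of the labels.** -/
theorem afl_le {S : PCl m} (hS : S.Ne) {c : ℕ → Fin m} {r : ℕ} {p : ℝ → ℝ} (hp : AflOf S c r p)
    {Pt : ℝ → ℝ → ℝ} (hPt : ThrOf (tgs (c r)) S (fun _ => Pt))
    (hinj : Set.InjOn c (Set.Iio (r + 1))) {w γ σ : ℝ} {β : ℕ → ℝ} {K : ℕ} (hK : 1 ≤ K)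
    (hw : 0 < w) (hγ : 0 < γ) (hwγ : w + γ ≤ 1) (hβ : ∀ l < r, β l + γ ≤ 1) (hσ0 : 0 ≤ σ)
    (hσ : Pt w w + σ + γ ≤ 1)
    (hup : ∀ ε : ℝ, 0 < ε → ∃ w', w < w' ∧ w' ≤ 1 ∧ Pt w' w' ≤ Pt w w + ε)
    (hlab : ∀ δ : ℝ, 0 < δ → ∃ K₁ : ℝ, 0 < K₁ ∧ Bas S (fun J F A => ∃ (B : F.Ω → Prop) (sg : ℕ)
      (g : ℕ → ℕ) (L : ℝ) (V : Type) (z : PtT F → V) (z' : LnT F → V) (P : V → ℕ → PN),
      Sub B A ∧ Pe F.p A ≤ K₁ * Pe F.p B ∧ (∀ l < r, |(g l : ℝ) - β l * J| ≤ δ * J) ∧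
      (sg : ℝ) ≤ (σ + δ) * J ∧ (Pt w w + σ - δ) * J ≤ g r ∧ 0 ≤ L ∧
      Real.log (1 + L) ≤ δ * J ∧ NLabW F c r ⌊w * J⌋₊ sg g K L B z z' P))
    (htm : TmWn S w) (hex : ∀ ρ : ℝ, 0 < ρ → ExvY S w (fun J F ω (i : Fin r) => F.X J ω (c i))
      ((∑ l ∈ range r, (1 - β l)) - ρ)) : p w ≤ Pt w w := by
  classical
  by_contra hcon
  push Not at hcon
  obtain ⟨Pz, hPz⟩ : ∃ Pz, Pz = Pt w w := ⟨_, rfl⟩
  rw [← hPz] at hcon hσ hlab hup
  have hw1 : w ≤ 1 := by linarith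
  have hPzw : w ≤ Pz := by
    rw [hPz]
    exact hPt.low () w w hw.le le_rfl hw1
  obtain ⟨h, hh⟩ : ∃ h, h = min ((p w - Pz) / 6) (γ / 6) := ⟨_, rfl⟩
  have hh0 : 0 < h := by
    rw [hh]
    exact lt_min (by linarith) (by linarith)
  have hh1 : 6 * h ≤ p w - Pz := by
    rw [hh]
    have := min_le_left ((p w - Pz) / 6) (γ / 6)
    linarith
  have hh2 : 6 * h ≤ γ := by
    rw [hh]
    have := min_le_right ((p w - Pz) / 6) (γ / 6)
    linarith
  obtain ⟨w', hw', hw'1, hup⟩ := hup h hh0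
  obtain ⟨W, hW1, hW2⟩ := exists_rat_btwn hw'
  have hW1' : (W : ℝ) ≤ 1 := hW2.le.trans hw'1
  have hPW : Pt W W ≤ Pz + h := by
    refine le_trans ?_ hup
    exact (hPt.law ()).mono (hw.le.trans hW1.le) le_rfl hW2.le hW2.le le_rfl hw'1
  obtain ⟨δ₀, hδ₀, haff⟩ := Pool.PM26.aff_ev c r hinj hPt 1 le_rfl W h
    (by exact_mod_cast (hw.le.trans hW1.le)) (by exact_mod_cast hW1') hh0 (by linarith)
  obtain ⟨C₀, hC₀, hslo⟩ := slo_px r K hK
  have hr0 : (0 : ℝ) ≤ r := Nat.cast_nonneg r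
  obtain ⟨δ, hδ⟩ : ∃ δ : ℝ, δ = h / (128 * C₀ * (r + 2)) := ⟨_, rfl⟩
  have hδ0 : 0 < δ := by
    rw [hδ]
    positivity
  have hδκ : 128 * (C₀ * (r + 2) * δ) = h := by
    rw [hδ]
    field_simp
  have hCr : 1 ≤ C₀ * (r + 2) := by nlinarith
  have hδh : δ ≤ h / 128 := by nlinarith
  obtain ⟨κ, hκ⟩ : ∃ κ, κ = C₀ * (r + 2) * δ := ⟨_, rfl⟩
  have hκ0 : 0 ≤ κ := by
    rw [hκ]
    positivity
  have hκh : κ ≤ h / 64 := by
    rw [hκ]
    linarith
  obtain ⟨K₁, hK₁, hlab⟩ := hlab δ hδ0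
  obtain ⟨k₂, hk₂, hfull⟩ := Ful.bas_events ((htm δ hδ0).and (hex δ hδ0))
  have hatt := hp.att w h hw hw1 hh0 (by linarith)
  -- large resolutions
  obtain ⟨J₁, hJ₁⟩ := exists_nat_ge (8 * (Real.log (20 * (r + 1) * C₀) + C₀ + 2) / h)
  obtain ⟨J₂, hJ₂⟩ := exists_nat_ge (1 / w)
  obtain ⟨J₃, hJ₃⟩ := exists_nat_ge (8 * (C₀ + 1) / γ)
  obtain ⟨J₄, hJ₄⟩ := exists_nat_ge (Real.log K₁ / k₂)
  obtain ⟨J₅, hJ₅⟩ := exists_nat_ge ((Real.log (2 * K₁) + 1) / δ₀)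
  refine Clp.not_false hS (Clp.mono (J₂ := max (max J₁ J₂) (max (max J₃ J₄) J₅))
    (((haff.and hlab).and (hfull.and hatt)).clp) ?_)
  rintro J hJ F A ⟨⟨haff, B, sg, g, L, V, z, z', P, b1, b2, b3, b4, b5, b6, b7, b8⟩,
    ⟨hfull, V₂, z₂, z₂', Q, q1, q2, q3⟩⟩
  have hJm : ∀ {n : ℕ} {x : ℝ}, x ≤ n → n ≤ max (max J₁ J₂) (max (max J₃ J₄) J₅) → x ≤ J := by
    intro n x hx hn
    exact hx.trans (by exact_mod_cast hn.trans hJ)
  have j1 := hJm hJ₁ (by simp)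
  have j2 := hJm hJ₂ (by simp)
  have j3 := hJm hJ₃ (by simp)
  have j4 := hJm hJ₄ (by simp)
  have j5 := hJm hJ₅ (by simp)
  rw [div_le_iff₀ hh0] at j1
  rw [div_le_iff₀ hw] at j2
  rw [div_le_iff₀ hγ] at j3
  rw [div_le_iff₀ hk₂] at j4
  rw [div_le_iff₀ hδ₀] at j5
  have hJ0 : (0 : ℝ) ≤ J := Nat.cast_nonneg J
  obtain ⟨W₀, hW₀⟩ : ∃ W₀, W₀ = ⌊w * (J : ℝ)⌋₊ := ⟨_, rfl⟩
  rw [← hW₀] at b8 hfull q2
  have hW₀le : (W₀ : ℝ) ≤ w * J := by
    rw [hW₀]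
    exact Nat.floor_le (by positivity)
  have hW₀1 : 1 ≤ W₀ := by
    rw [hW₀]
    exact Nat.le_floor (by push_cast; linarith)
  have hW₀J : W₀ ≤ J := by
    rw [hW₀]
    exact Nat.floor_le_of_le (by nlinarith)
  -- the event `B` is large
  have hexp : Real.exp (-(k₂ * J)) * Pe F.p A ≤ Pe F.p B := by
    have h1 : K₁ * Real.exp (-(k₂ * J)) ≤ 1 := by
      have h2 : K₁ = Real.exp (Real.log K₁) := (Real.exp_log hK₁).symm
      rw [h2, ← Real.exp_add, Real.exp_le_one_iff]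
      linarith
    have h3 := mul_le_mul_of_nonneg_left b2 (Real.exp_pos (-(k₂ * J))).le
    have h4 : Real.exp (-(k₂ * J)) * (K₁ * Pe F.p B) ≤ 1 * Pe F.p B := by
      rw [← mul_assoc, mul_comm (Real.exp _) K₁]
      exact mul_le_mul_of_nonneg_right h1 (Pe_nonneg F.isLaw B)
    linarith
  obtain ⟨⟨hB, hT⟩, hV⟩ := hfull B b1 hexp
  have hA : 0 < Pe F.p A := lt_of_lt_of_le hB (Pe_mono F.isLaw b1)
  have hq := isLaw_cond F.isLaw hB
  have hsupp : ∀ ω, 0 < Pool.Agent.H49.Ent.cond F.p B True ω → B ω := fun ω hω => cond_supp hω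
  obtain ⟨l2, hl2⟩ : ∃ l2, l2 = Real.log 2 := ⟨_, rfl⟩
  have l2a : 1 / 2 ≤ l2 := by
    rw [hl2]
    have := Real.log_two_gt_d9
    linarith
  have l2b : l2 ≤ 1 := by
    rw [hl2]
    have := Real.log_two_lt_d9
    linarith
  have hcls : ∀ ω, B ω → (z (ptr F J ω), z₂ (ptr F J ω)) =
      (z' (slam F W₀ ω), z₂' (slam F W₀ ω)) := fun ω hω => by
    rw [b8.cls ω hω, q2 ω (b1 ω hω)]
  -- the time
  have hTime : ((J - W₀ : ℕ) : ℝ) * Real.log 2 - δ * J ≤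
      CH (Pool.Agent.H49.Ent.cond F.p B True) F.T
        (fun ω => (z (ptr F J ω), z₂ (ptr F J ω))) := by
    have h1 := hT (J - W₀) (by omega)
    have h2 : W₀ + (J - W₀) = J := by omega
    rw [h2] at h1
    have h3 : F.T1 J = F.T := by
      funext ω
      show F.T ω / 2 ^ (J - J) = F.T ω
      rw [Nat.sub_self, pow_zero, Nat.div_one]
    rw [h3] at h1
    refine h1.trans (CH_mono_cond hq.nonneg fun ω ω' hω hω' h => ?_)
    rw [hcls ω (hsupp ω hω), hcls ω' (hsupp ω' hω'), h]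
  -- the base
  have hBase : (∑ i ∈ range r, ((J - g i : ℕ) : ℝ)) * Real.log 2 - (r + 1) * (δ * J) ≤
      CH (Pool.Agent.H49.Ent.cond F.p B True) (fun ω (i : Fin r) => F.X J ω (c i))
        (fun ω => ((z (ptr F J ω), z₂ (ptr F J ω)), F.W ω)) := by
    have h1 := hV (V × V₂) (fun ξ => (z ξ, z₂ ξ)) (fun s => (z' s, z₂' s)) hcls
    have h2 : CH (Pool.Agent.H49.Ent.cond F.p B True) (fun ω (i : Fin r) => F.X J ω (c i))
        (fun ω => ((z' (slam F W₀ ω), z₂' (slam F W₀ ω)), F.W ω)) ≤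
        CH (Pool.Agent.H49.Ent.cond F.p B True) (fun ω (i : Fin r) => F.X J ω (c i))
        (fun ω => ((z (ptr F J ω), z₂ (ptr F J ω)), F.W ω)) := by
      refine CH_mono_cond hq.nonneg fun ω ω' hω hω' h => ?_
      rw [hcls ω (hsupp ω hω), hcls ω' (hsupp ω' hω')]
      exact h
    have h3 : (∑ i ∈ range r, ((J - g i : ℕ) : ℝ)) ≤
        (∑ l ∈ range r, (1 - β l)) * J + r * (δ * J) := by
      rw [Finset.sum_mul]
      have h4 : (r : ℝ) * (δ * J) = ∑ l ∈ range r, δ * (J : ℝ) := by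
        rw [sum_const, card_range, nsmul_eq_mul]
      rw [h4, ← sum_add_distrib]
      refine sum_le_sum fun l hl => ?_
      have h5 := abs_le.1 (b3 l (mem_range.1 hl))
      have h6 : ((J - g l : ℕ) : ℝ) ≤ max 0 ((J : ℝ) - g l) := by
        rcases le_total (g l) J with h7 | h7
        · rw [Nat.cast_sub h7]
          exact le_max_right _ _
        · rw [Nat.sub_eq_zero_of_le h7]
          push_cast
          exact le_max_left _ _
      refine h6.trans (max_le ?_ (by linarith [h5.1]))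
      have h8 := hβ l (mem_range.1 hl)
      have h9 : 0 ≤ (1 - β l) * J := mul_nonneg (by linarith) hJ0
      have h10 : 0 ≤ δ * J := by positivity
      linarith
    have h4 : ((∑ l ∈ range r, (1 - β l)) - δ) * Real.log 2 * J ≤ _ := h1.trans h2
    refine le_trans ?_ h4
    rw [← hl2] at *
    have h5 : (∑ i ∈ range r, ((J - g i : ℕ) : ℝ)) * l2 ≤
        ((∑ l ∈ range r, (1 - β l)) * J + r * (δ * J)) * l2 :=
      mul_le_mul_of_nonneg_right h3 (by linarith)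
    have h6 : (r + 1) * (δ * J) * l2 ≤ (r + 1) * (δ * J) := by
      have : 0 ≤ (r + 1) * (δ * (J : ℝ)) := by positivity
      nlinarith
    nlinarith
  -- the numbers
  obtain ⟨lam, hlam⟩ : ∃ lam, lam = ⌊γ / 2 * (J : ℝ)⌋₊ := ⟨_, rfl⟩
  have hlam1 : (lam : ℝ) ≤ γ / 2 * J := by
    rw [hlam]
    exact Nat.floor_le (by positivity)
  have hlam2 : γ / 2 * J - 1 ≤ lam := by
    rw [hlam]
    exact (Nat.sub_one_lt_floor _).le
  obtain ⟨N, hN⟩ : ∃ N, N = ⌊(1 - γ / 2) * (J : ℝ)⌋₊ := ⟨_, rfl⟩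
  have hγ1 : γ ≤ 1 := by linarith
  have hN1 : (N : ℝ) ≤ (1 - γ / 2) * J := by
    rw [hN]
    exact Nat.floor_le (mul_nonneg (by linarith) hJ0)
  have hδγ : δ ≤ γ / 4 := by linarith
  have hWN : W₀ ≤ N := by
    rw [hN]
    refine Nat.le_floor ?_
    nlinarith
  have hgN : ∀ i < r, g i ≤ N := by
    intro i hi
    rw [hN]
    refine Nat.le_floor ?_
    have h5 := abs_le.1 (b3 i hi)
    have h6 := hβ i hi
    nlinarith [h5.2]
  have hlW : W₀ + lam ≤ J := by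
    have : ((W₀ + lam : ℕ) : ℝ) ≤ J := by
      push_cast
      nlinarith
    exact_mod_cast this
  have hlg : ∀ i < r, g i + lam ≤ J := by
    intro i hi
    have h5 := abs_le.1 (b3 i hi)
    have h6 := hβ i hi
    have : ((g i + lam : ℕ) : ℝ) ≤ J := by
      push_cast
      nlinarith [h5.2]
    exact_mod_cast this
  have hee : C₀ * (δ * J + (r + 1) * (δ * J) + 1) = κ * J + C₀ := by
    rw [hκ]
    ring
  obtain ⟨B', c1, c2, c3⟩ := hslo m J F c W₀ lam sg N ⌊(p w - h) * J⌋₊ g L B V z z' P V₂ z₂ Q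
    (δ * J) ((r + 1) * (δ * J)) (by positivity) (by positivity) hW₀J b8 b6 q1
    (fun ω hω => q3 ω (b1 ω hω)) hB hlW hlg hTime hBase (by
      rw [hee, ← hl2]
      have h1 : κ * J ≤ h / 64 * J := mul_le_mul_of_nonneg_right hκh hJ0
      have h2 : h * J ≤ γ / 6 * J := mul_le_mul_of_nonneg_right (by linarith) hJ0
      have h3 : (γ / 2 * J - 1) * l2 ≤ lam * l2 := mul_le_mul_of_nonneg_right hlam2 (by linarith)
      have h4 : 0 ≤ γ * J := by positivity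
      nlinarith) hWN hgN
  rw [hee] at c3
  -- the label at the exact points
  obtain ⟨Q', hQ'⟩ : ∃ Q', Q' = ⌊(Pz + 2 * h) * (J : ℝ)⌋₊ := ⟨_, rfl⟩
  have hQ'1 : (Q' : ℝ) ≤ (Pz + 2 * h) * J := by
    rw [hQ']
    exact Nat.floor_le (mul_nonneg (by linarith) hJ0)
  have hnum := num_px (x := 0) (r := r) (Q' := Q') (ee := κ * J + C₀) hC₀ hh0 hδ0.le hδh hκh hh2 hσ hσ0
    (by linarith) b4 hN1 (by
      have h1 := (Nat.sub_one_lt_floor ((p w - h) * (J : ℝ))).le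
      refine le_trans ?_ h1
      have h2 : (Pz + 5 * h) * J ≤ (p w - h) * J := mul_le_mul_of_nonneg_right (by linarith) hJ0
      linarith) hQ'1 b5 b6 b7 le_rfl (by linarith)
  choose α hα using fun v => IsAf.eq (i := r) (Q := Q v) (q1 v)
  obtain ⟨G, H, hch⟩ := tri_ch F hW₀1 hW₀J c r B'
  have hfin := haff W₀ W₀ 0 Q' (fun _ => 0) (fun _ => 0) G H (fun y => α (z₂ y))
    (fun s => α (z₂' s)) le_rfl (by
      rw [hW₀]
      exact Nat.floor_le_floor (mul_le_mul_of_nonneg_right hW1.le hJ0)) (fun _ _ => Nat.zero_le _)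
    (fun _ _ => Nat.zero_le _) (by
      have : (Q' : ℝ) ≤ J := hQ'1.trans (by nlinarith)
      exact_mod_cast this) (by
      have h1 : ⌊(Pt W W + h) * (J : ℝ)⌋₊ ≤ Q' := by
        rw [hQ']
        exact Nat.floor_le_floor (mul_le_mul_of_nonneg_right (by linarith) hJ0)
      have h2 : W₀ ≤ ⌊(W : ℝ) * J⌋₊ := by
        rw [hW₀]
        exact Nat.floor_le_floor (mul_le_mul_of_nonneg_right hW1.le hJ0)
      omega) B' (fun ω hω => b1 ω (c1 ω hω)) hch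
    (fun ω hω => by
      have h1 := q3 ω (b1 ω (c1 ω hω))
      rw [hα] at h1
      exact rea_px (by positivity) h1 (fun l hl => c3 ω hω _ (hα _) l hl) hnum)
    (fun ω hω b _ => by
      have h1 : z₂ (ptr F J ω) = z₂' (slam F W₀ ω) := q2 ω (b1 ω (c1 ω hω))
      rw [h1, sub_self, abs_zero]
      positivity)
  have h1 : Pe F.p A ≤ K₁ * (2 * (Real.exp (-(δ₀ * J)) * Pe F.p A)) :=
    b2.trans (mul_le_mul_of_nonneg_left (c2.trans (mul_le_mul_of_nonneg_left hfin (by norm_num)))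
      hK₁.le)
  have h2 : 1 ≤ 2 * K₁ * Real.exp (-(δ₀ * J)) := by
    have h3 : 1 * Pe F.p A ≤ 2 * K₁ * Real.exp (-(δ₀ * J)) * Pe F.p A := by linarith
    exact le_of_mul_le_mul_right h3 hA
  have h3 : 2 * K₁ * Real.exp (-(δ₀ * J)) < 1 := by
    have h4 : 2 * K₁ = Real.exp (Real.log (2 * K₁)) := (Real.exp_log (by positivity)).symm
    rw [h4, ← Real.exp_add, Real.exp_lt_one_iff]
    linarith
  linarith

end Pool.PM93
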