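import Pool.Agent.H93.PM.Ale
import Pool.Agent.H53.JM.Lab2

/-!
# The threshold of the affine labels, with the labels of one window

`afl_lbx`: `afl_le` from the conclusion of `Pool.JPN.labx`.
-/

set_option autoImplicit false

namespace Pool.PM93

open Finset Real MvPolynomial
open Pool.Agent.H49.Ent Pool.Agent.H32.Dense Pool.STK Pool.KA Pool.KSAT Pool.K2S Pool.PB Pool.GEN
open Pool.STAT Pool.STAT.CLO Pool.M3F Pool.S6C
open Pool.LBT (ThrOf)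
open Pool.ONE (tgs)
open Pool.GRW (TmWn)
open Pool.JPN (LbX)

variable {m J : ℕ}

/-- **The threshold of the affine labels is at most the threshold of the labels**, from the labels
of one window. `bt l`: the numbers of the base; `cD`: the margin. -/
theorem afl_lbx {S : PCl m} (hS : S.Ne) {c : ℕ → Fin m} {r : ℕ} {p : ℝ → ℝ}
    (hp : AflOf S c r p) {Pt : ℝ → ℝ → ℝ} (hPt : ThrOf (tgs (c r)) S (fun _ => Pt))
    (hinj : Set.InjOn c (Set.Iio (r + 1))) {w cD EE : ℝ} {bt : ℕ → ℝ} {D sh sh₂ K' Dq : ℕ}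
    {S₀ E₀ : ℝ} (hK' : 1 ≤ K') (hw : 0 < w) (hcD : 0 < cD) (hwc : w + cD / 2 ≤ 1)
    (hb : ∀ l < r, bt l + cD / 2 ≤ 1) (hPc : Pt w w + cD / 2 ≤ 1)
    (hup : ∀ ε : ℝ, 0 < ε → ∃ w', w < w' ∧ w' ≤ 1 ∧ Pt w' w' ≤ Pt w w + ε)
    (hlab : ∀ δ : ℝ, 0 < δ → ∃ K₁ : ℝ, 0 < K₁ ∧ Bas S (fun J F A => ∃ B : F.Ω → Prop, Sub B A ∧
      Pe F.p A ≤ K₁ * Pe F.p B ∧ LbX F c r ⌊w * J⌋₊ ⌊(1 - cD / 2 - Pt w w) * J⌋₊ D sh sh₂ K' Dq
        S₀ E₀ bt (Pt w w) (1 - cD / 2) EE δ B))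
    (htm : TmWn S w) (hex : ∀ ρ : ℝ, 0 < ρ → ExvY S w (fun J F ω (i : Fin r) => F.X J ω (c i))
      ((∑ l ∈ range r, (1 - bt l)) - ρ)) : p w ≤ Pt w w := by
  refine afl_le hS hp hPt hinj (γ := cD / 2) (σ := 1 - cD / 2 - Pt w w) (β := bt) hK' hw
    (by linarith) hwc hb (by linarith) (by linarith) hup (fun δ hδ => ?_) htm hex
  obtain ⟨K₁, hK₁, hb⟩ := hlab (δ / 2) (by linarith)
  obtain ⟨J₁, hJ₁⟩ := exists_nat_ge (2 * (sh : ℝ) / δ)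
  refine ⟨K₁, hK₁, hb.mono J₁ ?_⟩
  rintro J hJ F A ⟨B, b1, b2, e, EN, kk, g, g₁, g₂, L, G, H, V, z, z', Pv, Qv, T, kf, n, l⟩
  have hJ' : (J₁ : ℝ) ≤ J := by exact_mod_cast hJ
  have hJ0 : (0 : ℝ) ≤ J := Nat.cast_nonneg J
  have j1 := hJ₁.trans hJ'
  rw [div_le_iff₀ hδ] at j1
  have hδJ : 0 ≤ δ * (J : ℝ) := by positivity
  refine ⟨B, _, g₂, L, V, z, z', Pv, b1, b2, fun i hi => ?_, ?_, ?_, n.L0, ?_, l.nlab⟩
  · have h1 := abs_le.1 (n.gV i hi)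
    have h2 : (g₂ i : ℝ) + sh = g i := by exact_mod_cast n.g2 i hi
    rw [abs_le]
    constructor
    · linarith [h1.1]
    · have : (0 : ℝ) ≤ sh := Nat.cast_nonneg sh
      linarith [h1.2]
  · refine (Nat.floor_le (mul_nonneg (by linarith) hJ0)).trans ?_
    exact mul_le_mul_of_nonneg_right (by linarith) hJ0
  · refine le_trans ?_ n.g2l
    exact mul_le_mul_of_nonneg_right (by linarith) hJ0
  · refine n.logL.trans ?_
    exact mul_le_mul_of_nonneg_right (by linarith) hJ0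

end Pool.PM93
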