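import Pool.Agent.H93.PM.Afs
import Pool.Agent.H45.EXA.Nbc
import Pool.Agent.H39.S6C.Full

/-!
# The trivial chain, and the numbers of `afl_le`
-/

set_option autoImplicit false

namespace Pool.PM93

open Finset Real MvPolynomial
open Pool.Agent.H49.Ent Pool.Agent.H32.Dense Pool.STK Pool.KA Pool.KSAT Pool.K2S Pool.PB Pool.GEN
open Pool.STAT Pool.STAT.CLO Pool.M3F Pool.S6C
open Pool.LBT (ThrOf)
open Pool.ONE (tgs)
open Pool.GRW (TmWn)

variable {m J : ℕ}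

/-- **The trivial chain**: constant labels, precision `1`. -/
theorem tri_ch (F : Fam m J) {w : ℕ} (hw : 1 ≤ w) (hwJ : w ≤ J) (c : ℕ → Fin m) (r : ℕ)
    (B : F.Ω → Prop) : ∃ (G : PtT F → ℕ → MvPolynomial (Option (Fin m)) ℝ)
      (H : LnT F → ℕ → MvPolynomial (Option (Fin m)) ℝ),
      ChOK F c r (fun _ => 0) w w 0 (fun _ => 0) B G H := by
  have hJ : 1 ≤ J := hw.trans hwJ
  have p1 : (1 : ℝ) / 2 ^ J ≤ 1 / 2 := by
    have h1 : (2 : ℝ) ^ 1 ≤ 2 ^ J := pow_le_pow_right₀ (by norm_num) hJ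
    rw [pow_one] at h1
    exact one_div_le_one_div_of_le (by norm_num) h1
  have p2 : (1 : ℝ) / 2 ^ w ≤ 1 / 2 := by
    have h1 : (2 : ℝ) ^ 1 ≤ 2 ^ w := pow_le_pow_right₀ (by norm_num) hw
    rw [pow_one] at h1
    exact one_div_le_one_div_of_le (by norm_num) h1
  refine ⟨fun y j => C (px c y (j + 1)), fun s j => C (s.1.1 (c j) +
    (s.2.2 : ℝ) / 2 ^ w * s.1.2 (c j)), fun y j => ?_, fun s j => ?_, fun y j b b' _ _ => ?_,
    fun s j b b' _ _ => ?_, fun ω _ j _ => ?_, fun ω _ j _ b _ => ?_, fun ω _ j _ b _ l _ => ?_⟩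
  · rw [totalDegree_C]
  · rw [totalDegree_C]
  · rw [eval_C, eval_C]
  · rw [eval_C, eval_C]
  · rw [eval_C, abs_sub_comm]
    refine (px_near F c j ω).trans (p1.trans ?_)
    norm_num
  · rw [eval_C, eval_C]
    have h1 := px_near F c j ω
    have h2 := t_cell F hwJ ω
    have e1 : px c (ptr F J ω) (j + 1) - ((slam F w ω).1.1 (c j) +
        ((slam F w ω).2.2 : ℝ) / 2 ^ w * (slam F w ω).1.2 (c j)) =
        (px c (ptr F J ω) (j + 1) - F.x ω (c j)) +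
          (F.t ω - (F.T1 w ω : ℝ) / 2 ^ w) * F.d ω (c j) := by
      show px c (ptr F J ω) (j + 1) - (F.u ω (c j) + (F.T1 w ω : ℝ) / 2 ^ w * F.d ω (c j)) = _
      have e2 : F.x ω (c j) = F.u ω (c j) + F.t ω * F.d ω (c j) := rfl
      rw [e2]
      ring
    rw [e1]
    refine (abs_add_le _ _).trans ?_
    rw [abs_mul]
    have h3 : |F.t ω - (F.T1 w ω : ℝ) / 2 ^ w| * |F.d ω (c j)| ≤ 1 / 2 ^ w * 1 :=
      mul_le_mul h2 (F.dir ω (c j)) (abs_nonneg _) (by positivity)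
    have e3 : (1 : ℝ) / 2 ^ 0 = 1 := by norm_num
    rw [e3]
    linarith
  · rw [pderiv_C, map_zero, abs_zero]
    positivity

theorem pow_exp (n : ℕ) : (2 : ℝ) ^ n = Real.exp (n * Real.log 2) := by
  rw [mul_comm, Real.exp_mul, Real.exp_log (by norm_num), Real.rpow_natCast]

theorem pow_le_exp {n : ℕ} {x : ℝ} (h : (n : ℝ) ≤ x) : (2 : ℝ) ^ n ≤ Real.exp (x * Real.log 2) := by
  rw [pow_exp]
  exact Real.exp_le_exp.2 (mul_le_mul_of_nonneg_right h (Real.log_pos one_lt_two).le)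

theorem inv_le_exp {n : ℕ} {x : ℝ} (h : x ≤ n) :
    (1 : ℝ) / 2 ^ n ≤ Real.exp (-(x * Real.log 2)) := by
  rw [pow_exp, one_div, ← Real.exp_neg]
  exact Real.exp_le_exp.2 (neg_le_neg
    (mul_le_mul_of_nonneg_right h (Real.log_pos one_lt_two).le))

theorem exp_le_inv {n : ℕ} {x : ℝ} (h : (n : ℝ) ≤ x) :
    Real.exp (-(x * Real.log 2)) ≤ (1 : ℝ) / 2 ^ n := by
  rw [pow_exp, one_div, ← Real.exp_neg]
  exact Real.exp_le_exp.2 (neg_le_neg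
    (mul_le_mul_of_nonneg_right h (Real.log_pos one_lt_two).le))

/-- The numbers: the coefficients of the affine label are smaller than the resolution. -/
theorem num_px {J sg N Pq Q' gr r : ℕ} {C₀ L h δ κ σ γ Pz x ee : ℝ} (hC : 1 ≤ C₀) (hh : 0 < h)
    (hδ0 : 0 ≤ δ) (hδ : δ ≤ h / 128) (hκ : κ ≤ h / 64) (hγ : 6 * h ≤ γ) (hPz : Pz + σ + γ ≤ 1)
    (hσ : 0 ≤ σ) (hPz0 : 0 ≤ Pz)
    (hsg : (sg : ℝ) ≤ (σ + δ) * J) (hN : (N : ℝ) ≤ (1 - γ / 2) * J)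
    (hPq : (Pz + 5 * h) * J - 1 ≤ Pq) (hQ' : (Q' : ℝ) ≤ (Pz + 2 * h) * J)
    (hgr : (Pz + σ - δ) * J ≤ gr) (hL0 : 0 ≤ L) (hL : Real.log (1 + L) ≤ δ * J)
    (hee : ee ≤ κ * J + C₀) (hJ : Real.log (20 * (r + 1) * C₀) + C₀ + 2 ≤ h / 8 * J) :
    1 / 2 ^ Pq + 1 / 2 ^ J + r * (2 ^ sg * (L + C₀ * (Real.exp ee *
      (1 / 2 ^ gr + 1 / 2 ^ J + 1 / 2 ^ (sg + Pq))) * 2 ^ N * (1 + L))) / 2 ^ J ≤
      (1 / 2 ^ Q' : ℝ) := by
  have hJ0 : (0 : ℝ) ≤ J := Nat.cast_nonneg J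
  obtain ⟨l2, hl2⟩ : ∃ l2, l2 = Real.log 2 := ⟨_, rfl⟩
  have l2a : 1 / 2 ≤ l2 := by
    rw [hl2]
    have := Real.log_two_gt_d9
    linarith
  have l2b : l2 ≤ 1 := by
    rw [hl2]
    have := Real.log_two_lt_d9
    linarith
  obtain ⟨X, hX⟩ : ∃ X : ℝ, X = J := ⟨_, rfl⟩
  rw [← hX] at hsg hN hPq hQ' hgr hL hee hJ hJ0
  have hr0 : (0 : ℝ) ≤ r := Nat.cast_nonneg r
  -- the target
  have t0 : Real.exp (-((Pz + 2 * h) * X * l2)) ≤ 1 / 2 ^ Q' := by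
    rw [hl2]
    exact exp_le_inv hQ'
  obtain ⟨T, hT⟩ : ∃ T, T = Real.exp (-((Pz + 2 * h) * X * l2)) := ⟨_, rfl⟩
  rw [← hT] at t0
  have hT0 : 0 < T := by rw [hT]; exact Real.exp_pos _
  -- the constant
  obtain ⟨Λ, hΛ⟩ : ∃ Λ : ℝ, Λ = 20 * (r + 1) * C₀ := ⟨_, rfl⟩
  have hΛ0 : 0 < Λ := by rw [hΛ]; positivity
  have hΛ20 : 20 ≤ Λ := by rw [hΛ]; nlinarith
  have hΛe : Λ = Real.exp (Real.log Λ) := (Real.exp_log hΛ0).symm
  have hlΛ : 0 ≤ Real.log Λ := Real.log_nonneg (by linarith)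
  rw [← hΛ] at hJ
  have hX8 : h * X / 8 ≤ h * X * l2 / 4 := by nlinarith [mul_nonneg hh.le hJ0]
  have hhX : 0 ≤ h * X := mul_nonneg hh.le hJ0
  -- a term below the target
  have key : ∀ y : ℝ, Real.log Λ + y ≤ -((Pz + 2 * h) * X * l2) → Λ * Real.exp y ≤ T := by
    intro y hy
    rw [hΛe, ← Real.exp_add, hT]
    exact Real.exp_le_exp.2 (by linarith)
  have q1 : (1 : ℝ) / 2 ^ Pq ≤ Real.exp (-(((Pz + 5 * h) * X - 1) * l2)) := by
    rw [hl2]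
    exact inv_le_exp hPq
  have q2 : (1 : ℝ) / 2 ^ J ≤ Real.exp (-(X * l2)) := by
    rw [hl2]
    exact inv_le_exp hX.le
  have q3 : (2 : ℝ) ^ sg ≤ Real.exp ((σ + δ) * X * l2) := by
    rw [hl2]
    exact pow_le_exp hsg
  have q4 : (2 : ℝ) ^ N ≤ Real.exp ((1 - γ / 2) * X * l2) := by
    rw [hl2]
    exact pow_le_exp hN
  have q5 : (1 : ℝ) / 2 ^ gr ≤ Real.exp (-((Pz + σ - δ) * X * l2)) := by
    rw [hl2]
    exact inv_le_exp hgr
  have q6 : 1 + L ≤ Real.exp (δ * X) := by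
    rw [← Real.log_le_iff_le_exp (by linarith)]
    exact hL
  have q7 : Real.exp ee ≤ Real.exp (κ * X + C₀) := Real.exp_le_exp.2 hee
  have hδX : 0 ≤ δ * X := mul_nonneg hδ0 hJ0
  have hδX' : δ * X ≤ h * X / 128 := by
    have := mul_le_mul_of_nonneg_right hδ hJ0
    linarith
  have hκX : κ * X ≤ h * X / 64 := by
    have := mul_le_mul_of_nonneg_right hκ hJ0
    linarith
  have hγX : 6 * (h * X) ≤ γ * X := by
    have := mul_le_mul_of_nonneg_right hγ hJ0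
    linarith
  have hPzX : (Pz + σ + γ) * X ≤ X := by
    have := mul_le_mul_of_nonneg_right hPz hJ0
    linarith
  have hσX : 0 ≤ σ * X := mul_nonneg hσ hJ0
  have hPzX0 : 0 ≤ Pz * X := mul_nonneg hPz0 hJ0
  have hl2X : ∀ y : ℝ, 0 ≤ y → y * l2 ≤ y ∧ y / 2 ≤ y * l2 := fun y hy =>
    ⟨by nlinarith, by nlinarith⟩
  have hhl := hl2X (h * X) hhX
  -- term 1
  have a1 : Λ * (1 / 2 ^ Pq) ≤ T := by
    refine (mul_le_mul_of_nonneg_left q1 hΛ0.le).trans (key _ ?_)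
    nlinarith [hhl.2]
  have a2 : Λ * (1 / 2 ^ J) ≤ T := by
    refine (mul_le_mul_of_nonneg_left q2 hΛ0.le).trans (key _ ?_)
    have h1 : (4 * (h * X)) * l2 ≤ (X - (Pz + 2 * h) * X) * l2 :=
      mul_le_mul_of_nonneg_right (by linarith) (by linarith)
    nlinarith [hhl.2]
  -- term 3
  have a3 : Λ * (2 ^ sg * (1 + L) * (1 / 2 ^ J)) ≤ T := by
    have h1 : (2 : ℝ) ^ sg * (1 + L) * (1 / 2 ^ J) ≤
        Real.exp ((σ + δ) * X * l2) * Real.exp (δ * X) * Real.exp (-(X * l2)) :=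
      mul_le_mul (mul_le_mul q3 q6 (by linarith) (Real.exp_pos _).le) q2 (by positivity)
        (by positivity)
    refine (mul_le_mul_of_nonneg_left h1 hΛ0.le).trans ?_
    rw [← Real.exp_add, ← Real.exp_add]
    refine key _ ?_
    have h2 : (4 * (h * X) - δ * X) * l2 ≤ (X - (Pz + 2 * h) * X - (σ + δ) * X) * l2 :=
      mul_le_mul_of_nonneg_right (by linarith) (by linarith)
    have h3 := hl2X (δ * X) hδX
    nlinarith [hhl.2]
  -- term 4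
  have a4 : ∀ (u : ℝ) (v : ℝ), 0 ≤ u → u ≤ Real.exp v →
      v + ((σ + δ) * X + (1 - γ / 2) * X - X) * l2 + κ * X + C₀ + δ * X + Real.log Λ ≤
        -((Pz + 2 * h) * X * l2) →
      Λ * (2 ^ sg * Real.exp ee * u * 2 ^ N * (1 + L) * (1 / 2 ^ J)) ≤ T := by
    intro u v hu huv hv
    have h1 : (2 : ℝ) ^ sg * Real.exp ee * u * 2 ^ N * (1 + L) * (1 / 2 ^ J) ≤
        Real.exp ((σ + δ) * X * l2) * Real.exp (κ * X + C₀) * Real.exp v *
          Real.exp ((1 - γ / 2) * X * l2) * Real.exp (δ * X) * Real.exp (-(X * l2)) := by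
      refine mul_le_mul (mul_le_mul (mul_le_mul (mul_le_mul (mul_le_mul q3 q7 ?_ ?_) huv hu ?_)
        q4 ?_ ?_) q6 ?_ ?_) q2 ?_ ?_ <;> first | positivity | linarith
    refine (mul_le_mul_of_nonneg_left h1 hΛ0.le).trans ?_
    rw [← Real.exp_add, ← Real.exp_add, ← Real.exp_add, ← Real.exp_add, ← Real.exp_add]
    refine key _ (le_trans (le_of_eq ?_) hv)
    ring
  have b1 := a4 (1 / 2 ^ gr) _ (by positivity) q5 (by
    have h2 : ((Pz + 3 * h) * X - 2 * (δ * X)) * l2 ≤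
        ((Pz + σ - δ) * X - ((σ + δ) * X + (1 - γ / 2) * X - X)) * l2 :=
      mul_le_mul_of_nonneg_right (by linarith) (by linarith)
    have h3 := hl2X (δ * X) hδX
    nlinarith [hhl.2, h3.1])
  have b2 := a4 (1 / 2 ^ J) _ (by positivity) q2 (by
    have h2 : ((Pz + 3 * h) * X - 2 * (δ * X)) * l2 ≤
        (X - ((σ + δ) * X + (1 - γ / 2) * X - X)) * l2 :=
      mul_le_mul_of_nonneg_right (by linarith) (by linarith)
    have h3 := hl2X (δ * X) hδX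
    nlinarith [hhl.2, h3.1])
  have e0 : (1 : ℝ) / 2 ^ (sg + Pq) = 1 / 2 ^ sg * (1 / 2 ^ Pq) := by
    rw [pow_add]
    field_simp
  have q8 : (2 : ℝ) ^ sg * (1 / 2 ^ (sg + Pq)) ≤ Real.exp (-(((Pz + 5 * h) * X - 1) * l2)) := by
    rw [e0, ← mul_assoc, mul_one_div_cancel (by positivity), one_mul]
    exact q1
  have b3 : Λ * (2 ^ sg * Real.exp ee * (1 / 2 ^ (sg + Pq)) * 2 ^ N * (1 + L) * (1 / 2 ^ J)) ≤
      T := by
    have h1 : (2 : ℝ) ^ sg * Real.exp ee * (1 / 2 ^ (sg + Pq)) * 2 ^ N * (1 + L) * (1 / 2 ^ J) ≤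
        Real.exp (-(((Pz + 5 * h) * X - 1) * l2)) * Real.exp (κ * X + C₀) *
          Real.exp ((1 - γ / 2) * X * l2) * Real.exp (δ * X) * Real.exp (-(X * l2)) := by
      have e5 : (2 : ℝ) ^ sg * Real.exp ee * (1 / 2 ^ (sg + Pq)) = 2 ^ sg * (1 / 2 ^ (sg + Pq)) *
        Real.exp ee := by ring
      rw [e5]
      refine mul_le_mul (mul_le_mul (mul_le_mul (mul_le_mul q8 q7 ?_ ?_)
        q4 ?_ ?_) q6 ?_ ?_) q2 ?_ ?_ <;> first | positivity | linarith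
    refine (mul_le_mul_of_nonneg_left h1 hΛ0.le).trans ?_
    rw [← Real.exp_add, ← Real.exp_add, ← Real.exp_add, ← Real.exp_add]
    refine key _ ?_
    have h2 : ((Pz + 8 * h) * X - 1) * l2 ≤
        (((Pz + 5 * h) * X - 1) - (1 - γ / 2) * X + X) * l2 :=
      mul_le_mul_of_nonneg_right (by linarith) (by linarith)
    nlinarith [hhl.2]
  -- the sum
  have hdiv : ∀ u : ℝ, Λ * u ≤ T → u ≤ T / Λ := fun u hu => by
    rw [le_div_iff₀ hΛ0]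
    linarith
  have c1 := hdiv _ a1
  have c2 := hdiv _ a2
  have c3 := hdiv _ a3
  have d1 := hdiv _ b1
  have d2 := hdiv _ b2
  have d3 := hdiv _ b3
  obtain ⟨U, hU⟩ : ∃ U, U = T / Λ := ⟨_, rfl⟩
  have hU0 : 0 ≤ U := by rw [hU]; positivity
  rw [← hU] at c1 c2 c3 d1 d2 d3
  have e1 : (r : ℝ) * (2 ^ sg * (L + C₀ * (Real.exp ee *
      (1 / 2 ^ gr + 1 / 2 ^ J + 1 / 2 ^ (sg + Pq))) * 2 ^ N * (1 + L))) / 2 ^ J =
      r * (2 ^ sg * L * (1 / 2 ^ J)) + r * C₀ *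
        ((2 ^ sg * Real.exp ee * (1 / 2 ^ gr) * 2 ^ N * (1 + L) * (1 / 2 ^ J)) +
        (2 ^ sg * Real.exp ee * (1 / 2 ^ J) * 2 ^ N * (1 + L) * (1 / 2 ^ J)) +
        (2 ^ sg * Real.exp ee * (1 / 2 ^ (sg + Pq)) * 2 ^ N * (1 + L) * (1 / 2 ^ J))) := by
    ring
  rw [e1]
  have c3' : (2 : ℝ) ^ sg * L * (1 / 2 ^ J) ≤ U := by
    refine le_trans ?_ c3
    refine mul_le_mul_of_nonneg_right (mul_le_mul_of_nonneg_left (by linarith) (by positivity))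
      (by positivity)
  have f1 : (r : ℝ) * (2 ^ sg * L * (1 / 2 ^ J)) ≤ r * U := mul_le_mul_of_nonneg_left c3' hr0
  have f2 : (r : ℝ) * C₀ *
        ((2 ^ sg * Real.exp ee * (1 / 2 ^ gr) * 2 ^ N * (1 + L) * (1 / 2 ^ J)) +
        (2 ^ sg * Real.exp ee * (1 / 2 ^ J) * 2 ^ N * (1 + L) * (1 / 2 ^ J)) +
        (2 ^ sg * Real.exp ee * (1 / 2 ^ (sg + Pq)) * 2 ^ N * (1 + L) * (1 / 2 ^ J))) ≤
        r * C₀ * (3 * U) :=
    mul_le_mul_of_nonneg_left (by linarith) (by positivity)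
  have f3 : Λ * U = T := by
    rw [hU]
    field_simp
  rw [hΛ] at f3
  have f4 : 2 * U + (r * U + r * C₀ * (3 * U)) ≤ T := by
    have g1 : (r : ℝ) * U ≤ r * C₀ * U := by
      have : (r : ℝ) * 1 ≤ r * C₀ := mul_le_mul_of_nonneg_left hC hr0
      nlinarith
    have g2 : U ≤ C₀ * U := by nlinarith
    have g3 : 0 ≤ r * C₀ * U := by positivity
    nlinarith
  linarith

end Pool.PM93
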